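import Mathlib
import Pool.Agent.U47.QE.Final

/-!
# One exceptional set of quadratic points for countably many properties
-/

set_option autoImplicit false
set_option linter.unusedSectionVars false

open WeierstrassCurve Height NumberField IsDedekindDomain Pool.Agent.TH942 Filter Topology
open Pool.Agent.U47.QE

namespace Pool.Agent.U47.QF

open scoped Classical

/-- properties of points `(x, y)` over extensions of `K` -/
def Prd (K : Type) [Field K] : Type 1 :=
  ∀ (L : Type) [Field L] [NumberField L] [Algebra K L], L → L → Prop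

variable {K : Type} [Field K] [NumberField K]

/-- the property `G` holds for the points of trace `s` with few exceptions -/
def OneTr (a b : K) (s : EP a b K) (G : Prd K) : Prop :=
  ∃ (k : Type) (_ : Field k) (_ : NumberField k) (_ : Algebra K k) (E Z : Set K) (H : ℝ),
    Psv E ∧ Z.Finite ∧ ∀ (L : Type) [Field L] [NumberField L] [Algebra K L] (σ : L ≃ₐ[K] L)
      (x y : L) (h : (sw (algebraMap K L a) (algebraMap K L b)).toAffine.Nonsingular x y) (l : K),
      Qw s σ (Affine.Point.some x y h : EP a b L) →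
      Par s σ (Affine.Point.some x y h : EP a b L) l → IsEmpty (L →ₐ[K] k) → l ∉ E → l ∉ Z →
      H < logHeight₁ x → G L x y

/-- the points of trace `s` at which the property fails -/
def BadG (a b : K) (G : Prd K) (s : EP a b K) (X : ℝ) : Set (EP a b (AlgebraicClosure K)) :=
  {p | ∃ (L : Type) (_ : Field L) (_ : NumberField L) (_ : Algebra K L)
    (ι : L →ₐ[K] AlgebraicClosure K) (σ : L ≃ₐ[K] L) (x y : L)
    (h : (sw (algebraMap K L a) (algebraMap K L b)).toAffine.Nonsingular x y),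
    Qw s σ (Affine.Point.some x y h : EP a b L) ∧ logHeight₁ x ≤ X ∧
      mp a b ι (Affine.Point.some x y h) = p ∧ ¬ G L x y}

theorem bad_few_gen (a b : 𝓞 K) (hab : 4 * (a : K) ^ 3 + 27 * (b : K) ^ 2 ≠ 0) (G : Prd K)
    (s : EP (a : K) (b : K) K) (hG : OneTr (a : K) (b : K) s G) {δ : ℝ}
    (hδ : 0 < δ) : ∃ X₀ : ℝ, ∀ X : ℝ, X₀ ≤ X →
      ((BadG (a : K) (b : K) G s X).ncard : ℝ) ≤ δ * Real.exp X := by
  obtain ⟨k, _, _, _, E, Z, H, ⟨ν, CE, hν, hps⟩, hZ, hgood⟩ := hG
  obtain ⟨Cs, hCs, hht⟩ := par_height s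
  obtain ⟨CA, hCA, hA⟩ := wtA_card s
  obtain ⟨X₁, hX₁⟩ := emb_few (a := (a : K)) (b := (b : K)) hab k (δ := δ / 3) (by positivity)
  have hWH := (hA H Set.univ).1
  -- the sizes
  have hlim1 : Tendsto (fun X : ℝ => 2 * CE * Real.exp ((2 - ν) * CA / 2) *
      Real.exp (-(ν / 2 * X))) atTop (𝓝 (2 * CE * Real.exp ((2 - ν) * CA / 2) * 0)) := by
    refine Tendsto.const_mul _ ?_
    refine Real.tendsto_exp_neg_atTop_nhds_zero.comp ?_
    exact tendsto_id.const_mul_atTop (by positivity)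
  rw [mul_zero] at hlim1
  have hlim2 : Tendsto (fun X : ℝ => (2 * (Z.ncard : ℝ) + (WtA s H Set.univ).ncard) *
      Real.exp (-X)) atTop (𝓝 ((2 * (Z.ncard : ℝ) + (WtA s H Set.univ).ncard) * 0)) :=
    Real.tendsto_exp_neg_atTop_nhds_zero.const_mul _
  rw [mul_zero] at hlim2
  obtain ⟨X₂, hX₂⟩ := eventually_atTop.1 ((hlim1.eventually (gt_mem_nhds (show 0 < δ / 3 by
    positivity))).and (hlim2.eventually (gt_mem_nhds (show 0 < δ / 3 by positivity))))
  refine ⟨max (max X₁ X₂) 0, fun X hX => ?_⟩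
  have hX1 : X₁ ≤ X := (le_max_left _ _).trans ((le_max_left _ _).trans hX)
  have hX2 : X₂ ≤ X := (le_max_right _ _).trans ((le_max_left _ _).trans hX)
  have hX0 : 0 ≤ X := (le_max_right _ _).trans hX
  obtain ⟨h5, h6⟩ := hX₂ X hX2
  obtain ⟨h7, h8⟩ := hX₁ X hX1
  have hexp : Real.exp (-X) * Real.exp X = 1 := by
    rw [← Real.exp_add, neg_add_cancel, Real.exp_zero]
  have hsub : BadG (a : K) (b : K) G s X ⊆
      (WtA s X (E ∪ Z) ∪ WtA s H Set.univ) ∪ EmbS (a : K) (b : K) k X := by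
    rintro p ⟨L, _, _, _, ι, σ, x, y, h, hw, hx, hp, hbad⟩
    by_cases hemb : Nonempty (L →ₐ[K] k)
    · right
      exact ⟨L, _, ‹_›, _, ι, _, hemb, by rw [QE.sht_some]; exact hx, hp⟩
    · rw [not_nonempty_iff] at hemb
      left
      obtain ⟨l, hl⟩ := par_exists hw
      by_cases hlEZ : l ∈ E ∪ Z
      · left
        exact ⟨L, _, ‹_›, _, ι, σ, _, l, hw, hl, hlEZ, by rw [QE.sht_some]; exact hx, hp⟩
      · right
        rw [Set.mem_union] at hlEZ
        push Not at hlEZ
        refine ⟨L, _, ‹_›, _, ι, σ, _, l, hw, hl, trivial, ?_, hp⟩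
        by_contra hcon
        apply hbad
        rw [QE.sht_some] at hcon
        push Not at hcon
        exact hgood L σ x y h l hw hl hemb hlEZ.1 hlEZ.2 hcon
  have hAf := hA X (E ∪ Z)
  have hfin := (hAf.1.union hWH).union h7
  have g1 := (Set.ncard_le_ncard hsub hfin).trans ((Set.ncard_union_le _ _).trans
    (Nat.add_le_add_right (Set.ncard_union_le _ _) _))
  have g2 : ((BadG (a : K) (b : K) G s X).ncard : ℝ) ≤
      ((WtA s X (E ∪ Z)).ncard : ℝ) + (WtA s H Set.univ).ncard +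
        (EmbS (a : K) (b : K) k X).ncard := by exact_mod_cast g1
  have g3 : ((WtA s X (E ∪ Z)).ncard : ℝ) ≤ 2 * (((E ∩ {l | logHeight₁ l ≤ (X + CA) / 2}).ncard : ℝ)
      + Z.ncard) := by
    have g4 : ((E ∪ Z) ∩ {l | logHeight₁ l ≤ (X + CA) / 2}).ncard ≤
        (E ∩ {l | logHeight₁ l ≤ (X + CA) / 2}).ncard + Z.ncard := by
      rw [Set.union_inter_distrib_right]
      refine (Set.ncard_union_le _ _).trans (Nat.add_le_add_left ?_ _)
      exact Set.ncard_le_ncard Set.inter_subset_left hZ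
    have g5 := hAf.2.trans (Nat.mul_le_mul_left 2 g4)
    exact_mod_cast g5
  have g4 := hps ((X + CA) / 2) (by linarith)
  have g5 : CE * Real.exp ((2 - ν) * ((X + CA) / 2)) =
      CE * Real.exp ((2 - ν) * CA / 2) * Real.exp (-(ν / 2 * X)) * Real.exp X := by
    rw [mul_assoc CE, mul_assoc CE, ← Real.exp_add, ← Real.exp_add]
    congr 2
    ring
  have g6 : 2 * CE * Real.exp ((2 - ν) * CA / 2) * Real.exp (-(ν / 2 * X)) * Real.exp X ≤
      δ / 3 * Real.exp X := mul_le_mul_of_nonneg_right h5.le (Real.exp_pos _).le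
  have g7 : (2 * (Z.ncard : ℝ) + (WtA s H Set.univ).ncard) * Real.exp (-X) * Real.exp X ≤
      δ / 3 * Real.exp X := mul_le_mul_of_nonneg_right h6.le (Real.exp_pos _).le
  rw [mul_assoc, hexp, mul_one] at g7
  rw [g5] at g4
  linarith

/-- **one exceptional set for countably many properties** -/
theorem final_gen (a b : 𝓞 K)
    (hab : 4 * (a : K) ^ 3 + 27 * (b : K) ^ 2 ≠ 0) (G : ℕ → Prd K)
    (hG : ∀ n s, OneTr (a : K) (b : K) s (G n)) :
    ∃ E : Set (EP (a : K) (b : K) (AlgebraicClosure K)), Ngl (QQ (a : K) (b : K)) E ∧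
      ∀ n, ∃ X : ℝ, ∀ (L : Type) [Field L] [NumberField L] [Algebra K L]
          (ι : L →ₐ[K] AlgebraicClosure K) (x y : L)
          (h : (sw (algebraMap K L (a : K)) (algebraMap K L (b : K))).toAffine.Nonsingular x y),
          Module.finrank K L = 2 →
          ¬ (x ∈ Set.range (algebraMap K L) ∧ y ∈ Set.range (algebraMap K L)) →
          mp (a : K) (b : K) ι (Affine.Point.some x y h) ∉ E → X < logHeight₁ x →
          G n L x y := by
  have hU := cntU K
  obtain ⟨C, hC, hfin⟩ := qq_fin a b hab hU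
  let Ba : ℕ → Set (EP (a : K) (b : K) (AlgebraicClosure K)) := fun n =>
    {p | ∃ s X, p ∈ BadG (a : K) (b : K) (G n) s X}
  have hlink : ∀ (G : Prd K) (X : ℝ),
      {p | ∃ s X, p ∈ BadG (a : K) (b : K) G s X} ∩ QQ (a : K) (b : K) X ⊆
        {p | ∃ s, p ∈ BadG (a : K) (b : K) G s X} := by
    rintro G X p ⟨⟨s, X1, L, _, _, _, ι, σ, x, y, h, hw, hx, hp, hbad⟩,
      s', L', _, _, _, ι', σ', P', hw', hX', hp'⟩
    refine ⟨s, L, _, ‹_›, _, ι, σ, x, y, h, hw, ?_, hp, hbad⟩
    have h1 : Module.finrank ℚ L = Module.finrank ℚ L' := by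
      have f1 : FiniteDimensional K L := FiniteDimensional.right ℚ K L
      have f2 : FiniteDimensional K L' := FiniteDimensional.right ℚ K L'
      rw [← Module.finrank_mul_finrank ℚ K L, ← Module.finrank_mul_finrank ℚ K L', hw.cj.deg,
        hw'.cj.deg]
    rw [← hp] at hp'
    match P', hX', hp' with
    | 0, _, hp' =>
      rw [map_zero, mp_some] at hp'
      exact absurd hp' (by intro h; cases h)
    | .some x' y' h', hX', hp' =>
      rw [mp_some, mp_some, Affine.Point.some.injEq] at hp'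
      rw [QE.sht_some] at hX'
      have h2 := ht_uniq ι ι' (hp'.1).symm
      rw [h1] at h2
      have h3 : (0 : ℝ) < Module.finrank ℚ L' := by exact_mod_cast Module.finrank_pos
      have h4 := mul_left_cancel₀ h3.ne' h2
      rw [h4]
      exact hX'
  have hB : ∀ n, Ngl (QQ (a : K) (b : K)) (Ba n) := by
    intro n
    refine ngl_of_traces' a b hab hU _ (fun s X => BadG (a : K) (b : K) (G n) s X) ?_ ?_ ?_
    · rintro s X p ⟨L, _, _, _, ι, σ, x, y, h, hw, hx, hp, hbad⟩
      exact ⟨L, _, ‹_›, _, ι, σ, _, hw, by rw [QE.sht_some]; exact hx, hp⟩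
    · intro X
      exact hlink _ _
    · intro s δ hδ
      exact bad_few_gen a b hab (G n) s (hG n s) hδ
  obtain ⟨E, hE1, hE2⟩ := diag (fun X => (hfin X).1) (fun X Y h => qq_mono h) Ba hB
  refine ⟨E, hE1, fun n => ?_⟩
  obtain ⟨X, hX⟩ := hE2 n
  refine ⟨X, ?_⟩
  intro L _ _ _ ι x y h hd hrat hpE hxX
  by_contra hbad
  obtain ⟨σ, hσ⟩ := exists_conj hd
  obtain ⟨s, hs⟩ := exists_trace hab hσ (Affine.Point.some x y h : EP (a : K) (b : K) L)
  have hw : Qw s σ (Affine.Point.some x y h : EP (a : K) (b : K) L) := by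
    refine ⟨hσ, ?_, hs⟩
    rw [mp_some]
    intro h1
    rw [Affine.Point.some.injEq] at h1
    exact hrat ⟨(hσ.fix x).1 h1.1, (hσ.fix y).1 h1.2⟩
  have hmem : mp (a : K) (b : K) ι (Affine.Point.some x y h) ∈ Ba n :=
    ⟨s, logHeight₁ x, L, _, ‹_›, _, ι, σ, x, y, h, hw, le_rfl, rfl, hbad⟩
  have h2 := hX ⟨hmem, hpE⟩
  obtain ⟨s', L', _, _, _, ι', σ', x', y', h', hw', hx', hp', -⟩ :=
    hlink (G n) X ⟨hmem, h2⟩
  rw [mp_some, mp_some, Affine.Point.some.injEq] at hp'
  have h3 := ht_uniq ι ι' (hp'.1).symm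
  have h4 : Module.finrank ℚ L = Module.finrank ℚ L' := by
    have f1 : FiniteDimensional K L := FiniteDimensional.right ℚ K L
    have f2 : FiniteDimensional K L' := FiniteDimensional.right ℚ K L'
    rw [← Module.finrank_mul_finrank ℚ K L, ← Module.finrank_mul_finrank ℚ K L', hd,
      hw'.cj.deg]
  rw [h4] at h3
  have h5 : (0 : ℝ) < Module.finrank ℚ L' := by exact_mod_cast Module.finrank_pos
  have h6 := mul_left_cancel₀ h5.ne' h3
  rw [h6] at hxX
  linarith

end Pool.Agent.U47.QF
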