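import Mathlib
import Pool.Agent.U47.QF.Gen
import Pool.Agent.N753.DR.Crv

/-!
# The discriminant of a quadratic extension
-/

set_option autoImplicit false
set_option linter.unusedSectionVars false

open NumberField IsDedekindDomain
open Pool.Agent.U47.QE

namespace Pool.Agent.U47.QF

open scoped Classical

variable {F M : Type} [Field F] [NumberField F] [Field M] [NumberField M] [Algebra F M]

/-- the primes over a ramified prime -/
theorem sum_above_ram (v : Pr F) (hv : ∀ w : Pr M, w.asIdeal.LiesOver v.asIdeal →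
    2 ≤ v.asIdeal.ramificationIdx' w.asIdeal)
    (Z : Finset (Pr M)) (hZ : ∀ w ∈ Z, w.asIdeal.LiesOver v.asIdeal) :
    2 * ∑ w ∈ Z, Real.log (Ideal.absNorm w.asIdeal : ℝ) ≤
      (Module.finrank F M : ℝ) * Real.log (Ideal.absNorm v.asIdeal : ℝ) := by
  have hmax := v.isMaximal
  have hmap : Ideal.map (algebraMap (𝓞 F) (𝓞 M)) v.asIdeal =
      ∏ Q ∈ (v.asIdeal.primesOver (𝓞 M)).toFinset, Q ^ Q.ramificationIdx (𝓞 F) :=
    Ideal.map_algebraMap_eq_finsetProd_pow v.ne_bot
  have hfr : Module.finrank (𝓞 F) (𝓞 M) = Module.finrank F M :=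
    (IsFractionRing.finrank_eq (𝓞 F) F (𝓞 M) M).symm
  have hbot : ∀ Q ∈ (v.asIdeal.primesOver (𝓞 M)).toFinset, Q ≠ ⊥ := by
    intro Q hQ
    rw [Set.mem_toFinset] at hQ
    have := hQ.2
    exact Ideal.ne_bot_of_liesOver_of_ne_bot v.ne_bot Q
  have h1 := Ideal.absNorm_algebraMap (𝓞 F) (𝓞 M) v.asIdeal
  rw [hmap, map_prod, hfr] at h1
  have h2 : (∏ Q ∈ (v.asIdeal.primesOver (𝓞 M)).toFinset,
      ((Ideal.absNorm Q : ℝ)) ^ Q.ramificationIdx (𝓞 F)) =
        (Ideal.absNorm v.asIdeal : ℝ) ^ Module.finrank F M := by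
    have h3 := congrArg (fun n : ℕ => (n : ℝ)) h1
    simp only [Nat.cast_prod, Nat.cast_pow, map_pow] at h3
    exact h3
  rw [← Real.log_pow, ← h2, Real.log_prod]
  · have hinj : Set.InjOn (fun w : Pr M => w.asIdeal) ↑Z := fun w _ w' _ h =>
      HeightOneSpectrum.ext h
    rw [← Finset.sum_image (f := fun Q : Ideal (𝓞 M) => Real.log (Ideal.absNorm Q : ℝ)) hinj,
      Finset.mul_sum]
    refine (Finset.sum_le_sum_of_subset_of_nonneg (t := (v.asIdeal.primesOver (𝓞 M)).toFinset)
      ?_ ?_).trans (Finset.sum_le_sum fun Q hQ => ?_)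
    · intro Q hQ
      rw [Finset.mem_image] at hQ
      obtain ⟨w, hw, rfl⟩ := hQ
      rw [Set.mem_toFinset]
      exact ⟨w.isPrime, hZ w hw⟩
    · intro Q _ _
      exact mul_nonneg two_pos.le (Real.log_natCast_nonneg _)
    · rw [Real.log_pow]
      have h3 : (0 : ℝ) ≤ Real.log (Ideal.absNorm Q : ℝ) := Real.log_natCast_nonneg _
      have h4 : 2 ≤ Q.ramificationIdx (𝓞 F) := by
        have hb := hbot Q hQ
        rw [Set.mem_toFinset] at hQ
        have hp := hQ.1
        have hl := hQ.2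
        rw [← Ideal.ramificationIdx'_eq_ramificationIdx v.asIdeal Q v.ne_bot]
        exact hv ⟨Q, hp, hb⟩ hl
      have h5 : (2 : ℝ) ≤ (Q.ramificationIdx (𝓞 F) : ℝ) := by exact_mod_cast h4
      nlinarith
  · intro Q hQ
    refine pow_ne_zero _ ?_
    rw [Nat.cast_ne_zero]
    exact Ideal.absNorm_eq_zero_iff.not.2 (hbot Q hQ)

/-- the ramified primes of a quadratic extension -/
theorem disc_quad (h2 : Module.finrank F M = 2) {δ : M} {d : F}
    (hδ : δ ^ 2 = algebraMap F M d) (V : Finset (Pr F))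
    (hV : ∀ v ∈ V, ¬ IsSquare (v.valuation F d)) :
    ∑ v ∈ V, Real.log (Ideal.absNorm v.asIdeal : ℝ) ≤ Real.log |(discr M : ℝ)| := by
  -- the primes above `V`
  have hfin : {w : Pr M | ∃ v ∈ V, w.asIdeal.LiesOver v.asIdeal}.Finite := by
    have h1 : {w : Pr M | ∃ v ∈ V, w.asIdeal.LiesOver v.asIdeal} =
        ⋃ v ∈ V, {w : Pr M | w.asIdeal.LiesOver v.asIdeal} := by
      ext w
      simp
    rw [h1]
    refine Set.Finite.biUnion V.finite_toSet fun v _ => ?_
    obtain ⟨z, hz, hz0⟩ := Submodule.exists_mem_ne_zero_of_ne_bot v.ne_bot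
    have hz' : algebraMap F M (z : F) ≠ 0 := by
      rw [ne_eq, map_eq_zero]
      intro h
      exact hz0 (by exact_mod_cast h)
    refine (Pool.Agent.Y729.RV.val_fin hz').subset fun w hw => ?_
    have hw' : w.asIdeal.LiesOver v.asIdeal := hw
    change w.valuation M (algebraMap F M (z : F)) < 1
    rw [val_lt_iff' v w]
    exact (mem_iff_val v z).1 hz
  have hb := Pool.Agent.Y729.RV.base_change (k := F) (L := M) V hfin.toFinset (by
    intro v hv w hw
    rw [Set.Finite.mem_toFinset]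
    exact ⟨v, hv, hw⟩)
  have hram : ∀ v ∈ V, ∀ w : Pr M, w.asIdeal.LiesOver v.asIdeal →
      2 ≤ v.asIdeal.ramificationIdx' w.asIdeal := by
    intro v hv w hw
    have he : v.asIdeal.ramificationIdx' w.asIdeal ≠ 0 :=
      Ideal.IsDedekindDomain.ramificationIdx'_ne_zero_of_liesOver w.asIdeal v.ne_bot
    have he1 : v.asIdeal.ramificationIdx' w.asIdeal ≠ 1 := by
      intro h1
      apply hV v hv
      have h3 := HeightOneSpectrum.valuation_liesOver (K := F) M v w d
      rw [h1, pow_one, ← hδ, map_pow] at h3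
      exact ⟨w.valuation M δ, by rw [h3, sq]⟩
    omega
  have hsum : ∑ w ∈ hfin.toFinset, Real.log (Ideal.absNorm w.asIdeal : ℝ) ≤
      ∑ v ∈ V, Real.log (Ideal.absNorm v.asIdeal : ℝ) := by
    have hsub : hfin.toFinset ⊆ V.biUnion fun v => hfin.toFinset.filter fun w =>
        w.asIdeal.LiesOver v.asIdeal := by
      intro w hw
      have hw' := hw
      rw [Set.Finite.mem_toFinset] at hw'
      obtain ⟨v, hv, hl⟩ := hw'
      rw [Finset.mem_biUnion]
      exact ⟨v, hv, Finset.mem_filter.2 ⟨hw, hl⟩⟩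
    refine (Finset.sum_le_sum_of_subset_of_nonneg hsub
      fun w _ _ => Real.log_natCast_nonneg _).trans ?_
    refine (sum_biUnion_le' V (fun v => hfin.toFinset.filter fun w =>
        w.asIdeal.LiesOver v.asIdeal) (fun w => Real.log (Ideal.absNorm w.asIdeal : ℝ))
      (fun w => Real.log_natCast_nonneg _)).trans ?_
    refine Finset.sum_le_sum fun v hv => ?_
    have h3 := sum_above_ram (F := F) (M := M) v (hram v hv)
      (hfin.toFinset.filter fun w => w.asIdeal.LiesOver v.asIdeal)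
      (fun w hw => (Finset.mem_filter.1 hw).2)
    rw [h2] at h3
    push_cast at h3
    linarith
  have hF : 0 ≤ Real.log |(discr F : ℝ)| := Pool.Agent.N753.DR.ldiscr_nonneg F
  rw [h2] at hb
  push_cast at hb
  have hV0 : 0 ≤ ∑ v ∈ V, Real.log (Ideal.absNorm v.asIdeal : ℝ) :=
    Finset.sum_nonneg fun v _ => Real.log_natCast_nonneg _
  linarith

/-- the discriminant in a tower -/
theorem disc_tower : (Module.finrank F M : ℝ) * Real.log |(discr F : ℝ)| ≤
    Real.log |(discr M : ℝ)| := by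
  have hb := Pool.Agent.Y729.RV.base_change (k := F) (L := M) ∅ ∅ (by
    intro v hv
    exact absurd hv (Finset.notMem_empty v))
  simpa using hb

end Pool.Agent.U47.QF
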