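import Mathlib
import Pool.Agent.U47.QF.Ram
import Pool.Agent.N753.SF.Main

/-!
# The odd part of the values of quartic polynomials
-/

set_option autoImplicit false
set_option linter.unusedSectionVars false

open NumberField IsDedekindDomain Height Polynomial
open Pool.Agent.U47.QE
open Pool.Agent.H691R3 Pool.Agent.TH876.Loc

namespace Pool.Agent.U47.QF

open scoped Classical

/-- the odd part of the values of squarefree quartic polynomials, outside of the set `E` -/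
def Eng2 (K : Type) [Field K] [NumberField K] (κ : ℝ) (E : Set K) : Prop :=
  ∀ P : K[X], P.natDegree = 4 → Squarefree P → ∀ g : Fin 4 → K, Pool.Agent.N753.SF.dt g ≠ 0 →
    ∃ c : ℝ, ∀ l : K, l ∉ E → g 2 * l + g 3 ≠ 0 → ∃ V : Finset (QE.Pr K),
      (∀ v ∈ V, ¬ IsSquare (v.valuation K (P.eval (Pool.Agent.N753.SF.mob g l)))) ∧
      (4 - κ) * logHeight₁ (Pool.Agent.N753.SF.mob g l) ≤
        ∑ v ∈ V, Real.log (Ideal.absNorm v.asIdeal : ℝ) + c

theorem engine2 (K : Type) [Field K] [NumberField K] (κ : ℝ) (hκ : 0 < κ) :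
    ∃ E : Set K, Psv E ∧ Eng2 K κ E := by
  obtain ⟨κ0, hκ0⟩ : ∃ κ0 : ℝ, κ0 = min (κ / 2) 1 := ⟨_, rfl⟩
  have hκ00 : 0 < κ0 := by rw [hκ0]; exact lt_min (by positivity) one_pos
  have hκ01 : κ0 ≤ 1 := by rw [hκ0]; exact min_le_right _ _
  have hκ02 : 2 * κ0 ≤ κ := by
    have : κ0 ≤ κ / 2 := by rw [hκ0]; exact min_le_left _ _
    linarith
  obtain ⟨E, hps, hE⟩ := Pool.Agent.N753.SF.exists_F1 K hκ00 hκ01
  refine ⟨E, ⟨Pool.Agent.N753.SF.ex κ0 / 2, 2, by
    have := Pool.Agent.N753.SF.ex_pos hκ00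
    positivity, hps⟩, ?_⟩
  intro P hP4 hPsq g hg
  obtain ⟨f, r, hr, hf⟩ := Pool.Agent.N753.LS.clear_sq P
  have hr2 : r ^ 2 ≠ 0 := pow_ne_zero 2 hr
  have hnd : f.natDegree = 4 := by
    rw [← natDegree_map_eq_of_injective (FaithfulSMul.algebraMap_injective (𝓞 K) K) f, hf,
      natDegree_C_mul hr2, hP4]
  have hCB : IsUnit (C (r ^ 2) : K[X]) := isUnit_C.2 hr2.isUnit
  have hsq : Squarefree (f.map (algebraMap (𝓞 K) K)) := by
    rw [hf]
    have h1 : Associated P (C (r ^ 2) * P) := ⟨hCB.unit, by rw [IsUnit.unit_spec, mul_comm]⟩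
    exact h1.squarefree_iff.1 hPsq
  have hnice : Pool.Agent.N753.LS.Nice f := ⟨by rw [hnd]; norm_num, hsq⟩
  have hSf : Pool.Agent.N753.SF.Sf f :=
    ⟨hnice, (Pool.Agent.N753.SF.noLarge_four f hnice hnd.le).mono le_rfl (by norm_num)⟩
  obtain ⟨h0, hlow⟩ := hE f hSf g hg
  obtain ⟨Bad, hBad⟩ := Pool.Agent.N753.SF.exists_badS f hsq (by rw [hnd]; norm_num)
  have hlc : ∀ v ∉ Bad, f.leadingCoeff ∉ v.asIdeal := fun v hv => (hBad v hv).2.2
  have hf0 : f ≠ 0 := by
    rintro rfl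
    simp at hnd
  obtain ⟨c0, hc0, hs⟩ := Pool.Agent.N753.SF.sum_nu_le f hf0 Bad hlc
  obtain ⟨c1, hc1, hmob⟩ := Pool.Agent.N753.SF.mob_height g hg
  obtain ⟨b, hb⟩ : ∃ b : ℝ, b = ∑ v ∈ Bad, Real.log (Nv v) := ⟨_, rfl⟩
  have hb0 : 0 ≤ b := by
    rw [hb]
    exact Finset.sum_nonneg fun w _ => (log_Nv_pos w).le
  refine ⟨4 * (|h0| + c1) + c0 + 2 * b, ?_⟩
  intro l hl hgl
  have hyn : 0 ≤ logHeight₁ (Pool.Agent.N753.SF.mob g l) := zero_le_logHeight₁ _
  have habs := abs_nonneg h0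
  have hle := le_abs_self h0
  by_cases hl0 : h0 ≤ logHeight₁ l
  · obtain ⟨hfx, h1⟩ := hlow l hl hl0 hgl
    obtain ⟨y, hy⟩ : ∃ y : K, y = Pool.Agent.N753.SF.mob g l := ⟨_, rfl⟩
    rw [← hy] at hfx h1 hyn ⊢
    obtain ⟨T, hT⟩ : ∃ T : Finset (QE.Pr K), T = Pool.Agent.N753.SF.dv f y \ Bad := ⟨_, rfl⟩
    have hTm : ∀ v, v ∈ T ↔ v ∈ Pool.Agent.N753.SF.dv f y ∧ v ∉ Bad := by
      intro v
      rw [hT, Finset.mem_sdiff]
    have hnn : ∀ v : QE.Pr K, 0 ≤ Real.log (Nv v) := fun v => (log_Nv_pos v).le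
    have h3 : ∑ v ∈ Pool.Agent.N753.SF.dv f y, Real.log (Nv v) ≤
        ∑ v ∈ T, Real.log (Nv v) + b := by
      rw [hT, hb]
      have h4 := Finset.sum_inter_add_sum_sdiff (Pool.Agent.N753.SF.dv f y) Bad
        (fun v : QE.Pr K => Real.log (Nv v))
      have h5 : ∑ v ∈ Pool.Agent.N753.SF.dv f y ∩ Bad, Real.log (Nv v) ≤
          ∑ v ∈ Bad, Real.log (Nv v) :=
        Finset.sum_le_sum_of_subset_of_nonneg Finset.inter_subset_right
          fun v _ _ => (log_Nv_pos v).le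
      linarith
    have h4 : ∑ v ∈ T, (Pool.Agent.N753.SF.nu f v y : ℝ) * Real.log (Nv v) ≤
        4 * logHeight₁ y + c0 := by
      have h2 := hs y hfx
      rw [Pool.Agent.N753.LS.hr_aff, hnd] at h2
      rw [hT]
      exact_mod_cast h2
    have hnu1 : ∀ v ∈ T, 1 ≤ Pool.Agent.N753.SF.nu f v y := by
      intro v hv
      obtain ⟨hv1, hv2⟩ := (hTm v).1 hv
      exact (Pool.Agent.N753.SF.mem_dv_iff hfx (hlc v hv2)).1 hv1
    have h5 : ∑ v ∈ T.filter (fun v => Even (Pool.Agent.N753.SF.nu f v y)), Real.log (Nv v) ≤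
        ∑ v ∈ T, ((Pool.Agent.N753.SF.nu f v y : ℝ) - 1) * Real.log (Nv v) := by
      refine (Finset.sum_le_sum (g := fun v => ((Pool.Agent.N753.SF.nu f v y : ℝ) - 1) *
        Real.log (Nv v)) ?_).trans
        (Finset.sum_le_sum_of_subset_of_nonneg (Finset.filter_subset _ _) ?_)
      · intro v hv
        obtain ⟨hv1, hv2⟩ := Finset.mem_filter.1 hv
        have h3 := hnu1 v hv1
        have h4 : 2 ≤ Pool.Agent.N753.SF.nu f v y := by
          obtain ⟨r, hr⟩ := hv2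
          omega
        have h5 : (2 : ℝ) ≤ Pool.Agent.N753.SF.nu f v y := by exact_mod_cast h4
        have := log_Nv_pos v
        nlinarith
      · intro v hv _
        have h3 : (1 : ℝ) ≤ Pool.Agent.N753.SF.nu f v y := by exact_mod_cast hnu1 v hv
        have := log_Nv_pos v
        exact mul_nonneg (by linarith) this.le
    have h6 : ∑ v ∈ T, ((Pool.Agent.N753.SF.nu f v y : ℝ) - 1) * Real.log (Nv v) =
        ∑ v ∈ T, (Pool.Agent.N753.SF.nu f v y : ℝ) * Real.log (Nv v) -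
          ∑ v ∈ T, Real.log (Nv v) := by
      rw [← Finset.sum_sub_distrib]
      refine Finset.sum_congr rfl fun v _ => ?_
      ring
    have h7 := Finset.sum_filter_add_sum_filter_not T
      (fun v => Even (Pool.Agent.N753.SF.nu f v y)) (fun v => Real.log (Nv v))
    have haev : aeval y f = r ^ 2 * P.eval y := by
      rw [← aeval_map_algebraMap K, hf, map_mul, aeval_C, Algebra.algebraMap_self_apply,
        coe_aeval_eq_eval]
    refine ⟨T.filter fun v => ¬ Even (Pool.Agent.N753.SF.nu f v y), ?_, ?_⟩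
    · intro v hv
      obtain ⟨hv1, hv2⟩ := Finset.mem_filter.1 hv
      obtain ⟨hv3, hv4⟩ := (hTm v).1 hv1
      have h8 := Pool.Agent.N753.SF.od_of_odd (hlc v hv4) hfx
        ((Pool.Agent.N753.SF.mem_dv hfx).1 hv3).1 hv2
      rw [Pool.Agent.N753.LS.mem_od, haev, map_mul, map_pow] at h8
      intro h9
      apply h8
      obtain ⟨z, hz⟩ := h9
      exact ⟨v.valuation K r * z, by rw [hz, sq]; exact mul_mul_mul_comm _ _ _ _⟩
    · rw [hnd] at h1
      push_cast at h1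
      have h8 : ∑ v ∈ T.filter (fun v => ¬ Even (Pool.Agent.N753.SF.nu f v y)),
          Real.log (Ideal.absNorm v.asIdeal : ℝ) =
          ∑ v ∈ T.filter (fun v => ¬ Even (Pool.Agent.N753.SF.nu f v y)), Real.log (Nv v) := rfl
      rw [h8]
      have h9 : 2 * κ0 * logHeight₁ y ≤ κ * logHeight₁ y :=
        mul_le_mul_of_nonneg_right hκ02 hyn
      nlinarith
  · push Not at hl0
    refine ⟨∅, fun v hv => absurd hv (Finset.notMem_empty v), ?_⟩
    rw [Finset.sum_empty, zero_add]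
    have h1 := hmob l hgl
    have h2 : (4 - κ) * logHeight₁ (Pool.Agent.N753.SF.mob g l) ≤
        4 * logHeight₁ (Pool.Agent.N753.SF.mob g l) := mul_le_mul_of_nonneg_right (by linarith) hyn
    nlinarith

end Pool.Agent.U47.QF
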