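import Mathlib
import Pool.Agent.U47.QF.Eng2

/-!
# The discriminants of the fields of the quadratic points with given trace
-/

set_option autoImplicit false
set_option linter.unusedSectionVars false

open WeierstrassCurve NumberField IsDedekindDomain Height Polynomial Pool.Agent.TH942
open Pool.Agent.U47.QE
open Pool.Agent.N753.SF (mob dt mob_height)

namespace Pool.Agent.U47.QF

open scoped Classical

section cert

variable {R : Type*} [CommRing R]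

theorem certA (X s t a b : R) (h : t ^ 2 = s ^ 3 + a * s + b) :
    (9 * X ^ 2 * s ^ 3 + 3 * X ^ 2 * s * a - 9 * X ^ 2 * t ^ 2 + 6 * X * t * a - 36 * s ^ 4 -
      24 * s ^ 2 * a + 36 * s * t ^ 2 - 4 * a ^ 2) *
      (X ^ 4 - 6 * s * X ^ 2 - 8 * t * X - (3 * s ^ 2 + 4 * a)) +
    (-9 * X ^ 3 * s ^ 3 - 3 * X ^ 3 * s * a + 9 * X ^ 3 * t ^ 2 - 6 * X ^ 2 * t * a +
      63 * X * s ^ 4 + 33 * X * s ^ 2 * a - 63 * X * s * t ^ 2 + 4 * X * a ^ 2 + 54 * s ^ 3 * t +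
      36 * s * t * a - 54 * t ^ 3) * (X ^ 3 - 3 * s * X - 2 * t) =
    4 * (4 * a ^ 3 + 27 * b ^ 2) := by
  have hb : b = t ^ 2 - s ^ 3 - a * s := by rw [h]; ring
  rw [hb]
  ring

theorem certB (T c a b : R) :
    (-24 * T ^ 2 * c ^ 7 * a - 144 * T ^ 2 * c ^ 6 * b + 24 * T ^ 2 * c ^ 5 * a ^ 2 -
      120 * T ^ 2 * c ^ 4 * a * b + 24 * T ^ 2 * c ^ 3 * a ^ 3 - 288 * T ^ 2 * c ^ 3 * b ^ 2 +
      96 * T ^ 2 * c ^ 2 * a ^ 2 * b - 24 * T ^ 2 * c * a ^ 4 - 96 * T ^ 2 * c * a * b ^ 2 -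
      24 * T ^ 2 * a ^ 3 * b - 144 * T ^ 2 * b ^ 3 - 30 * T * c ^ 6 * a - 216 * T * c ^ 5 * b +
      90 * T * c ^ 4 * a ^ 2 + 120 * T * c ^ 3 * a * b - 42 * T * c ^ 2 * a ^ 3 -
      216 * T * c ^ 2 * b ^ 2 - 18 * T * a ^ 4 - 120 * T * a * b ^ 2 - 6 * c ^ 5 * a -
      45 * c ^ 4 * b + 20 * c ^ 3 * a ^ 2 + 30 * c ^ 2 * a * b - 46 * c * a ^ 3 -
      288 * c * b ^ 2 - a ^ 2 * b) *
      ((c ^ 3 + a * c + b) * T ^ 4 + (3 * c ^ 2 + a) * T ^ 3 + 3 * c * T ^ 2 + T) +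
    (6 * T ^ 3 * c ^ 7 * a + 36 * T ^ 3 * c ^ 6 * b - 6 * T ^ 3 * c ^ 5 * a ^ 2 +
      30 * T ^ 3 * c ^ 4 * a * b - 6 * T ^ 3 * c ^ 3 * a ^ 3 + 72 * T ^ 3 * c ^ 3 * b ^ 2 -
      24 * T ^ 3 * c ^ 2 * a ^ 2 * b + 6 * T ^ 3 * c * a ^ 4 + 24 * T ^ 3 * c * a * b ^ 2 +
      6 * T ^ 3 * a ^ 3 * b + 36 * T ^ 3 * b ^ 3 + 12 * T ^ 2 * c ^ 6 * a + 81 * T ^ 2 * c ^ 5 * b -
      30 * T ^ 2 * c ^ 4 * a ^ 2 - 30 * T ^ 2 * c ^ 3 * a * b + 12 * T ^ 2 * c ^ 2 * a ^ 3 +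
      81 * T ^ 2 * c ^ 2 * b ^ 2 - 3 * T ^ 2 * c * a ^ 2 * b + 6 * T ^ 2 * a ^ 4 +
      39 * T ^ 2 * a * b ^ 2 + 6 * T * c ^ 5 * a + 45 * T * c ^ 4 * b - 20 * T * c ^ 3 * a ^ 2 -
      30 * T * c ^ 2 * a * b + 22 * T * c * a ^ 3 + 126 * T * c * b ^ 2 + T * a ^ 2 * b +
      4 * a ^ 3 + 27 * b ^ 2) *
      (4 * (c ^ 3 + a * c + b) * T ^ 3 + 3 * (3 * c ^ 2 + a) * T ^ 2 + 6 * c * T + 1) =
    4 * a ^ 3 + 27 * b ^ 2 := by
  ring

end cert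

section poly

variable {K : Type} [Field K] [CharZero K]

/-- the discriminant as a function of the parameter -/
noncomputable def PA (s t a : K) : K[X] :=
  X ^ 4 - 6 * C s * X ^ 2 - 8 * C t * X - (3 * C s ^ 2 + 4 * C a)

/-- the cubic polynomial in the coordinate `1 / (x - c)` -/
noncomputable def PB (c a b : K) : K[X] :=
  (C c ^ 3 + C a * C c + C b) * X ^ 4 + (3 * C c ^ 2 + C a) * X ^ 3 + 3 * C c * X ^ 2 + X

theorem PA_deg (s t a : K) : (PA s t a).natDegree = 4 := by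
  unfold PA
  have e : X ^ 4 - 6 * C s * X ^ 2 - 8 * C t * X - (3 * C s ^ 2 + 4 * C a) =
      X ^ 4 - (C (6 * s) * X ^ 2 + C (8 * t) * X + C (3 * s ^ 2 + 4 * a)) := by
    simp only [map_mul, map_add, map_pow, map_ofNat]
    ring
  rw [e]
  compute_degree!

theorem PB_deg (c a b : K) (h : c ^ 3 + a * c + b ≠ 0) : (PB c a b).natDegree = 4 := by
  unfold PB
  have e : (C c ^ 3 + C a * C c + C b) * X ^ 4 + (3 * C c ^ 2 + C a) * X ^ 3 + 3 * C c * X ^ 2 +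
      X = C (c ^ 3 + a * c + b) * X ^ 4 + C (3 * c ^ 2 + a) * X ^ 3 + C (3 * c) * X ^ 2 + X := by
    simp only [map_mul, map_add, map_pow, map_ofNat]
  rw [e]
  compute_degree!

theorem sep_of {P A B : K[X]} {D : K} (hD : D ≠ 0) (h : A * P + B * derivative P = C D) :
    Squarefree P := by
  apply Separable.squarefree
  refine ⟨C D⁻¹ * A, C D⁻¹ * B, ?_⟩
  have : C D⁻¹ * A * P + C D⁻¹ * B * derivative P = C D⁻¹ * (A * P + B * derivative P) := by ring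
  rw [this, h, ← C_mul, inv_mul_cancel₀ hD, C_1]

theorem PA_sq {s t a b : K} (h : t ^ 2 = s ^ 3 + a * s + b)
    (hD : 4 * a ^ 3 + 27 * b ^ 2 ≠ 0) : Squarefree (PA s t a) := by
  have hC : (C t : K[X]) ^ 2 = C s ^ 3 + C a * C s + C b := by
    rw [← C_pow, h]
    simp only [map_mul, map_add, map_pow]
  have h1 := certA (X : K[X]) (C s) (C t) (C a) (C b) hC
  have hd : derivative (PA s t a) = 4 * (X ^ 3 - 3 * C s * X - 2 * C t) := by
    unfold PA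
    have e : X ^ 4 - 6 * C s * X ^ 2 - 8 * C t * X - (3 * C s ^ 2 + 4 * C a) =
      X ^ 4 - (C (6 * s) * X ^ 2 + C (8 * t) * X + C (3 * s ^ 2 + 4 * a)) := by
      simp only [map_mul, map_add, map_pow, map_ofNat]
      ring
    rw [e]
    simp only [derivative_sub, derivative_add, derivative_C_mul, derivative_X_pow, derivative_X,
      derivative_C]
    simp only [map_mul, map_add, map_pow, map_ofNat, Nat.cast_ofNat]
    ring
  have hD' : (16 : K) * (4 * a ^ 3 + 27 * b ^ 2) ≠ 0 := mul_ne_zero (by norm_num) hD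
  refine sep_of (A := 4 * (9 * X ^ 2 * C s ^ 3 + 3 * X ^ 2 * C s * C a - 9 * X ^ 2 * C t ^ 2 +
    6 * X * C t * C a - 36 * C s ^ 4 - 24 * C s ^ 2 * C a + 36 * C s * C t ^ 2 - 4 * C a ^ 2))
    (B := -9 * X ^ 3 * C s ^ 3 - 3 * X ^ 3 * C s * C a + 9 * X ^ 3 * C t ^ 2 -
      6 * X ^ 2 * C t * C a + 63 * X * C s ^ 4 + 33 * X * C s ^ 2 * C a - 63 * X * C s * C t ^ 2 +
      4 * X * C a ^ 2 + 54 * C s ^ 3 * C t + 36 * C s * C t * C a - 54 * C t ^ 3) hD' ?_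
  rw [hd]
  have e : (C (16 * (4 * a ^ 3 + 27 * b ^ 2)) : K[X]) =
      4 * (4 * (4 * C a ^ 3 + 27 * C b ^ 2)) := by
    simp only [map_mul, map_add, map_pow, map_ofNat]
    ring
  rw [e, ← h1]
  unfold PA
  ring

theorem PB_sq {a b : K} (c : K) (hD : 4 * a ^ 3 + 27 * b ^ 2 ≠ 0) : Squarefree (PB c a b) := by
  have hd : derivative (PB c a b) = 4 * (C c ^ 3 + C a * C c + C b) * X ^ 3 +
      3 * (3 * C c ^ 2 + C a) * X ^ 2 + 6 * C c * X + 1 := by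
    unfold PB
    have e : (C c ^ 3 + C a * C c + C b) * X ^ 4 + (3 * C c ^ 2 + C a) * X ^ 3 +
      3 * C c * X ^ 2 + X = C (c ^ 3 + a * c + b) * X ^ 4 + C (3 * c ^ 2 + a) * X ^ 3 +
        C (3 * c) * X ^ 2 + X := by
      simp only [map_mul, map_add, map_pow, map_ofNat]
    rw [e]
    simp only [derivative_add, derivative_C_mul, derivative_X_pow, derivative_X]
    simp only [map_mul, map_add, map_pow, map_ofNat, Nat.cast_ofNat]
    ring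
  have h1 := certB (X : K[X]) (C c) (C a) (C b)
  have e : (C (4 * a ^ 3 + 27 * b ^ 2) : K[X]) = 4 * C a ^ 3 + 27 * C b ^ 2 := by
    simp only [map_mul, map_add, map_pow, map_ofNat]
  rw [← e, ← hd] at h1
  exact sep_of (P := PB c a b) hD h1

end poly

end Pool.Agent.U47.QF
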