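import Mathlib
import Pool.Agent.U47.QF.Disc

/-!
# The discriminants of the fields of the quadratic points with given trace
-/

set_option autoImplicit false
set_option linter.unusedSectionVars false

open WeierstrassCurve NumberField IsDedekindDomain Height Polynomial Pool.Agent.TH942
open Pool.Agent.U47.QE
open Pool.Agent.N753.SF (mob dt mob_height)

namespace Pool.Agent.U47.QF

open scoped Classical

variable {K : Type} [Field K] [NumberField K]

theorem sq_div {Γ : Type} [CommGroupWithZero Γ] {x u : Γ} (hx : IsSquare x) : IsSquare (x / u ^ 4) := by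
  obtain ⟨z, rfl⟩ := hx
  refine ⟨z / u ^ 2, ?_⟩
  rw [div_mul_div_comm, ← pow_add]

/-- **the discriminants of the fields of the quadratic points with given trace** -/
theorem disc_fixed {κ : ℝ} (hκ0 : 0 < κ) (hκ1 : κ ≤ 1) {E : Set K} (hE : Eng2 K κ E) (a b : 𝓞 K)
    (hab : 4 * (a : K) ^ 3 + 27 * (b : K) ^ 2 ≠ 0) (s : EP (a : K) (b : K) K) :
    ∃ (c : ℝ) (Z : Set K), 0 ≤ c ∧ Z.Finite ∧
      ∀ (L : Type) [Field L] [NumberField L] [Algebra K L]
      (σ : L ≃ₐ[K] L) (x y : L)
      (h : (sw (algebraMap K L (a : K)) (algebraMap K L (b : K))).toAffine.Nonsingular x y) (l : K),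
      Cj σ → Par s σ (Affine.Point.some x y h : EP (a : K) (b : K) L) l →
      l ∉ E → l ∉ Z → (4 - κ) * logHeight₁ l ≤ Real.log |(discr L : ℝ)| + c := by
  match s with
  | 0 =>
    -- a point which is not a zero
    obtain ⟨c0, hc0⟩ : ∃ c0 : K, c0 ^ 3 + (a : K) * c0 + b ≠ 0 := by
      by_contra hcon
      push Not at hcon
      have h1 : (X ^ 3 + C (a : K) * X + C (b : K) : K[X]) = 0 := by
        apply Polynomial.funext
        intro z
        simpa using hcon z
      have h2 : (X ^ 3 + C (a : K) * X + C (b : K) : K[X]).natDegree = 3 := by compute_degree!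
      rw [h1, natDegree_zero] at h2
      omega
    have hg : dt ![(0 : K), 1, 1, -c0] ≠ 0 := by
      unfold dt
      simp
    obtain ⟨c, hc⟩ := hE (PB c0 (a : K) (b : K)) (PB_deg _ _ _ hc0) (PB_sq c0 hab) _ hg
    have hg' : dt ![c0, (1 : K), 1, 0] ≠ 0 := by
      unfold dt
      simp
    obtain ⟨c1, hc1, hm⟩ := mob_height ![c0, (1 : K), 1, 0] hg'
    refine ⟨|c| + 4 * c1, {c0}, by positivity, Set.finite_singleton c0, ?_⟩
    intro L _ _ _ σ x y h l hσ hp hlE hlZ
    have hl0 : l - c0 ≠ 0 := sub_ne_zero.2 fun e => hlZ (by rw [e]; rfl)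
    rcases rel_of_par hp (AlgHom.id K L) with ⟨-, hx, -, -, hy⟩ | ⟨xs, ys, hs, he, -⟩
    · simp only [AlgHom.coe_id, id_eq] at hx hy
      rw [hx] at hy
      obtain ⟨V, hV1, hV2⟩ := hc l hlE (by
        simp only [Matrix.cons_val]
        rw [one_mul, ← sub_eq_add_neg]
        exact hl0)
      have hmob : mob ![(0 : K), 1, 1, -c0] l = (l - c0)⁻¹ := by
        unfold mob
        simp only [Matrix.cons_val]
        rw [zero_mul, zero_add, one_mul, ← sub_eq_add_neg, one_div]
      have heval : (PB c0 (a : K) (b : K)).eval (l - c0)⁻¹ =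
          (l ^ 3 + (a : K) * l + b) / (l - c0) ^ 4 := by
        unfold PB
        simp only [eval_add, eval_mul, eval_pow, eval_C, eval_X, eval_ofNat]
        field_simp
        ring
      rw [hmob] at hV1 hV2
      rw [heval] at hV1
      have h1 := disc_quad (F := K) (M := L) hσ.deg (δ := y) (d := l ^ 3 + (a : K) * l + b) (by
        rw [hy]
        simp only [map_add, map_mul, map_pow]) V (by
        intro v hv hsq
        apply hV1 v hv
        rw [map_div₀, map_pow]
        exact sq_div hsq)
      have h2 := hm (l - c0)⁻¹ (by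
        simp only [Matrix.cons_val]
        rw [one_mul, add_zero]
        exact inv_ne_zero hl0)
      have h3 : mob ![c0, (1 : K), 1, 0] (l - c0)⁻¹ = l := by
        unfold mob
        simp only [Matrix.cons_val]
        field_simp
        ring
      rw [h3] at h2
      have h4 := le_abs_self c
      have h5 : (4 - κ) * logHeight₁ l ≤ (4 - κ) * (logHeight₁ (l - c0)⁻¹ + c1) :=
        mul_le_mul_of_nonneg_left h2 (by linarith)
      have h6 : (4 - κ) * c1 ≤ 4 * c1 := mul_le_mul_of_nonneg_right (by linarith) hc1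
      nlinarith
    · exact absurd he (by intro h; cases h)
  | .some xs ys hs =>
    have heq := eqL hs
    simp only [Algebra.algebraMap_self, RingHom.id_apply] at heq
    have hg : dt ![(1 : K), 0, 0, 1] ≠ 0 := by
      unfold dt
      simp
    obtain ⟨c, hc⟩ := hE (PA xs ys (a : K)) (PA_deg _ _ _) (PA_sq heq hab) _ hg
    refine ⟨|c|, ∅, abs_nonneg c, Set.finite_empty, ?_⟩
    intro L _ _ _ σ x y h l hσ hp hlE hlZ
    have hmob : mob ![(1 : K), 0, 0, 1] l = l := by
      unfold mob
      simp
    obtain ⟨V, hV1, hV2⟩ := hc l hlE (by simp)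
    rw [hmob] at hV1 hV2
    rcases rel_of_par hp (AlgHom.id K L) with ⟨h0, -⟩ | ⟨xs', ys', hs', he, e1, e2, -, -⟩
    · exact absurd h0 (by intro h; cases h)
    · rw [Affine.Point.some.injEq] at he
      obtain ⟨rfl, rfl⟩ := he
      simp only [AlgHom.coe_id, id_eq] at e1 e2
      have h1 := disc_quad (F := K) (M := L) hσ.deg (δ := x - σ x)
        (d := (PA xs ys (a : K)).eval l) (by
        have e3 : (x - σ x) ^ 2 = ((x - algebraMap K L xs) + (σ x - algebraMap K L xs)) ^ 2 -
          4 * ((x - algebraMap K L xs) * (σ x - algebraMap K L xs)) := by ring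
        rw [e3, e1, e2]
        unfold PA
        simp only [eval_add, eval_sub, eval_mul, eval_pow, eval_C, eval_X, eval_ofNat, map_add,
          map_sub, map_mul, map_pow, map_ofNat]
        ring) V hV1
      have h4 := le_abs_self c
      linarith

end Pool.Agent.U47.QF
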