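import Mathlib
import Pool.Agent.U47.QE.Asm

/-!
# The primes near a divisor, over the compositum with the field of the divisor
-/

set_option autoImplicit false
set_option linter.unusedSectionVars false

open WeierstrassCurve Height NumberField IsDedekindDomain Pool.Agent.TH942 Polynomial
open Pool.Agent.U47.QE

namespace Pool.Agent.U47.QF

open scoped Classical

theorem exists_tau {K k L M : Type} [Field K] [NumberField K] [Field k] [NumberField k]
    [Algebra K k] [Field L] [NumberField L] [Algebra K L] [Field M] [NumberField M]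
    [Algebra k M] [Algebra L M] [Algebra K M] [IsScalarTower K k M] [IsScalarTower K L M]
    {σ : L ≃ₐ[K] L} (hσ : Cj σ) (hfr : Module.finrank k M = 2)
    (hne : IsEmpty (L →ₐ[K] k)) :
    ∃ τ : M ≃ₐ[k] M, ∀ z : L, τ (algebraMap L M z) = algebraMap L M (σ z) := by
  have hfd : FiniteDimensional K L := Module.finite_of_finrank_pos (by rw [hσ.deg]; norm_num)
  have h2L : (2 : L) ≠ 0 := two_ne_zero
  -- a generator
  obtain ⟨z0, hz0⟩ : ∃ z0, σ z0 ≠ z0 := by
    by_contra hcon
    push Not at hcon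
    have h1 : (⊤ : Submodule K L) = Submodule.span K {1} := by
      apply le_antisymm
      · intro z _
        obtain ⟨c, hc⟩ := (hσ.fix z).1 (hcon z)
        rw [Submodule.mem_span_singleton]
        exact ⟨c, by rw [Algebra.smul_def, mul_one, hc]⟩
      · exact le_top
    have h2 := finrank_span_singleton (K := K) (v := (1 : L)) one_ne_zero
    rw [← h1, finrank_top, hσ.deg] at h2
    norm_num at h2
  obtain ⟨θ, hθ⟩ : ∃ θ, θ = z0 - σ z0 := ⟨_, rfl⟩
  have hσθ : σ θ = -θ := by rw [hθ, map_sub, hσ.inv]; ring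
  have hθ0 : θ ≠ 0 := by
    rw [hθ]
    exact sub_ne_zero.2 fun h => hz0 h.symm
  obtain ⟨δ, hδ⟩ : θ ^ 2 ∈ Set.range (algebraMap K L) := by
    rw [← hσ.fix, map_pow, hσθ, neg_sq]
  have hθK : θ ∉ Set.range (algebraMap K L) := by
    rw [← hσ.fix, hσθ]
    intro h
    apply hθ0
    have h3 : 2 * θ = 0 := by linear_combination -h
    exact (mul_eq_zero.1 h3).resolve_left h2L
  have hdec : ∀ z : L, ∃ c d : K, z = algebraMap K L c + algebraMap K L d * θ := by
    intro z
    obtain ⟨c, hc⟩ : (z + σ z) / 2 ∈ Set.range (algebraMap K L) := by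
      rw [← hσ.fix, map_div₀, map_add, hσ.inv, map_ofNat, add_comm]
    obtain ⟨d, hd⟩ : (z - σ z) / (2 * θ) ∈ Set.range (algebraMap K L) := by
      rw [← hσ.fix, map_div₀, map_sub, hσ.inv, map_mul, map_ofNat, hσθ, ← neg_sub z, mul_neg,
        neg_div_neg_eq]
    refine ⟨c, d, ?_⟩
    rw [hc, hd]
    field_simp
    ring
  -- the minimal polynomial
  have hpm : (X ^ 2 - C δ : K[X]).Monic := monic_X_pow_sub_C δ (by norm_num)
  have hpd : (X ^ 2 - C δ : K[X]).natDegree = 2 := natDegree_X_pow_sub_C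
  have hpθ : aeval θ (X ^ 2 - C δ : K[X]) = 0 := by
    rw [map_sub, map_pow, aeval_X, aeval_C, hδ, sub_self]
  have hint : IsIntegral K θ := IsIntegral.of_finite K θ
  have hmin : minpoly K θ = X ^ 2 - C δ := by
    have h1 : 2 ≤ (minpoly K θ).natDegree := by
      rw [minpoly.two_le_natDegree_iff hint]
      exact hθK
    have h2 : minpoly K θ ∣ X ^ 2 - C δ := minpoly.dvd K θ hpθ
    exact (eq_of_monic_of_dvd_of_natDegree_le (minpoly.monic hint) hpm h2
      (by rw [hpd]; exact h1)).symm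
  have hdeg : (minpoly K θ).natDegree = Module.finrank K L := by rw [hmin, hpd, hσ.deg]
  have hirr : Irreducible (X ^ 2 - C δ : K[X]) := by
    rw [← hmin]
    exact minpoly.irreducible hint
  have hminroot : ∀ {F : Type} [Field F] [Algebra K F] (s : F), s ^ 2 = algebraMap K F δ →
      minpoly K s = X ^ 2 - C δ := by
    intro F _ _ s hs
    refine (minpoly.eq_of_irreducible_of_monic hirr ?_ hpm).symm
    rw [map_sub, map_pow, aeval_X, aeval_C, hs, sub_self]
  -- it has no root in `k`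
  have hnk : ∀ c : k, c ^ 2 ≠ algebraMap K k δ := by
    intro c hc
    obtain ⟨φ, -⟩ := Pool.Agent.N572.DR.Inv.exists_hom θ c hdeg (by rw [hmin, hminroot c hc])
    exact hne.false φ
  obtain ⟨τ, hτ⟩ := exists_conj (K := k) (L := M) hfr
  have hs : (algebraMap L M θ) ^ 2 = algebraMap K M δ := by
    rw [← map_pow, ← hδ, ← IsScalarTower.algebraMap_apply K L M]
  have hτs : τ (algebraMap L M θ) = -algebraMap L M θ := by
    have h1 : (τ (algebraMap L M θ)) ^ 2 = (algebraMap L M θ) ^ 2 := by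
      rw [← map_pow, hs, IsScalarTower.algebraMap_apply K k M, τ.commutes]
    rcases sq_eq_sq_iff_eq_or_eq_neg.1 h1 with h2 | h2
    · exfalso
      obtain ⟨c, hc⟩ := (hτ.fix _).1 h2
      apply hnk c
      apply (algebraMap k M).injective
      rw [map_pow, hc, hs, IsScalarTower.algebraMap_apply K k M]
    · exact h2
  refine ⟨τ, fun z => ?_⟩
  obtain ⟨c, d, rfl⟩ := hdec z
  have hc : ∀ c : K, τ (algebraMap K M c) = algebraMap K M c := by
    intro c
    rw [IsScalarTower.algebraMap_apply K k M, τ.commutes]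
  have hKL : ∀ c : K, algebraMap L M (algebraMap K L c) = algebraMap K M c := fun c =>
    (IsScalarTower.algebraMap_apply K L M c).symm
  simp only [map_add, map_mul, AlgEquiv.commutes, hc, hσθ, map_neg, hτs, hKL]

variable {K : Type} [Field K] [NumberField K] {k : Type} [Field k] [NumberField k] [Algebra K k]

/-- **the inequality for the quadratic points with given trace, over the compositum** -/
theorem fixed2 {κ : ℝ} {E : Set K} (hE : Eng K κ E) (a b : 𝓞 K)
    (s : EP (a : K) (b : K) K) (D : Finset (Option (k × k)))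
    (hD : ∀ R ∈ D, OnE (algebraMap K k a) (algebraMap K k b) R)
    (hdeg : ∀ u t, some (u, t) ∈ D → ∀ z ∈ IntermediateField.adjoin K {u, t},
      (minpoly K z).natDegree ≤ 5) :
    ∃ (c : ℝ) (Z : Set K), 0 ≤ c ∧ Z.Finite ∧
      ∀ (L : Type) [Field L] [NumberField L] [Algebra K L]
      (σ : L ≃ₐ[K] L) (x y : L)
      (h : (sw (algebraMap K L (a : K)) (algebraMap K L (b : K))).toAffine.Nonsingular x y) (l : K),
      Cj σ → Par s σ (Affine.Point.some x y h : EP (a : K) (b : K) L) l → IsEmpty (L →ₐ[K] k) →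
      l ∉ E → l ∉ Z → ∀ (M : Type) [Field M] [NumberField M] [Algebra k M] [Algebra L M]
        [Algebra K M] [IsScalarTower K k M] [IsScalarTower K L M], Module.finrank k M = 2 →
        ∃ W : Finset (Pr M),
        (∀ w ∈ W, ∃ R ∈ D, Cl (w.valuation M) (algebraMap L M x) (algebraMap L M y)
          (mpO (algebraMap k M) R)) ∧
        (Module.finrank K k : ℝ) * ((D.card : ℝ) * ((1 - κ) * logHeight₁ l)) ≤
          ∑ w ∈ W, Real.log (Ideal.absNorm w.asIdeal : ℝ) + c := by
  have hsep : ∀ R R' : Option (k × k), ∃ B : Finset (Pr k), R ≠ R' → ∀ w, w ∉ B →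
    ∀ (M : Type) [Field M] [NumberField M] [Algebra k M] (w' : Pr M),
      w'.asIdeal.LiesOver w.asIdeal → ∀ x y : M,
        ¬ (Cl (w'.valuation M) x y (mpO (algebraMap k M) R) ∧
          Cl (w'.valuation M) x y (mpO (algebraMap k M) R')) := by
    intro R R'
    by_cases h : R = R'
    · exact ⟨∅, fun h' => absurd h h'⟩
    · obtain ⟨B, hB⟩ := sep h
      exact ⟨B, fun _ => hB⟩
  choose B0 hB0 using hsep
  obtain ⟨B, hBdef⟩ : ∃ B : Finset (Pr k), B = D.biUnion fun R => D.biUnion fun R' => B0 R R' :=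
    ⟨_, rfl⟩
  have hone : ∀ R : Option (k × k), ∃ (c : ℝ) (Z : Set K), R ∈ D → Z.Finite ∧
      ∀ l : K, l ∉ E → l ∉ Z → ∃ W : Finset (Pr k),
      (∀ w ∈ W, w ∉ B) ∧
      (∀ w ∈ W, ∀ (M : Type) [Field M] [NumberField M] [Algebra k M] [Algebra K M]
        [IsScalarTower K k M] (w' : Pr M), w'.asIdeal.LiesOver w.asIdeal →
        ∀ x x' y y' : M, RelM M s l x x' y y' →
          Cl (w'.valuation M) x y (mpO (algebraMap k M) R) ∨
          Cl (w'.valuation M) x' y' (mpO (algebraMap k M) R)) ∧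
      (Module.finrank K k : ℝ) * ((1 - κ) * logHeight₁ l) ≤
        ∑ w ∈ W, Real.log (Ideal.absNorm w.asIdeal : ℝ) + c := by
    intro R
    by_cases hR : R ∈ D
    · obtain ⟨c, Z, h⟩ := one hE a b s R (hD R hR) (fun u t hut => hdeg u t (hut ▸ hR)) B
      exact ⟨c, Z, fun _ => h⟩
    · exact ⟨0, ∅, fun h => absurd h hR⟩
  choose c Z hcZ using hone
  refine ⟨∑ R ∈ D, |c R|, ⋃ R ∈ D, Z R, Finset.sum_nonneg fun R _ => abs_nonneg _, ?_, ?_⟩
  · exact Set.Finite.biUnion D.finite_toSet fun R hR => (hcZ R hR).1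
  intro L _ _ _ σ x y h l hσ hpar hne hlE hlZ M _ _ _ _ _ _ _ hfr
  obtain ⟨τ, hτ⟩ := exists_tau (K := K) (k := k) (L := L) (M := M) hσ hfr hne
  let φ : L →ₐ[K] M := IsScalarTower.toAlgHom K L M
  have hφ : ∀ z, algebraMap L M z = φ z := fun z => rfl
  have hfdk : FiniteDimensional K k := FiniteDimensional.right ℚ K k
  have hfdL : FiniteDimensional K L := FiniteDimensional.right ℚ K L
  have hW : ∀ R : Option (k × k), ∃ W : Finset (Pr k), R ∈ D → (∀ w ∈ W, w ∉ B) ∧
      (∀ w ∈ W, ∃ w' : Pr M, w'.asIdeal.LiesOver w.asIdeal ∧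
        Cl (w'.valuation M) (φ x) (φ y) (mpO (algebraMap k M) R)) ∧
      (Module.finrank K k : ℝ) * ((1 - κ) * logHeight₁ l) ≤
        ∑ w ∈ W, Real.log (Ideal.absNorm w.asIdeal : ℝ) + c R := by
    intro R
    by_cases hR : R ∈ D
    · obtain ⟨W, h1, h2, h3⟩ := (hcZ R hR).2 l hlE (fun hl => hlZ (Set.mem_biUnion hR hl))
      refine ⟨W, fun _ => ⟨h1, fun w hw => ?_, h3⟩⟩
      obtain ⟨w0, hw0⟩ := exists_over M w
      rcases h2 w hw M w0 hw0 _ _ _ _ (rel_of_par hpar φ) with h4 | h4
      · exact ⟨w0, hw0, h4⟩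
      · obtain ⟨w1, hw1, hv⟩ := exists_aut τ w w0
        refine ⟨w1, hw1, ?_⟩
        rw [← hφ, ← hφ, ← hτ, ← hτ] at h4
        match R, h4 with
        | none, h4 =>
          have h5 : 1 < w0.valuation M (τ (φ x)) := h4
          change 1 < w1.valuation M (φ x)
          rw [one_lt_iff_inv] at h5 ⊢
          refine ⟨fun h0 => h5.1 (by rw [h0, map_zero]), ?_⟩
          rw [hv, map_inv₀]
          exact h5.2
        | some (u, t), h4 =>
          obtain ⟨h5, h6⟩ := h4
          constructor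
          · change w1.valuation M (φ x - algebraMap k M u) < 1
            rw [hv, map_sub, τ.commutes]
            exact h5
          · change w1.valuation M (φ y - algebraMap k M t) < 1
            rw [hv, map_sub, τ.commutes]
            exact h6
    · exact ⟨∅, fun h => absurd h hR⟩
  choose W hW using hW
  -- the main sum
  have hsum : (Module.finrank K k : ℝ) * ((D.card : ℝ) * ((1 - κ) * logHeight₁ l)) ≤
      ∑ q ∈ D.sigma W, Real.log (Ideal.absNorm q.2.asIdeal : ℝ) + ∑ R ∈ D, |c R| := by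
    rw [Finset.sum_sigma, ← Finset.sum_add_distrib]
    have h1 : (Module.finrank K k : ℝ) * ((D.card : ℝ) * ((1 - κ) * logHeight₁ l)) =
        ∑ R ∈ D, (Module.finrank K k : ℝ) * ((1 - κ) * logHeight₁ l) := by
      rw [Finset.sum_const, nsmul_eq_mul]
      ring
    rw [h1]
    refine Finset.sum_le_sum fun R hR => ((hW R hR).2.2).trans ?_
    have := le_abs_self (c R)
    linarith
  by_cases hemp : D.sigma W = ∅
  · refine ⟨∅, fun w hw => absurd hw (Finset.notMem_empty w), ?_⟩
    rw [hemp, Finset.sum_empty, zero_add] at hsum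
    rw [Finset.sum_empty, zero_add]
    exact hsum
  obtain ⟨q0, hq0⟩ := Finset.nonempty_iff_ne_empty.2 hemp
  have hinh : Nonempty (Pr M) := by
    obtain ⟨w0, -⟩ := exists_over M q0.2
    exact ⟨w0⟩
  have hg : ∀ q : (_ : Option (k × k)) × Pr k, ∃ w' : Pr M, q ∈ D.sigma W →
      w'.asIdeal.LiesOver q.2.asIdeal ∧
        Cl (w'.valuation M) (φ x) (φ y) (mpO (algebraMap k M) q.1) := by
    intro q
    by_cases hq : q ∈ D.sigma W
    · rw [Finset.mem_sigma] at hq
      obtain ⟨w', h1⟩ := (hW q.1 hq.1).2.1 q.2 hq.2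
      exact ⟨w', fun _ => h1⟩
    · exact ⟨hinh.some, fun h => absurd h hq⟩
  choose g hg using hg
  have hinj : Set.InjOn g (D.sigma W : Finset _) := by
    rintro ⟨R, w⟩ hq ⟨R', w'⟩ hq' he
    rw [Finset.mem_coe] at hq hq'
    obtain ⟨h1, h2⟩ := hg _ hq
    obtain ⟨h1', h2'⟩ := hg _ hq'
    rw [← he] at h1' h2'
    have e1 := h1.over
    have e2 := h1'.over
    have e3 : w = w' := HeightOneSpectrum.ext (e1.trans e2.symm)
    subst e3
    rw [Finset.mem_sigma] at hq hq'
    by_cases hR : R = R'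
    · rw [hR]
    · exfalso
      have hwB := (hW R hq.1).1 w hq.2
      refine hB0 R R' hR w (fun hmem => hwB ?_) M (g ⟨R, w⟩) h1 (φ x) (φ y) ⟨h2, h2'⟩
      rw [hBdef, Finset.mem_biUnion]
      refine ⟨R, hq.1, ?_⟩
      rw [Finset.mem_biUnion]
      exact ⟨R', hq'.1, hmem⟩
  have hs1 : ∑ q ∈ D.sigma W, Real.log (Ideal.absNorm q.2.asIdeal : ℝ) ≤
      ∑ w' ∈ (D.sigma W).image g, Real.log (Ideal.absNorm w'.asIdeal : ℝ) := by
    rw [Finset.sum_image hinj]
    refine Finset.sum_le_sum fun q hq => ?_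
    have := (hg q hq).1
    exact norm_above q.2 (g q)
  refine ⟨(D.sigma W).image g, ?_, by linarith⟩
  intro w' hw'
  rw [Finset.mem_image] at hw'
  obtain ⟨q, hq, rfl⟩ := hw'
  exact ⟨q.1, (Finset.mem_sigma.1 hq).1, (hg q hq).2⟩

end Pool.Agent.U47.QF
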