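import Mathlib
import Pool.Agent.U47.QF.Fix2
import Pool.Agent.U47.QF.Disc2

/-!
# One exceptional set for all number fields and divisors
-/

set_option autoImplicit false
set_option linter.unusedSectionVars false

open WeierstrassCurve Height NumberField IsDedekindDomain Pool.Agent.TH942 Polynomial
open Pool.Agent.U47.QE

namespace Pool.Agent.U47.QF

open scoped Classical

variable {K : Type} [Field K] [NumberField K]

/-- the discriminant and the primes near the divisor `D` over the compositum with `k` -/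
def Gd (k : Type) [Field k] [NumberField k] [Algebra K k] (D : Finset (Option (k × k)))
    (ε : ℝ) : Prd K := fun L _ _ _ x y =>
  (2 - ε) * logHeight₁ x ≤ Real.log |(discr L : ℝ)| ∧ IsEmpty (L →ₐ[K] k) ∧
  ∀ (M : Type) [Field M] [NumberField M] [Algebra k M] [Algebra L M]
    [Algebra K M] [IsScalarTower K k M] [IsScalarTower K L M], Module.finrank k M = 2 →
    ∃ W : Finset (Pr M),
      (∀ w ∈ W, ∃ R ∈ D, Cl (w.valuation M) (algebraMap L M x) (algebraMap L M y)
        (mpO (algebraMap k M) R)) ∧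
      (Module.finrank K k : ℝ) * (((D.card : ℝ) / 2 - ε) * logHeight₁ x) ≤
        ∑ w ∈ W, Real.log (Ideal.absNorm w.asIdeal : ℝ)

theorem gd_oneTr (a b : 𝓞 K) (hab : 4 * (a : K) ^ 3 + 27 * (b : K) ^ 2 ≠ 0)
    (k : Type) [Field k] [NumberField k] [Algebra K k] (D : Finset (Option (k × k)))
    (hD : ∀ R ∈ D, OnE (algebraMap K k a) (algebraMap K k b) R)
    (hdeg : ∀ u t, some (u, t) ∈ D → ∀ z ∈ IntermediateField.adjoin K {u, t},
      (minpoly K z).natDegree ≤ 5) {ε : ℝ} (hε : 0 < ε) (s : EP (a : K) (b : K) K) :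
    OneTr (a : K) (b : K) s (Gd k D ε) := by
  obtain ⟨d, hd⟩ : ∃ d : ℝ, d = D.card := ⟨_, rfl⟩
  have hd0 : 0 ≤ d := by rw [hd]; exact Nat.cast_nonneg _
  obtain ⟨κ, hκ⟩ : ∃ κ : ℝ, κ = min 1 (ε / (d + 1)) := ⟨_, rfl⟩
  have hκ0 : 0 < κ := by
    rw [hκ]
    exact lt_min one_pos (by positivity)
  have hκ1 : κ ≤ 1 := by rw [hκ]; exact min_le_left _ _
  have hκ2 : (d + 1) * κ ≤ ε := by
    have h1 : κ ≤ ε / (d + 1) := by rw [hκ]; exact min_le_right _ _
    have h2 : (d + 1) * κ ≤ (d + 1) * (ε / (d + 1)) :=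
      mul_le_mul_of_nonneg_left h1 (by positivity)
    have h3 : (d + 1) * (ε / (d + 1)) = ε := by field_simp
    linarith
  obtain ⟨E1, hps1, hE1⟩ := engine K κ hκ0
  obtain ⟨E2, hps2, hE2⟩ := engine2 K κ hκ0
  obtain ⟨c1, Z1, hc1, hZ1, hfix⟩ := fixed2 hE1 a b s D hD hdeg
  obtain ⟨c2, Z2, hc2, hZ2, hdisc⟩ := disc_fixed hκ0 hκ1 hE2 a b hab s
  obtain ⟨Cs, hCs, hht⟩ := par_height s
  obtain ⟨dk, hdk⟩ : ∃ dk : ℝ, dk = Module.finrank K k := ⟨_, rfl⟩
  have hfdk : FiniteDimensional K k := FiniteDimensional.right ℚ K k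
  have hdk1 : 1 ≤ dk := by
    rw [hdk]
    have : 0 < Module.finrank K k := Module.finrank_pos
    exact_mod_cast this
  obtain ⟨A, hA⟩ : ∃ A : ℝ, A = c1 + c2 + (d + 2) * Cs := ⟨_, rfl⟩
  have hA0 : 0 ≤ A := by rw [hA]; positivity
  have hEf : Psv (E1 ∪ E2) := by
    obtain ⟨ν1, C1, hν1, h1⟩ := hps1
    obtain ⟨ν2, C2, hν2, h2⟩ := hps2
    refine ⟨min ν1 ν2, |C1| + |C2|, lt_min hν1 hν2, fun H hH => ?_⟩
    have e1 := h1 H hH
    have e2 := h2 H hH
    have e3 : (((E1 ∪ E2) ∩ {x | logHeight₁ x ≤ H}).ncard : ℝ) ≤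
        ((E1 ∩ {x | logHeight₁ x ≤ H}).ncard : ℝ) + ((E2 ∩ {x | logHeight₁ x ≤ H}).ncard : ℝ) := by
      rw [Set.union_inter_distrib_right]
      exact_mod_cast Set.ncard_union_le _ _
    have e4 : C1 * Real.exp ((2 - ν1) * H) ≤ |C1| * Real.exp ((2 - min ν1 ν2) * H) := by
      refine (mul_le_mul_of_nonneg_right (le_abs_self C1) (Real.exp_pos _).le).trans ?_
      refine mul_le_mul_of_nonneg_left (Real.exp_le_exp.2 ?_) (abs_nonneg _)
      exact mul_le_mul_of_nonneg_right (by linarith [min_le_left ν1 ν2]) hH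
    have e5 : C2 * Real.exp ((2 - ν2) * H) ≤ |C2| * Real.exp ((2 - min ν1 ν2) * H) := by
      refine (mul_le_mul_of_nonneg_right (le_abs_self C2) (Real.exp_pos _).le).trans ?_
      refine mul_le_mul_of_nonneg_left (Real.exp_le_exp.2 ?_) (abs_nonneg _)
      exact mul_le_mul_of_nonneg_right (by linarith [min_le_right ν1 ν2]) hH
    have e6 : (|C1| + |C2|) * Real.exp ((2 - min ν1 ν2) * H) =
        |C1| * Real.exp ((2 - min ν1 ν2) * H) + |C2| * Real.exp ((2 - min ν1 ν2) * H) := by ring
    rw [e6]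
    linarith
  refine ⟨k, ‹Field k›, ‹NumberField k›, ‹Algebra K k›, E1 ∪ E2, Z1 ∪ Z2, 2 / ε * A, hEf,
    hZ1.union hZ2, ?_⟩
  intro L _ _ _ σ x y h l hw hp hne hlE hlZ hH
  rw [Set.mem_union] at hlE hlZ
  push Not at hlE hlZ
  have h9 := hht L σ _ l hw.cj.deg hp
  rw [abs_le, QE.sht_some] at h9
  have hx0 := zero_le_logHeight₁ x
  have hA1 : A ≤ ε / 2 * logHeight₁ x := by
    have h15 : ε / 2 * (2 / ε * A) = A := by
      field_simp
    rw [← h15]
    exact mul_le_mul_of_nonneg_left hH.le (by positivity)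
  have hl9 : (logHeight₁ x - Cs) / 2 ≤ logHeight₁ l := by linarith [h9.1, h9.2]
  have hκx : (d + 1) * κ * logHeight₁ x ≤ ε * logHeight₁ x :=
    mul_le_mul_of_nonneg_right hκ2 hx0
  have hdκ : 0 ≤ d * κ * logHeight₁ x := by positivity
  have hκκ : 0 ≤ κ * logHeight₁ x := by positivity
  refine ⟨?_, hne, ?_⟩
  · have h1 := hdisc L σ x y h l hw.cj hp hlE.2 hlZ.2
    have h2 : (4 - κ) * ((logHeight₁ x - Cs) / 2) ≤ (4 - κ) * logHeight₁ l :=
      mul_le_mul_of_nonneg_left hl9 (by linarith)
    have h3 : 0 ≤ κ * Cs := by positivity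
    have h4 : 0 ≤ d * Cs := by positivity
    nlinarith
  · intro M _ _ _ _ _ _ _ hfr
    obtain ⟨W, hW1, hW2⟩ := hfix L σ x y h l hw.cj hp hne hlE.1 hlZ.1 M hfr
    refine ⟨W, hW1, ?_⟩
    rw [← hd, ← hdk] at hW2 ⊢
    have h2 : (1 - κ) * ((logHeight₁ x - Cs) / 2) ≤ (1 - κ) * logHeight₁ l :=
      mul_le_mul_of_nonneg_left hl9 (by linarith)
    have h3 : d * ((1 - κ) * ((logHeight₁ x - Cs) / 2)) ≤ d * ((1 - κ) * logHeight₁ l) :=
      mul_le_mul_of_nonneg_left h2 hd0
    have h4 : 0 ≤ κ * (d * Cs) := by positivity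
    have h5 : (d / 2 - ε) * logHeight₁ x + (c1 + c2) ≤ d * ((1 - κ) * logHeight₁ l) := by
      nlinarith
    have h6 := mul_le_mul_of_nonneg_left h5 (by linarith : (0 : ℝ) ≤ dk)
    have h7 : c1 ≤ dk * (c1 + c2) := by nlinarith
    nlinarith

instance nfAdjoin (θ : AlgebraicClosure K) : NumberField (IntermediateField.adjoin K {θ}) := by
  have hfd : FiniteDimensional K (IntermediateField.adjoin K {θ}) :=
    IntermediateField.adjoin.finiteDimensional
      ((AlgebraicClosure.isAlgebraic K).isAlgebraic θ).isIntegral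
  have hchar : CharZero (IntermediateField.adjoin K {θ}) :=
    charZero_of_injective_algebraMap (algebraMap K _).injective
  have hkf : FiniteDimensional ℚ (IntermediateField.adjoin K {θ}) := FiniteDimensional.trans ℚ K _
  exact { to_charZero := hchar, to_finiteDimensional := hkf }

/-- the conditions for the divisor -/
def DvK (a b : 𝓞 K) (k : Type) [Field k] [Algebra K k] (D : Finset (Option (k × k))) : Prop :=
  (∀ R ∈ D, OnE (algebraMap K k a) (algebraMap K k b) R) ∧
  ∀ u t, some (u, t) ∈ D → ∀ z ∈ IntermediateField.adjoin K {u, t}, (minpoly K z).natDegree ≤ 5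

theorem dvK_map {a b : 𝓞 K} {k k' : Type} [Field k] [NumberField k] [Algebra K k] [Field k']
    [NumberField k']
    [Algebra K k'] (e : k →ₐ[K] k') {D : Finset (Option (k × k))} (h : DvK a b k D)
    {D' : Finset (Option (k' × k'))} (hD' : ∀ R ∈ D', ∃ R' ∈ D, mpO e R' = R) :
    DvK a b k' D' := by
  constructor
  · intro R hR
    obtain ⟨R', hR', rfl⟩ := hD' R hR
    have h1 := h.1 R' hR'
    match R', h1 with
    | none, _ => trivial
    | some (u, t), h1 =>
      have h2 : t ^ 2 = u ^ 3 + algebraMap K k a * u + algebraMap K k b := h1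
      change (e t) ^ 2 = (e u) ^ 3 + algebraMap K k' a * (e u) + algebraMap K k' b
      rw [← map_pow, h2]
      simp only [map_add, map_mul, map_pow, AlgHom.commutes]
  · intro u t hut z hz
    obtain ⟨R', hR', he⟩ := hD' _ hut
    match R', hR', he with
    | some (u', t'), hR', he =>
      have h1 : e u' = u ∧ e t' = t := by
        have h2 : some (e u', e t') = some (u, t) := he
        rw [Option.some.injEq, Prod.mk.injEq] at h2
        exact h2
      rw [← h1.1, ← h1.2] at hz
      have h3 : (IntermediateField.adjoin K {u', t'}).map e =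
          IntermediateField.adjoin K {e u', e t'} := by
        rw [IntermediateField.adjoin_map, Set.image_pair]
      rw [← h3] at hz
      obtain ⟨z', hz', rfl⟩ := hz
      have h4 : minpoly K (e z') = minpoly K z' := minpoly.algHom_eq e e.injective z'
      change (minpoly K (e z')).natDegree ≤ 5
      rw [h4]
      exact h.2 u' t' hR' z' hz'

/-- **one exceptional set for all number fields and divisors** -/
theorem final2 (a b : 𝓞 K) (hab : 4 * (a : K) ^ 3 + 27 * (b : K) ^ 2 ≠ 0) :
    ∃ E : Set (EP (a : K) (b : K) (AlgebraicClosure K)), Ngl (QQ (a : K) (b : K)) E ∧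
      ∀ (k : Type) [Field k] [NumberField k] [Algebra K k] (D : Finset (Option (k × k))),
        DvK a b k D → ∀ ε : ℝ, 0 < ε →
        ∃ X : ℝ, ∀ (L : Type) [Field L] [NumberField L] [Algebra K L]
          (ι : L →ₐ[K] AlgebraicClosure K) (x y : L)
          (h : (sw (algebraMap K L (a : K)) (algebraMap K L (b : K))).toAffine.Nonsingular x y),
          Module.finrank K L = 2 →
          ¬ (x ∈ Set.range (algebraMap K L) ∧ y ∈ Set.range (algebraMap K L)) →
          mp (a : K) (b : K) ι (Affine.Point.some x y h) ∉ E → X < logHeight₁ x →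
          Gd (K := K) k D ε L x y := by
  have hctb := countable_omega K
  obtain ⟨f, hf⟩ := exists_surjective_nat
    (AlgebraicClosure K × Finset (Option (AlgebraicClosure K × AlgebraicClosure K)) × ℕ)
  have hval : ∀ θ : AlgebraicClosure K, Function.Injective
      (mpO (algebraMap (IntermediateField.adjoin K {θ}) (AlgebraicClosure K))) := fun θ =>
    Option.map_injective (Function.Injective.prodMap
      (algebraMap (IntermediateField.adjoin K {θ}) (AlgebraicClosure K)).injective
      (algebraMap (IntermediateField.adjoin K {θ}) (AlgebraicClosure K)).injective)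
  let DD : ∀ n, Finset (Option (IntermediateField.adjoin K {(f n).1} ×
      IntermediateField.adjoin K {(f n).1})) := fun n =>
    (f n).2.1.preimage (mpO (algebraMap (IntermediateField.adjoin K {(f n).1})
      (AlgebraicClosure K))) (hval _).injOn
  let G : ℕ → Prd K := fun n L _ _ _ x y =>
    DvK a b (IntermediateField.adjoin K {(f n).1}) (DD n) →
      Gd (K := K) (IntermediateField.adjoin K {(f n).1}) (DD n) (1 / (((f n).2.2 : ℝ) + 1)) L x y
  obtain ⟨E, hE1, hE2⟩ := final_gen a b hab G (by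
    intro n s
    by_cases hDv : DvK a b (IntermediateField.adjoin K {(f n).1}) (DD n)
    · obtain ⟨k, i1, i2, i3, E, Z, H, h1, h2, h3⟩ := gd_oneTr a b hab
        (IntermediateField.adjoin K {(f n).1}) (DD n) hDv.1 hDv.2
        (ε := 1 / (((f n).2.2 : ℝ) + 1)) (by positivity) s
      exact ⟨k, i1, i2, i3, E, Z, H, h1, h2, fun L _ _ _ σ x y h l g1 g2 g3 g4 g5 g6 _ =>
        h3 L σ x y h l g1 g2 g3 g4 g5 g6⟩
    · refine ⟨K, ‹Field K›, ‹NumberField K›, Algebra.id K, ∅, ∅, 0, ⟨1, 0, one_pos, fun H _ => ?_⟩, Set.finite_empty,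
        fun L _ _ _ σ x y h l _ _ _ _ _ _ hh => absurd hh hDv⟩
      rw [Set.empty_inter, Set.ncard_empty]
      simp)
  refine ⟨E, hE1, ?_⟩
  intro k _ _ _ D hDv ε hε
  have hfdk : FiniteDimensional K k := FiniteDimensional.right ℚ K k
  let j0 : k →ₐ[K] AlgebraicClosure K := IsAlgClosed.lift
  obtain ⟨α, hα⟩ := Field.exists_primitive_element K k
  obtain ⟨N, hN⟩ := exists_nat_one_div_lt hε
  obtain ⟨n, hn⟩ := hf (j0 α, D.image (mpO j0), N)
  obtain ⟨X, hX⟩ := hE2 n
  refine ⟨X, ?_⟩
  intro L _ _ _ ι x y h hd hrat hpE hxX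
  have h1 := hX L ι x y h hd hrat hpE hxX
  -- the isomorphism
  have hrange : ∀ z : k, j0 z ∈ IntermediateField.adjoin K {(f n).1} := by
    intro z
    rw [hn]
    have h2 : (IntermediateField.adjoin K {α}).map j0 = IntermediateField.adjoin K {j0 α} := by
      rw [IntermediateField.adjoin_map, Set.image_singleton]
    change j0 z ∈ IntermediateField.adjoin K {j0 α}
    rw [← h2, hα]
    exact ⟨z, trivial, rfl⟩
  let e' : k →ₐ[K] IntermediateField.adjoin K {(f n).1} :=
    j0.codRestrict (IntermediateField.adjoin K {(f n).1}).toSubalgebra hrange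
  have he' : ∀ z, algebraMap (IntermediateField.adjoin K {(f n).1}) (AlgebraicClosure K) (e' z) =
      j0 z := fun z => rfl
  have hsurj : Function.Surjective e' := by
    intro z
    have h2 : (IntermediateField.adjoin K {α}).map j0 = IntermediateField.adjoin K {j0 α} := by
      rw [IntermediateField.adjoin_map, Set.image_singleton]
    have h3 : (z : AlgebraicClosure K) ∈ IntermediateField.adjoin K {j0 α} := by
      have h4 := z.2
      have h5 : (f n).1 = j0 α := by rw [hn]
      rw [← h5]
      exact h4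
    rw [← h2] at h3
    obtain ⟨z', -, hz'⟩ := h3
    exact ⟨z', Subtype.ext hz'⟩
  let e : k ≃ₐ[K] IntermediateField.adjoin K {(f n).1} :=
    AlgEquiv.ofBijective e' ⟨e'.toRingHom.injective, hsurj⟩
  have hee : ∀ z, e z = e' z := fun z => rfl
  -- the divisor
  have hDD : DD n = D.image (mpO e) := by
    ext R
    have h2 : (f n).2.1 = D.image (mpO j0) := by rw [hn]
    have h4 : ∀ R' : Option (k × k), mpO (algebraMap (IntermediateField.adjoin K {(f n).1})
        (AlgebraicClosure K)) (mpO e R') = mpO j0 R' := by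
      intro R'
      match R' with
      | none => rfl
      | some _ => rfl
    simp only [DD]
    rw [Finset.mem_preimage, h2, Finset.mem_image, Finset.mem_image]
    constructor
    · rintro ⟨R', hR', he⟩
      refine ⟨R', hR', hval _ ?_⟩
      rw [h4, he]
    · rintro ⟨R', hR', rfl⟩
      exact ⟨R', hR', (h4 R').symm⟩
  have hDv' : DvK a b (IntermediateField.adjoin K {(f n).1}) (DD n) := by
    refine dvK_map (e : k →ₐ[K] IntermediateField.adjoin K {(f n).1}) hDv fun R hR => ?_
    rw [hDD, Finset.mem_image] at hR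
    exact hR
  obtain ⟨g1, g2, g3⟩ := h1 hDv'
  have hNε : 1 / (((f n).2.2 : ℝ) + 1) ≤ ε := by
    rw [hn]
    exact hN.le
  have hx0 := zero_le_logHeight₁ x
  refine ⟨?_, ⟨fun φ => g2.false ((e : k →ₐ[K] IntermediateField.adjoin K {(f n).1}).comp φ)⟩, ?_⟩
  · refine le_trans ?_ g1
    exact mul_le_mul_of_nonneg_right (by linarith) hx0
  · intro M _ _ _ _ _ _ _ hfr
    let _ : Algebra (IntermediateField.adjoin K {(f n).1}) M :=
      ((algebraMap k M).comp (e.symm : IntermediateField.adjoin K {(f n).1} →+* k)).toAlgebra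
    have halg : ∀ z : k, algebraMap (IntermediateField.adjoin K {(f n).1}) M (e z) =
        algebraMap k M z := by
      intro z
      change algebraMap k M (e.symm (e z)) = _
      rw [e.symm_apply_apply]
    have htow : IsScalarTower K (IntermediateField.adjoin K {(f n).1}) M := by
      refine IsScalarTower.of_algebraMap_eq fun z => ?_
      rw [← e.commutes z, halg, ← IsScalarTower.algebraMap_apply]
    have hfr' : Module.finrank (IntermediateField.adjoin K {(f n).1}) M = 2 := by
      rw [← hfr]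
      symm
      refine Algebra.finrank_eq_of_equiv_equiv (e : k ≃+* IntermediateField.adjoin K {(f n).1})
        (RingEquiv.refl M) ?_
      ext z
      exact halg z
    obtain ⟨W, hW1, hW2⟩ := g3 M hfr'
    refine ⟨W, fun w hw => ?_, ?_⟩
    · obtain ⟨R, hR, hcl⟩ := hW1 w hw
      rw [hDD, Finset.mem_image] at hR
      obtain ⟨R', hR', rfl⟩ := hR
      refine ⟨R', hR', ?_⟩
      match R', hcl with
      | none, hcl => exact hcl
      | some (u, t), hcl =>
        have hcl' : w.valuation M (algebraMap L M x -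
            algebraMap (IntermediateField.adjoin K {(f n).1}) M (e u)) < 1 ∧
          w.valuation M (algebraMap L M y -
            algebraMap (IntermediateField.adjoin K {(f n).1}) M (e t)) < 1 := hcl
        rw [halg, halg] at hcl'
        exact hcl'
    · refine le_trans ?_ hW2
      have h2 : Module.finrank K (IntermediateField.adjoin K {(f n).1}) = Module.finrank K k :=
        e.toLinearEquiv.finrank_eq.symm
      have h3 : (DD n).card = D.card := by
        rw [hDD]
        exact Finset.card_image_of_injective _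
          (Option.map_injective (Function.Injective.prodMap e.injective e.injective))
      rw [h2, h3]
      refine mul_le_mul_of_nonneg_left ?_ (Nat.cast_nonneg _)
      exact mul_le_mul_of_nonneg_right (by linarith) hx0

end Pool.Agent.U47.QF
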