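import Mathlib
import Pool.Agent.U47.QF.Data

/-!
# From points of the elliptic curve to points of the line
-/

set_option autoImplicit false
set_option linter.unusedSectionVars false

open Height NumberField IsDedekindDomain Polynomial
open Pool.Agent.U47.QE

namespace Pool.Agent.U47.QF

open scoped Classical

/-- the point `R` of the elliptic curve lies above the point `c` of the line with the coordinate
`(g 0 * x + g 1) / (g 2 * x + g 3)` -/
def Abv {F : Type} [Field F] (g : Fin 4 → F) (c : F) : Option (F × F) → Prop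
  | none => g 2 ≠ 0 ∧ c * g 2 = g 0
  | some q => g 2 * q.1 + g 3 ≠ 0 ∧ c * (g 2 * q.1 + g 3) = g 0 * q.1 + g 1

section near

variable {K : Type} [Field K] [NumberField K] {k : Type} [Field k] [NumberField k] [Algebra K k]

/-- the primes at which some of the given elements are not units -/
theorem unit_fin {z : k} (hz : z ≠ 0) : {w : Pr k | w.valuation k z ≠ 1}.Finite := by
  refine ((big_fin z).union (Pool.Agent.Y729.RV.val_fin hz)).subset fun w hw => ?_
  rcases lt_or_gt_of_ne hw with h | h
  · exact Or.inr h
  · exact Or.inl h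

theorem le_fin (z : k) : ∃ B : Finset (Pr k), ∀ w, w ∉ B → w.valuation k z ≤ 1 := by
  refine ⟨(big_fin z).toFinset, fun w hw => ?_⟩
  rw [Set.Finite.mem_toFinset] at hw
  exact not_lt.1 hw

theorem eq_fin {z : k} (hz : z ≠ 0) : ∃ B : Finset (Pr k), ∀ w, w ∉ B → w.valuation k z = 1 := by
  refine ⟨(unit_fin hz).toFinset, fun w hw => ?_⟩
  rw [Set.Finite.mem_toFinset] at hw
  by_contra h
  exact hw h

theorem val_eq_one' {F M : Type} [Field F] [NumberField F] [Field M] [NumberField M] [Algebra F M]
    (v : Pr F) (w : Pr M) [w.asIdeal.LiesOver v.asIdeal] {z : F} (h : v.valuation F z = 1) :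
    w.valuation M (algebraMap F M z) = 1 := by
  rw [← HeightOneSpectrum.valuation_liesOver M v w, h, one_pow]

theorem near_fin (g : Fin 4 → K) (α : k)
    (R : Option (k × k)) (hR : Abv (fun i => algebraMap K k (g i)) α R) :
    ∃ B : Finset (Pr k), ∀ w, w ∉ B → ∀ (M : Type) [Field M] [NumberField M] [Algebra k M]
      [Algebra K M] [IsScalarTower K k M] (w' : Pr M), w'.asIdeal.LiesOver w.asIdeal →
      ∀ x y t : M, Cl (w'.valuation M) x y (mpO (algebraMap k M) R) →
        algebraMap K M (g 2) * x + algebraMap K M (g 3) ≠ 0 →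
        t * (algebraMap K M (g 2) * x + algebraMap K M (g 3)) =
          algebraMap K M (g 0) * x + algebraMap K M (g 1) →
        w'.valuation M t ≤ 1 ∧ w'.valuation M (t - algebraMap k M α) < 1 := by
  obtain ⟨B0, hB0⟩ := le_fin (algebraMap K k (g 0))
  obtain ⟨B1, hB1⟩ := le_fin (algebraMap K k (g 1))
  obtain ⟨B2, hB2⟩ := le_fin (algebraMap K k (g 2))
  obtain ⟨B3, hB3⟩ := le_fin (algebraMap K k (g 3))
  obtain ⟨B4, hB4⟩ := le_fin α
  obtain ⟨B5, hB5⟩ := le_fin (algebraMap K k (g 0 * g 3 - g 1 * g 2))
  have hsum : ∀ {Γ : Type} [LinearOrderedCommGroupWithZero Γ] {M : Type} [Field M]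
      (v : Valuation M Γ) (t c : M), v (t - c) < 1 → v c ≤ 1 → v t ≤ 1 := by
    intro Γ _ M _ v t c h1 h2
    have e : t = (t - c) + c := by ring
    rw [e]
    exact v_add_le _ h1.le h2
  match R, hR with
  | none, hR =>
    obtain ⟨hg2, hα⟩ := hR
    obtain ⟨B6, hB6⟩ := eq_fin hg2
    refine ⟨B0 ∪ B1 ∪ B2 ∪ B3 ∪ B4 ∪ B5 ∪ B6, fun w hw M _ _ _ _ _ w' hw' x y t hcl hne ht => ?_⟩
    simp only [Finset.mem_union, not_or] at hw
    obtain ⟨⟨⟨⟨⟨⟨b0, b1⟩, b2⟩, b3⟩, b4⟩, b5⟩, b6⟩ := hw
    have htow : ∀ z : K, algebraMap K M z = algebraMap k M (algebraMap K k z) :=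
      IsScalarTower.algebraMap_apply K k M
    have hx : 1 < w'.valuation M x := hcl
    have v2 : w'.valuation M (algebraMap K M (g 2)) = 1 := by
      rw [htow]; exact val_eq_one' w w' (hB6 w b6)
    have v3 : w'.valuation M (algebraMap K M (g 3)) ≤ 1 := by
      rw [htow, val_le_iff' w w']; exact hB3 w b3
    have v5 : w'.valuation M (algebraMap K M (g 0 * g 3 - g 1 * g 2)) ≤ 1 := by
      rw [htow, val_le_iff' w w']; exact hB5 w b5
    have vα : w'.valuation M (algebraMap k M α) ≤ 1 := by
      rw [val_le_iff' w w']; exact hB4 w b4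
    have hα' := congrArg (algebraMap k M) hα
    rw [map_mul, ← htow, ← htow] at hα'
    have hden : w'.valuation M (algebraMap K M (g 2) * x + algebraMap K M (g 3)) =
        w'.valuation M x := by
      have h1 : w'.valuation M (algebraMap K M (g 2) * x) = w'.valuation M x := by
        rw [map_mul, v2, one_mul]
      rw [← h1]
      refine Valuation.map_add_eq_of_lt_left _ ?_
      rw [h1]
      exact v3.trans_lt hx
    have hkey : (t - algebraMap k M α) * (algebraMap K M (g 2) *
        (algebraMap K M (g 2) * x + algebraMap K M (g 3))) =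
          - algebraMap K M (g 0 * g 3 - g 1 * g 2) := by
      simp only [map_sub, map_mul]
      linear_combination (algebraMap K M (g 2)) * ht -
        (algebraMap K M (g 2) * x + algebraMap K M (g 3)) * hα'
    have hv := congrArg (w'.valuation M) hkey
    rw [map_mul, map_mul, v2, one_mul, hden, Valuation.map_neg] at hv
    have hlt : w'.valuation M (t - algebraMap k M α) < 1 := by
      by_contra hcon
      push Not at hcon
      have h1 : 1 < w'.valuation M (t - algebraMap k M α) * w'.valuation M x := by
        calc (1 : _) < w'.valuation M x := hx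
          _ = 1 * w'.valuation M x := (one_mul _).symm
          _ ≤ _ := mul_le_mul_left hcon _
      rw [hv] at h1
      exact absurd v5 (not_le.2 h1)
    exact ⟨hsum _ _ _ hlt vα, hlt⟩
  | some (u, t0), hR =>
    obtain ⟨hG, hα⟩ := hR
    obtain ⟨B6, hB6⟩ := eq_fin hG
    refine ⟨B0 ∪ B1 ∪ B2 ∪ B3 ∪ B4 ∪ B5 ∪ B6, fun w hw M _ _ _ _ _ w' hw' x y t hcl hne ht => ?_⟩
    simp only [Finset.mem_union, not_or] at hw
    obtain ⟨⟨⟨⟨⟨⟨b0, b1⟩, b2⟩, b3⟩, b4⟩, b5⟩, b6⟩ := hw
    have htow : ∀ z : K, algebraMap K M z = algebraMap k M (algebraMap K k z) :=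
      IsScalarTower.algebraMap_apply K k M
    have hx : w'.valuation M (x - algebraMap k M u) < 1 := hcl.1
    have v2 : w'.valuation M (algebraMap K M (g 2)) ≤ 1 := by
      rw [htow, val_le_iff' w w']; exact hB2 w b2
    have v5 : w'.valuation M (algebraMap K M (g 0 * g 3 - g 1 * g 2)) ≤ 1 := by
      rw [htow, val_le_iff' w w']; exact hB5 w b5
    have vα : w'.valuation M (algebraMap k M α) ≤ 1 := by
      rw [val_le_iff' w w']; exact hB4 w b4
    have vG : w'.valuation M (algebraMap K M (g 2) * algebraMap k M u + algebraMap K M (g 3)) =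
        1 := by
      rw [htow, htow, ← map_mul, ← map_add]
      exact val_eq_one' w w' (hB6 w b6)
    have hα' := congrArg (algebraMap k M) hα
    simp only [map_mul, map_add, ← htow] at hα'
    have hsmall : w'.valuation M (algebraMap K M (g 2) * (x - algebraMap k M u)) < 1 := by
      rw [map_mul]
      calc w'.valuation M (algebraMap K M (g 2)) * w'.valuation M (x - algebraMap k M u) ≤
            1 * w'.valuation M (x - algebraMap k M u) := mul_le_mul_left v2 _
        _ < 1 := by rw [one_mul]; exact hx
    have hden : w'.valuation M (algebraMap K M (g 2) * x + algebraMap K M (g 3)) = 1 := by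
      have e : algebraMap K M (g 2) * x + algebraMap K M (g 3) =
          (algebraMap K M (g 2) * algebraMap k M u + algebraMap K M (g 3)) +
            algebraMap K M (g 2) * (x - algebraMap k M u) := by ring
      rw [e, Valuation.map_add_eq_of_lt_left _ (by rw [vG]; exact hsmall), vG]
    have hkey : (t - algebraMap k M α) * ((algebraMap K M (g 2) * x + algebraMap K M (g 3)) *
        (algebraMap K M (g 2) * algebraMap k M u + algebraMap K M (g 3))) =
          algebraMap K M (g 0 * g 3 - g 1 * g 2) * (x - algebraMap k M u) := by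
      simp only [map_sub, map_mul]
      linear_combination (algebraMap K M (g 2) * algebraMap k M u + algebraMap K M (g 3)) * ht -
        (algebraMap K M (g 2) * x + algebraMap K M (g 3)) * hα'
    have hv := congrArg (w'.valuation M) hkey
    rw [map_mul, map_mul, hden, vG, one_mul, mul_one, map_mul] at hv
    have hlt : w'.valuation M (t - algebraMap k M α) < 1 := by
      rw [hv]
      calc w'.valuation M (algebraMap K M (g 0 * g 3 - g 1 * g 2)) *
            w'.valuation M (x - algebraMap k M u) ≤
            1 * w'.valuation M (x - algebraMap k M u) := mul_le_mul_left v5 _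
        _ < 1 := by rw [one_mul]; exact hx
    exact ⟨hsum _ _ _ hlt vα, hlt⟩

end near

end Pool.Agent.U47.QF
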