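import Mathlib
import Pool.Agent.U47.QF.NearT

/-!
# The primes at which the coordinate is near the branch points
-/

set_option autoImplicit false
set_option linter.unusedSectionVars false

open Height NumberField IsDedekindDomain Polynomial
open Pool.Agent.U47.QE

namespace Pool.Agent.U47.QF

open scoped Classical

/-- the third condition of `Gd` -/
def Gd3 {K : Type} [Field K] (k : Type) [Field k] [NumberField k] [Algebra K k]
    (D : Finset (Option (k × k)))
    (ε : ℝ) (L : Type) [Field L] [NumberField L] [Algebra K L] (x y : L) : Prop :=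
  ∀ (M : Type) [Field M] [NumberField M] [Algebra k M] [Algebra L M]
    [Algebra K M] [IsScalarTower K k M] [IsScalarTower K L M], Module.finrank k M = 2 →
    ∃ W : Finset (Pr M),
      (∀ w ∈ W, ∃ R ∈ D, Cl (w.valuation M) (algebraMap L M x) (algebraMap L M y)
        (mpO (algebraMap k M) R)) ∧
      (Module.finrank K k : ℝ) * (((D.card : ℝ) / 2 - ε) * logHeight₁ x) ≤
        ∑ w ∈ W, Real.log (Ideal.absNorm w.asIdeal : ℝ)

variable {K : Type} [Field K] [NumberField K]

theorem countM {k : Type} [Field k] [NumberField k] [Algebra K k]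
    {k' : Type} [Field k'] [NumberField k'] [Algebra K k'] [Algebra k k'] [IsScalarTower K k k']
    (g : Fin 4 → K) {q : ℕ} (α : Fin q → k) (D : Finset (Option (k' × k')))
    (hD : ∀ R ∈ D, ∃ j, Abv (fun i => algebraMap K k' (g i)) (algebraMap k k' (α j)) R)
    (T : Finset ℕ) (hT : ∀ p ∈ T, p ≠ 0) :
    ∃ c : ℝ, 0 ≤ c ∧ ∀ (ε : ℝ) (L : Type) [Field L] [NumberField L] [Algebra K L] (x y : L),
      Gd3 (K := K) k' D ε L x y → IsEmpty (L →ₐ[K] k') → Module.finrank K L = 2 →
      ∀ (M : Type) [Field M] [NumberField M] [Algebra k M] [Algebra K M] [Algebra L M]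
        [IsScalarTower K k M] [IsScalarTower K L M], Module.finrank k M = 2 → ∀ t : M,
        algebraMap K M (g 2) * algebraMap L M x + algebraMap K M (g 3) ≠ 0 →
        t * (algebraMap K M (g 2) * algebraMap L M x + algebraMap K M (g 3)) =
          algebraMap K M (g 0) * algebraMap L M x + algebraMap K M (g 1) →
        ∃ V : Finset (Pr M), (∀ v ∈ V, (∀ p ∈ T, (p : 𝓞 M) ∉ v.asIdeal) ∧
          v.valuation M t ≤ 1 ∧ ∃ j, v.valuation M (t - algebraMap k M (α j)) < 1) ∧
        ((D.card : ℝ) / 2 - ε) * logHeight₁ (algebraMap L M x) ≤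
          ∑ v ∈ V, Real.log (Ideal.absNorm v.asIdeal : ℝ) + c := by
  -- bad primes
  have hB1 : ∀ R : Option (k' × k'), ∃ B : Finset (Pr k'), R ∈ D → ∃ j, ∀ w, w ∉ B →
      ∀ (M : Type) [Field M] [NumberField M] [Algebra k' M]
      [Algebra K M] [IsScalarTower K k' M] (w' : Pr M), w'.asIdeal.LiesOver w.asIdeal →
      ∀ x y t : M, Cl (w'.valuation M) x y (mpO (algebraMap k' M) R) →
        algebraMap K M (g 2) * x + algebraMap K M (g 3) ≠ 0 →
        t * (algebraMap K M (g 2) * x + algebraMap K M (g 3)) =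
          algebraMap K M (g 0) * x + algebraMap K M (g 1) →
        w'.valuation M t ≤ 1 ∧
          w'.valuation M (t - algebraMap k' M (algebraMap k k' (α j))) < 1 := by
    intro R
    by_cases hR : R ∈ D
    · obtain ⟨j, hj⟩ := hD R hR
      obtain ⟨B, hB⟩ := near_fin g (algebraMap k k' (α j)) R hj
      exact ⟨B, fun _ => ⟨j, hB⟩⟩
    · exact ⟨∅, fun h => absurd h hR⟩
  choose B1 hB1 using hB1
  have hB2 : ∃ B : Finset (Pr k'), ∀ w, w ∉ B → ∀ p ∈ T, (p : 𝓞 k') ∉ w.asIdeal := by
    have h1 : ∀ p : ℕ, ∃ B : Finset (Pr k'), p ∈ T → ∀ w, w ∉ B → (p : 𝓞 k') ∉ w.asIdeal := by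
      intro p
      by_cases hp : p ∈ T
      · have hp0 : (p : k') ≠ 0 := Nat.cast_ne_zero.2 (hT p hp)
        obtain ⟨B, hB⟩ := eq_fin hp0
        refine ⟨B, fun _ w hw hmem => ?_⟩
        rw [mem_iff_val] at hmem
        have h2 := hB w hw
        have h3 : (((p : 𝓞 k') : k')) = (p : k') := by push_cast; rfl
        rw [h3, h2] at hmem
        exact lt_irrefl _ hmem
      · exact ⟨∅, fun h => absurd h hp⟩
    choose B hB using h1
    refine ⟨T.biUnion B, fun w hw p hp => hB p hp w fun hmem => hw ?_⟩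
    rw [Finset.mem_biUnion]
    exact ⟨p, hp, hmem⟩
  obtain ⟨B2, hB2⟩ := hB2
  obtain ⟨B, hB⟩ : ∃ B : Finset (Pr k'), B = D.biUnion B1 ∪ B2 := ⟨_, rfl⟩
  obtain ⟨cB, hcB⟩ : ∃ cB : ℝ, cB = ∑ w ∈ B, Real.log (Ideal.absNorm w.asIdeal : ℝ) := ⟨_, rfl⟩
  have hcB0 : 0 ≤ cB := by
    rw [hcB]
    exact Finset.sum_nonneg fun w _ => Real.log_natCast_nonneg _
  refine ⟨2 * cB, by positivity, ?_⟩
  intro ε L _ _ _ x y hGd hne hdL M _ _ _ _ _ _ _ hdM t hden ht
  -- the compositum
  obtain ⟨τ, hτ⟩ := exists_conj (K := k) (L := M) hdM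
  have hneM : IsEmpty (M →ₐ[k] k') := by
    refine ⟨fun φ => hne.false ?_⟩
    exact
      { (φ : M →+* k').comp (algebraMap L M) with
        commutes' := fun z => by
          change φ (algebraMap L M (algebraMap K L z)) = algebraMap K k' z
          rw [← IsScalarTower.algebraMap_apply K L M, IsScalarTower.algebraMap_apply K k M,
            φ.commutes, ← IsScalarTower.algebraMap_apply K k k'] }
  obtain ⟨N, _, _, _, _, htN, φ, -, hfr, -⟩ := exists_comp (k := k') hτ hneM
  let _ : Algebra M N := φ.toRingHom.toAlgebra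
  have hMN : ∀ z : M, algebraMap M N z = φ z := fun z => rfl
  let _ : Algebra L N := ((algebraMap M N).comp (algebraMap L M)).toAlgebra
  have hLN : ∀ z : L, algebraMap L N z = algebraMap M N (algebraMap L M z) := fun z => rfl
  let _ : Algebra K N := ((algebraMap k N).comp (algebraMap K k)).toAlgebra
  have hKN : ∀ z : K, algebraMap K N z = algebraMap k N (algebraMap K k z) := fun z => rfl
  have t1 : IsScalarTower K k' N := IsScalarTower.of_algebraMap_eq fun z => by
    rw [hKN, IsScalarTower.algebraMap_apply k k' N, ← IsScalarTower.algebraMap_apply K k k']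
  have t2 : IsScalarTower K M N := IsScalarTower.of_algebraMap_eq fun z => by
    rw [hKN, hMN, IsScalarTower.algebraMap_apply K k M, φ.commutes]
  have t3 : IsScalarTower K L N := IsScalarTower.of_algebraMap_eq fun z => by
    rw [hLN, ← IsScalarTower.algebraMap_apply K L M, ← IsScalarTower.algebraMap_apply K M N]
  have t4 : IsScalarTower k M N := IsScalarTower.of_algebraMap_eq fun z => (φ.commutes z).symm
  have f1 : FiniteDimensional k k' := FiniteDimensional.right ℚ k k'
  have f2 : FiniteDimensional K k := FiniteDimensional.right ℚ K k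
  have f3 : FiniteDimensional K L := FiniteDimensional.right ℚ K L
  have f4 : FiniteDimensional k M := FiniteDimensional.right ℚ k M
  have f5 : FiniteDimensional M N := FiniteDimensional.right ℚ M N
  have f6 : FiniteDimensional L M := FiniteDimensional.right ℚ L M
  have f7 : FiniteDimensional k' N := FiniteDimensional.right ℚ k' N
  have hr : Module.finrank M N = Module.finrank k k' := by
    have h1 := Module.finrank_mul_finrank k M N
    have h2 := Module.finrank_mul_finrank k k' N
    rw [hdM] at h1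
    rw [hfr] at h2
    omega
  have hLM : Module.finrank L M = Module.finrank K k := by
    have h1 := Module.finrank_mul_finrank K L M
    have h2 := Module.finrank_mul_finrank K k M
    rw [hdL] at h1
    rw [hdM] at h2
    omega
  have hKk' : Module.finrank K k' = Module.finrank K k * Module.finrank k k' :=
    (Module.finrank_mul_finrank K k k').symm
  obtain ⟨r, hr'⟩ : ∃ r : ℝ, r = Module.finrank k k' := ⟨_, rfl⟩
  have hr1 : 1 ≤ r := by
    rw [hr']
    have : 0 < Module.finrank k k' := Module.finrank_pos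
    exact_mod_cast this
  obtain ⟨W, hW1, hW2⟩ := hGd N hfr
  -- the good primes
  obtain ⟨W1, hW1d⟩ : ∃ W1, W1 = W.filter fun w : Pr N =>
    HeightOneSpectrum.under (𝓞 k') w ∉ B := ⟨_, rfl⟩
  have hsplit : ∑ w ∈ W, Real.log (Ideal.absNorm w.asIdeal : ℝ) ≤
      ∑ w ∈ W1, Real.log (Ideal.absNorm w.asIdeal : ℝ) + 2 * cB := by
    have h1 := Finset.sum_filter_add_sum_filter_not W
      (fun w : Pr N => HeightOneSpectrum.under (𝓞 k') w ∉ B)
      (fun w => Real.log (Ideal.absNorm w.asIdeal : ℝ))
    rw [← hW1d] at h1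
    have h2 : ∑ w ∈ W.filter (fun w : Pr N => ¬ HeightOneSpectrum.under (𝓞 k') w ∉ B),
        Real.log (Ideal.absNorm w.asIdeal : ℝ) ≤ 2 * cB := by
      rw [← Finset.sum_fiberwise_of_maps_to (g := fun w => HeightOneSpectrum.under (𝓞 k') w)
        (t := B) (fun w hw => not_not.1 (Finset.mem_filter.1 hw).2), hcB, Finset.mul_sum]
      refine Finset.sum_le_sum fun v _ => ?_
      have h3 := sum_above (F := k') (M := N) v ((W.filter (fun w : Pr N =>
        ¬ HeightOneSpectrum.under (𝓞 k') w ∉ B)).filter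
          fun w => HeightOneSpectrum.under (𝓞 k') w = v) (fun w hw => by
            rw [Finset.mem_filter] at hw
            rw [← hw.2]
            exact ⟨rfl⟩)
      rw [hfr] at h3
      exact_mod_cast h3
    linarith
  have hnear : ∀ w ∈ W1, (∀ p ∈ T, (p : 𝓞 N) ∉ w.asIdeal) ∧
      w.valuation N (algebraMap M N t) ≤ 1 ∧
      ∃ j, w.valuation N (algebraMap M N (t - algebraMap k M (α j))) < 1 := by
    intro w hw
    rw [hW1d, Finset.mem_filter] at hw
    obtain ⟨hw, hwB⟩ := hw
    rw [hB, Finset.mem_union, Finset.mem_biUnion] at hwB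
    push Not at hwB
    obtain ⟨R, hR, hcl⟩ := hW1 w hw
    obtain ⟨j, hj⟩ := hB1 R hR
    have hlo : w.asIdeal.LiesOver (HeightOneSpectrum.under (𝓞 k') w).asIdeal := ⟨rfl⟩
    obtain ⟨h1, h2⟩ := hj _ (hwB.1 R hR) N w hlo (algebraMap L N x) (algebraMap L N y)
      (algebraMap M N t) hcl (by
        rw [hLN, IsScalarTower.algebraMap_apply K M N, IsScalarTower.algebraMap_apply K M N,
          ← map_mul, ← map_add, ne_eq, map_eq_zero]
        exact hden) (by
        rw [hLN]
        simp only [IsScalarTower.algebraMap_apply K M N, ← map_mul, ← map_add]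
        rw [ht])
    refine ⟨fun p hp => ?_, h1, j, ?_⟩
    · intro hmem
      apply hB2 _ hwB.2 p hp
      rw [Ideal.mem_of_liesOver w.asIdeal (HeightOneSpectrum.under (𝓞 k') w).asIdeal,
        map_natCast]
      exact hmem
    · rw [map_sub, ← IsScalarTower.algebraMap_apply k M N, IsScalarTower.algebraMap_apply k k' N]
      exact h2
  refine ⟨W1.image fun w => HeightOneSpectrum.under (𝓞 M) w, ?_, ?_⟩
  · intro v hv
    rw [Finset.mem_image] at hv
    obtain ⟨w, hw, rfl⟩ := hv
    have hlo : w.asIdeal.LiesOver (HeightOneSpectrum.under (𝓞 M) w).asIdeal := ⟨rfl⟩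
    obtain ⟨h1, h2, j, h3⟩ := hnear w hw
    refine ⟨fun p hp hmem => h1 p hp ?_, (val_le_iff' _ w t).1 h2, j, (val_lt_iff' _ w _).1 h3⟩
    have h4 := (Ideal.mem_of_liesOver w.asIdeal (HeightOneSpectrum.under (𝓞 M) w).asIdeal
      (p : 𝓞 M)).1 hmem
    rwa [map_natCast] at h4
  · have hs2 : ∑ w ∈ W1, Real.log (Ideal.absNorm w.asIdeal : ℝ) ≤
        r * ∑ v ∈ W1.image (fun w => HeightOneSpectrum.under (𝓞 M) w),
            Real.log (Ideal.absNorm v.asIdeal : ℝ) := by
      rw [← Finset.sum_fiberwise_of_maps_to (g := fun w => HeightOneSpectrum.under (𝓞 M) w)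
        (t := W1.image (fun w => HeightOneSpectrum.under (𝓞 M) w))
        (fun w' hw' => Finset.mem_image_of_mem _ hw'), Finset.mul_sum]
      refine Finset.sum_le_sum fun w _ => ?_
      rw [hr', ← hr]
      refine sum_above w _ fun w' hw' => ?_
      rw [Finset.mem_filter] at hw'
      rw [← hw'.2]
      exact ⟨rfl⟩
    obtain ⟨SV, hSV⟩ : ∃ SV : ℝ, SV = ∑ v ∈ W1.image (fun w => HeightOneSpectrum.under (𝓞 M) w),
            Real.log (Ideal.absNorm v.asIdeal : ℝ) := ⟨_, rfl⟩
    rw [← hSV] at hs2 ⊢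
    have hht : logHeight₁ (algebraMap L M x) = Module.finrank K k * logHeight₁ x := by
      rw [Pool.Agent.N572.DR.Inv.ht_ext, hLM]
    rw [hht]
    have h1 := hW2.trans (hsplit.trans (add_le_add_left hs2 _))
    rw [hKk'] at h1
    push_cast at h1
    rw [← hr'] at h1
    have h2 : r * (((D.card : ℝ) / 2 - ε) * (Module.finrank K k * logHeight₁ x)) ≤
        r * (SV + 2 * cB) := by nlinarith
    exact le_of_mul_le_mul_left h2 (by linarith)

end Pool.Agent.U47.QF
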