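import Mathlib
import Pool.Agent.U47.QF.CntM

/-!
# The points of the elliptic curve above the branch points
-/

set_option autoImplicit false
set_option linter.unusedSectionVars false

open Height NumberField IsDedekindDomain Polynomial
open Pool.Agent.U47.QE

namespace Pool.Agent.U47.QF

open scoped Classical

/-- square roots of finitely many elements in an extension -/
theorem exists_sqrts (k : Type) [Field k] [NumberField k] {q : ℕ} (c : Fin q → k) :
    ∃ (k' : Type) (_ : Field k') (_ : NumberField k') (_ : Algebra k k') (t : Fin q → k'),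
      ∀ j, t j ^ 2 = algebraMap k k' (c j) := by
  have h1 : ∀ j, ∃ t : AlgebraicClosure k, t ^ 2 = algebraMap k (AlgebraicClosure k) (c j) :=
    fun j => IsAlgClosed.exists_pow_nat_eq _ two_pos
  choose t ht using h1
  have hSF : Finite (Set.range t) := Set.finite_range t
  have hfd : FiniteDimensional k (IntermediateField.adjoin k (Set.range t)) :=
    IntermediateField.finiteDimensional_adjoin
      fun z _ => (AlgebraicClosure.isAlgebraic k).isAlgebraic z |>.isIntegral
  have hchar : CharZero (IntermediateField.adjoin k (Set.range t)) :=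
    charZero_of_injective_algebraMap (algebraMap k _).injective
  have hkf : FiniteDimensional ℚ (IntermediateField.adjoin k (Set.range t)) :=
    FiniteDimensional.trans ℚ k _
  have hkn : NumberField (IntermediateField.adjoin k (Set.range t)) :=
    { to_charZero := hchar, to_finiteDimensional := hkf }
  refine ⟨IntermediateField.adjoin k (Set.range t), inferInstance, hkn, inferInstance, fun j =>
    ⟨t j, IntermediateField.subset_adjoin k _ ⟨j, rfl⟩⟩, fun j => ?_⟩
  exact Subtype.ext (ht j)

variable {K : Type} [Field K] [NumberField K]

/-- the points of `E` above the point `c` of the line have degree at most five -/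
def Sml (a b : 𝓞 K) (g : Fin 4 → K) (c : AlgebraicClosure K) : Prop :=
  ∀ u v : AlgebraicClosure K, v ^ 2 = u ^ 3 + algebraMap K (AlgebraicClosure K) a * u +
    algebraMap K (AlgebraicClosure K) b →
    c * (algebraMap K (AlgebraicClosure K) (g 2) * u + algebraMap K (AlgebraicClosure K) (g 3)) =
      algebraMap K (AlgebraicClosure K) (g 0) * u + algebraMap K (AlgebraicClosure K) (g 1) →
    Module.finrank K (IntermediateField.adjoin K {u, v}) ≤ 5

theorem exists_div (a b : 𝓞 K)
    (k : Type) [Field k] [NumberField k] [Algebra K k] (g : Fin 4 → K)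
    (hg : g 0 * g 3 - g 1 * g 2 ≠ 0) {q : ℕ} (α : Fin q → k) (hα : Function.Injective α)
    (hsml : ∀ (ι : k →ₐ[K] AlgebraicClosure K) (j : Fin q), Sml a b g (ι (α j))) :
    ∃ (k' : Type) (_ : Field k') (_ : NumberField k') (_ : Algebra K k') (_ : Algebra k k')
      (_ : IsScalarTower K k k') (D : Finset (Option (k' × k'))), DvK a b k' D ∧
      (∀ R ∈ D, ∃ j, Abv (fun i => algebraMap K k' (g i)) (algebraMap k k' (α j)) R) ∧
      (q : ℝ) - 2 ≤ (D.card : ℝ) / 2 := by
  -- the points of the `x`-line
  let G : Fin 4 → k := fun i => algebraMap K k (g i)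
  have hG : G 0 * G 3 - G 1 * G 2 ≠ 0 := by
    simp only [G]
    rw [← map_mul, ← map_mul, ← map_sub, ne_eq, map_eq_zero]
    exact hg
  let u : Fin q → k := fun j => (G 1 - α j * G 3) / (α j * G 2 - G 0)
  have hu : ∀ j, α j * G 2 - G 0 ≠ 0 → α j * (G 2 * u j + G 3) = G 0 * u j + G 1 := by
    intro j hj
    simp only [u]
    field_simp
    ring
  have hu0 : ∀ j, α j * G 2 - G 0 ≠ 0 → G 2 * u j + G 3 ≠ 0 := by
    intro j hj h0
    have h1 := hu j hj
    rw [h0, mul_zero] at h1
    apply hG
    by_cases h2 : G 2 = 0
    · rw [h2, zero_mul, zero_add] at h0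
      rw [h0, h2]
      ring
    · have h3 : u j = -G 3 / G 2 := by
        field_simp
        linear_combination h0
      rw [h3] at h1
      field_simp at h1
      linear_combination h1
  let U : Fin q → Option k := fun j => if α j * G 2 - G 0 = 0 then none else some (u j)
  have hUinj : Function.Injective U := by
    intro i j hij
    simp only [U] at hij
    by_cases hi : α i * G 2 - G 0 = 0
    · by_cases hj : α j * G 2 - G 0 = 0
      · have h2 : G 2 ≠ 0 := by
          intro h2
          rw [h2, mul_zero, zero_sub, neg_eq_zero] at hi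
          apply hG
          rw [hi, h2]
          ring
        apply hα
        apply mul_right_cancel₀ h2
        linear_combination hi - hj
      · rw [if_pos hi, if_neg hj] at hij
        exact absurd hij (by simp)
    · by_cases hj : α j * G 2 - G 0 = 0
      · rw [if_neg hi, if_pos hj] at hij
        exact absurd hij (by simp)
      · rw [if_neg hi, if_neg hj, Option.some.injEq] at hij
        apply hα
        have h1 := hu i hi
        have h2 := hu j hj
        have h3 := hu0 j hj
        rw [hij] at h1
        apply mul_right_cancel₀ h3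
        rw [h1, h2]
  obtain ⟨k', i1, i2, i3, t, ht⟩ := exists_sqrts k
    (fun j => u j ^ 3 + algebraMap K k a * u j + algebraMap K k b)
  let _ : Algebra K k' := ((algebraMap k k').comp (algebraMap K k)).toAlgebra
  have htow : IsScalarTower K k k' := IsScalarTower.of_algebraMap_eq fun z => rfl
  have hKk : ∀ z : K, algebraMap K k' z = algebraMap k k' (algebraMap K k z) := fun z => rfl
  let Pp : Fin q → Option (k' × k') := fun j =>
    if α j * G 2 - G 0 = 0 then none else some (algebraMap k k' (u j), t j)
  let Pm : Fin q → Option (k' × k') := fun j =>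
    if α j * G 2 - G 0 = 0 then none else some (algebraMap k k' (u j), -t j)
  let B : Finset (Fin q) := Finset.univ.filter fun j => α j * G 2 - G 0 = 0 ∨
    u j ^ 3 + algebraMap K k a * u j + algebraMap K k b = 0
  -- projections
  have hpr : ∀ (P : Fin q → Option (k' × k')) (s : Fin q → k'), (∀ j, P j =
      if α j * G 2 - G 0 = 0 then none else some (algebraMap k k' (u j), s j)) →
      ∀ j, (P j).map Prod.fst = (U j).map (algebraMap k k') := by
    intro P s hP j
    rw [hP j]
    simp only [U]
    by_cases hj : α j * G 2 - G 0 = 0
    · rw [if_pos hj, if_pos hj]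
      rfl
    · rw [if_neg hj, if_neg hj]
      rfl
  have hmapinj : Function.Injective (Option.map (algebraMap k k')) :=
    Option.map_injective (algebraMap k k').injective
  have hPp := hpr Pp t (fun j => rfl)
  have hPm := hpr Pm (fun j => -t j) (fun j => rfl)
  have hPpi : Function.Injective Pp := by
    intro i j hij
    apply hUinj
    apply hmapinj
    rw [← hPp, ← hPp, hij]
  have hPmi : Function.Injective Pm := by
    intro i j hij
    apply hUinj
    apply hmapinj
    rw [← hPm, ← hPm, hij]
  obtain ⟨D, hD⟩ : ∃ D : Finset (Option (k' × k')), D = Finset.univ.image Pp ∪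
    (Finset.univ \ B).image Pm := ⟨_, rfl⟩
  have hDmem : ∀ R ∈ D, ∃ j, R = Pp j ∨ R = Pm j := by
    intro R hR
    rw [hD, Finset.mem_union, Finset.mem_image, Finset.mem_image] at hR
    rcases hR with ⟨j, -, rfl⟩ | ⟨j, -, rfl⟩
    · exact ⟨j, Or.inl rfl⟩
    · exact ⟨j, Or.inr rfl⟩
  -- both are of the same shape
  have hDs : ∀ R ∈ D, ∃ j, (α j * G 2 - G 0 = 0 ∧ R = none) ∨ (α j * G 2 - G 0 ≠ 0 ∧
      ∃ s : k', R = some (algebraMap k k' (u j), s) ∧
        s ^ 2 = algebraMap k k' (u j ^ 3 + algebraMap K k a * u j + algebraMap K k b)) := by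
    intro R hR
    obtain ⟨j, hj⟩ := hDmem R hR
    refine ⟨j, ?_⟩
    simp only [Pp, Pm] at hj
    by_cases h0 : α j * G 2 - G 0 = 0
    · left
      rw [if_pos h0, if_pos h0] at hj
      exact ⟨h0, hj.elim id id⟩
    · right
      rw [if_neg h0, if_neg h0] at hj
      refine ⟨h0, ?_⟩
      rcases hj with hj | hj
      · exact ⟨t j, hj, ht j⟩
      · exact ⟨-t j, hj, by rw [neg_sq]; exact ht j⟩
  refine ⟨k', i1, i2, inferInstance, i3, htow, D, ⟨?_, ?_⟩, ?_, ?_⟩
  · intro R hR
    obtain ⟨j, ⟨-, rfl⟩ | ⟨-, s, rfl, hs⟩⟩ := hDs R hR
    · trivial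
    · change s ^ 2 = (algebraMap k k' (u j)) ^ 3 + algebraMap K k' a * algebraMap k k' (u j) +
        algebraMap K k' b
      rw [hs, hKk, hKk]
      simp only [map_add, map_mul, map_pow]
  · intro u0 t0 hut z hz
    obtain ⟨j, ⟨-, h0⟩ | ⟨h0, s, hR, hs⟩⟩ := hDs _ hut
    · exact absurd h0 (by simp)
    · rw [Option.some.injEq, Prod.mk.injEq] at hR
      obtain ⟨rfl, rfl⟩ := hR
      have f1 : FiniteDimensional K k' := FiniteDimensional.right ℚ K k'
      let j0 : k' →ₐ[K] AlgebraicClosure K := IsAlgClosed.lift
      let ι : k →ₐ[K] AlgebraicClosure K :=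
        { (j0 : k' →+* AlgebraicClosure K).comp (algebraMap k k') with
          commutes' := fun c => by
            change j0 (algebraMap k k' (algebraMap K k c)) = _
            rw [← hKk, j0.commutes] }
      have hι : ∀ c : k, ι c = j0 (algebraMap k k' c) := fun c => rfl
      have hjK : ∀ c : K, algebraMap K (AlgebraicClosure K) c = j0 (algebraMap K k' c) := fun c =>
        (j0.commutes c).symm
      have h5 := hsml ι j (j0 (algebraMap k k' (u j))) (j0 t0) (by
        rw [← map_pow, hs, hjK, hjK, hKk, hKk]
        simp only [map_add, map_mul, map_pow]) (by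
        rw [hι, hjK, hjK, hjK, hjK, hKk, hKk, hKk, hKk]
        have h6 := congrArg (fun z => j0 (algebraMap k k' z)) (hu j h0)
        simp only [map_add, map_mul] at h6
        exact h6)
      have h3 : (IntermediateField.adjoin K {algebraMap k k' (u j), t0}).map j0 =
          IntermediateField.adjoin K {j0 (algebraMap k k' (u j)), j0 t0} := by
        rw [IntermediateField.adjoin_map, Set.image_pair]
      have h2 : j0 z ∈ IntermediateField.adjoin K {j0 (algebraMap k k' (u j)), j0 t0} := by
        rw [← h3]
        exact ⟨z, hz, rfl⟩
      have h4 : minpoly K z = minpoly K (j0 z) := (minpoly.algHom_eq j0 j0.injective z).symm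
      have hfd2 : FiniteDimensional K
          (IntermediateField.adjoin K {j0 (algebraMap k k' (u j)), j0 t0}) :=
        IntermediateField.finiteDimensional_adjoin
          fun z _ => (AlgebraicClosure.isAlgebraic K).isAlgebraic z |>.isIntegral
      rw [h4]
      have h7 : minpoly K (⟨j0 z, h2⟩ :
          IntermediateField.adjoin K {j0 (algebraMap k k' (u j)), j0 t0}) = minpoly K (j0 z) :=
        (minpoly.algHom_eq (IntermediateField.adjoin K
          {j0 (algebraMap k k' (u j)), j0 t0}).val
          (IntermediateField.adjoin K {j0 (algebraMap k k' (u j)), j0 t0}).val.injective _).symm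
      rw [← h7]
      exact (minpoly.natDegree_le _).trans h5
  · intro R hR
    obtain ⟨j, ⟨h0, rfl⟩ | ⟨h0, s, rfl, -⟩⟩ := hDs R hR
    · refine ⟨j, ?_, ?_⟩
      · change algebraMap K k' (g 2) ≠ 0
        rw [ne_eq, map_eq_zero]
        intro h2
        have h3 : G 2 = 0 := by simp only [G]; rw [h2, map_zero]
        rw [h3, mul_zero, zero_sub, neg_eq_zero] at h0
        apply hG
        rw [h0, h3]
        ring
      · change algebraMap k k' (α j) * algebraMap K k' (g 2) = algebraMap K k' (g 0)
        rw [hKk, hKk, ← map_mul]
        congr 1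
        linear_combination h0
    · refine ⟨j, ?_, ?_⟩
      · change algebraMap K k' (g 2) * algebraMap k k' (u j) + algebraMap K k' (g 3) ≠ 0
        rw [hKk, hKk, ← map_mul, ← map_add, ne_eq, map_eq_zero]
        exact hu0 j h0
      · change algebraMap k k' (α j) * (algebraMap K k' (g 2) * algebraMap k k' (u j) +
          algebraMap K k' (g 3)) = algebraMap K k' (g 0) * algebraMap k k' (u j) +
            algebraMap K k' (g 1)
        simp only [hKk, ← map_mul, ← map_add]
        congr 1
        exact hu j h0
  · -- the number
    have hdisj : Disjoint (Finset.univ.image Pp) ((Finset.univ \ B).image Pm) := by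
      rw [Finset.disjoint_left]
      intro R h1 h2
      rw [Finset.mem_image] at h1 h2
      obtain ⟨i, -, rfl⟩ := h1
      obtain ⟨j, hj, he⟩ := h2
      have hij : i = j := by
        apply hUinj
        apply hmapinj
        rw [← hPp, ← hPm, he]
      subst hij
      rw [Finset.mem_sdiff] at hj
      have hj2 := hj.2
      simp only [B, Finset.mem_filter, Finset.mem_univ, true_and, not_or] at hj2
      simp only [Pp, Pm] at he
      rw [if_neg hj2.1, if_neg hj2.1, Option.some.injEq, Prod.mk.injEq] at he
      have h3 : t i = 0 := by
        have h4 : (2 : k') * t i = 0 := by linear_combination -he.2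
        exact (mul_eq_zero.1 h4).resolve_left two_ne_zero
      have h4 := ht i
      rw [h3] at h4
      apply hj2.2
      apply (algebraMap k k').injective
      rw [map_zero, ← h4]
      ring
    have hBcard : B.card ≤ 4 := by
      have hf0 : (X ^ 3 + C (algebraMap K k a) * X + C (algebraMap K k b) : k[X]) ≠ 0 := by
        intro h
        have h2 : (X ^ 3 + C (algebraMap K k a) * X + C (algebraMap K k b) : k[X]).natDegree = 3 :=
          by compute_degree!
        rw [h, natDegree_zero] at h2
        omega
      have hdeg3 : (X ^ 3 + C (algebraMap K k a) * X + C (algebraMap K k b) : k[X]).natDegree ≤ 3 :=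
        by compute_degree
      have hsub : B.image U ⊆ insert none
          ((X ^ 3 + C (algebraMap K k a) * X + C (algebraMap K k b) : k[X]).roots.toFinset.image
            some) := by
        intro R hR
        rw [Finset.mem_image] at hR
        obtain ⟨j, hj, rfl⟩ := hR
        simp only [B, Finset.mem_filter, Finset.mem_univ, true_and] at hj
        rw [Finset.mem_insert, Finset.mem_image]
        by_cases h0 : α j * G 2 - G 0 = 0
        · left
          simp only [U]
          rw [if_pos h0]
        · right
          refine ⟨u j, ?_, by simp only [U]; rw [if_neg h0]⟩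
          rw [Multiset.mem_toFinset, mem_roots hf0, IsRoot.def]
          have h1 := hj.resolve_left h0
          simpa using h1
      calc B.card = (B.image U).card := (Finset.card_image_of_injective _ hUinj).symm
        _ ≤ _ := Finset.card_le_card hsub
        _ ≤ _ := Finset.card_insert_le _ _
        _ ≤ (X ^ 3 + C (algebraMap K k a) * X + C (algebraMap K k b) :
            k[X]).roots.toFinset.card + 1 := Nat.add_le_add_right Finset.card_image_le 1
        _ ≤ 3 + 1 := Nat.add_le_add_right ((Multiset.toFinset_card_le _).trans
            ((card_roots' _).trans hdeg3)) 1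
    have hcard : D.card = q + (q - B.card) := by
      rw [hD, Finset.card_union_of_disjoint hdisj, Finset.card_image_of_injective _ hPpi,
        Finset.card_image_of_injective _ hPmi, Finset.card_univ, Fintype.card_fin,
        Finset.card_sdiff_of_subset (Finset.subset_univ B), Finset.card_univ, Fintype.card_fin]
    have hBq : B.card ≤ q := by
      have := Finset.card_le_univ B
      rwa [Fintype.card_fin] at this
    have h1 : 2 * q ≤ D.card + 4 := by omega
    have h2 : (2 : ℝ) * q ≤ D.card + 4 := by exact_mod_cast h1
    linarith

end Pool.Agent.U47.QF
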