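import Mathlib
import Pool.Agent.U47.QF.Div

/-!
# Auxiliary results on heights and quadratic fields
-/

set_option autoImplicit false
set_option linter.unusedSectionVars false

open Height NumberField IsDedekindDomain Polynomial
open Pool.Agent.U47.QE

namespace Pool.Agent.U47.QF

open scoped Classical

/-- the height of the image under a fractional linear transformation -/
theorem mob_ht {K : Type} [Field K] [NumberField K] (g : Fin 4 → K)
    (hg : g 0 * g 3 - g 1 * g 2 ≠ 0) : ∃ C : ℝ, 0 ≤ C ∧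
    ∀ (L : Type) [Field L] [NumberField L] [Algebra K L] (x t : L),
      algebraMap K L (g 2) * x + algebraMap K L (g 3) ≠ 0 →
      t * (algebraMap K L (g 2) * x + algebraMap K L (g 3)) =
        algebraMap K L (g 0) * x + algebraMap K L (g 1) →
      logHeight₁ t ≤ logHeight₁ x + Module.finrank ℚ L * C := by
  obtain ⟨H, hH⟩ : ∃ H : ℝ, H = ∑ i, logHeight₁ (g i) + logHeight₁ (g 0 / g 2) +
    logHeight₁ ((g 1 * g 2 - g 0 * g 3) / g 2) + logHeight₁ (g 0 / g 3) +
      logHeight₁ (g 1 / g 3) + 2 * Real.log 2 := ⟨_, rfl⟩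
  have hn : ∀ z : K, 0 ≤ logHeight₁ z := fun z => zero_le_logHeight₁ z
  have hl2 : 0 ≤ Real.log 2 := Real.log_nonneg one_le_two
  have hH0 : 0 ≤ H := by
    rw [hH]
    have : 0 ≤ ∑ i, logHeight₁ (g i) := Finset.sum_nonneg fun i _ => hn _
    have h1 := hn (g 0 / g 2)
    have h2 := hn ((g 1 * g 2 - g 0 * g 3) / g 2)
    have h3 := hn (g 0 / g 3)
    have h4 := hn (g 1 / g 3)
    positivity
  have hgi : ∀ i, logHeight₁ (g i) ≤ ∑ i, logHeight₁ (g i) := fun i =>
    Finset.single_le_sum (f := fun i => logHeight₁ (g i)) (fun i _ => hn _) (Finset.mem_univ i)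
  refine ⟨5 * H, by positivity, ?_⟩
  intro L _ _ _ x t hne ht
  obtain ⟨n, hn'⟩ : ∃ n : ℝ, n = Module.finrank ℚ L := ⟨_, rfl⟩
  have hn0 : 0 ≤ n := by rw [hn']; exact Nat.cast_nonneg _
  have hfd : FiniteDimensional K L := FiniteDimensional.right ℚ K L
  have htw : (totalWeight L : ℝ) = n := by
    rw [hn', NumberField.totalWeight_eq_finrank]
  have hadd : ∀ x y : L, logHeight₁ (x + y) ≤ n * Real.log 2 + logHeight₁ x + logHeight₁ y :=
    fun x y => by
      rw [← htw]
      exact logHeight₁_add_le x y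
  have hmul : ∀ x y : L, logHeight₁ (x * y) ≤ logHeight₁ x + logHeight₁ y :=
    fun x y => logHeight₁_mul_le x y
  have hKL : (Module.finrank K L : ℝ) ≤ n := by
    rw [hn']
    have h1 := Module.finrank_mul_finrank ℚ K L
    have h2 : 0 < Module.finrank ℚ K := Module.finrank_pos
    have h3 : Module.finrank K L ≤ Module.finrank ℚ L := by
      rw [← h1]
      exact Nat.le_mul_of_pos_left _ h2
    exact_mod_cast h3
  have hc : ∀ z : K, logHeight₁ z ≤ H → logHeight₁ (algebraMap K L z) ≤ n * H := by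
    intro z hz
    rw [Pool.Agent.N572.DR.Inv.ht_ext]
    exact mul_le_mul hKL hz (hn z) hn0
  have hl2H : Real.log 2 ≤ H := by
    rw [hH]
    have : 0 ≤ ∑ i, logHeight₁ (g i) := Finset.sum_nonneg fun i _ => hn _
    have h1 := hn (g 0 / g 2)
    have h2 := hn ((g 1 * g 2 - g 0 * g 3) / g 2)
    have h3 := hn (g 0 / g 3)
    have h4 := hn (g 1 / g 3)
    linarith
  have hnl : n * Real.log 2 ≤ n * H := mul_le_mul_of_nonneg_left hl2H hn0
  have hH1 : logHeight₁ (g 0 / g 2) ≤ H ∧ logHeight₁ ((g 1 * g 2 - g 0 * g 3) / g 2) ≤ H ∧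
      logHeight₁ (g 0 / g 3) ≤ H ∧ logHeight₁ (g 1 / g 3) ≤ H ∧ ∀ i, logHeight₁ (g i) ≤ H := by
    have : 0 ≤ ∑ i, logHeight₁ (g i) := Finset.sum_nonneg fun i _ => hn _
    have h1 := hn (g 0 / g 2)
    have h2 := hn ((g 1 * g 2 - g 0 * g 3) / g 2)
    have h3 := hn (g 0 / g 3)
    have h4 := hn (g 1 / g 3)
    rw [hH]
    refine ⟨by linarith, by linarith, by linarith, by linarith, fun i => ?_⟩
    have := hgi i
    linarith
  obtain ⟨e1, e2, e3, e4, e5⟩ := hH1
  have hx0 := zero_le_logHeight₁ x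
  by_cases h2 : g 2 = 0
  · have h3 : g 3 ≠ 0 := by
      intro h
      apply hg
      rw [h2, h]
      ring
    have h3' : algebraMap K L (g 3) ≠ 0 := by
      rw [ne_eq, map_eq_zero]
      exact h3
    have he : t = algebraMap K L (g 0 / g 3) * x + algebraMap K L (g 1 / g 3) := by
      rw [h2, map_zero, zero_mul, zero_add] at ht
      rw [map_div₀, map_div₀]
      field_simp
      exact ht
    rw [he, ← hn']
    have g1 := hadd (algebraMap K L (g 0 / g 3) * x) (algebraMap K L (g 1 / g 3))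
    have g2 := hmul (algebraMap K L (g 0 / g 3)) x
    have g3 := hc _ e3
    have g4 := hc _ e4
    have : 0 ≤ n * H := by positivity
    linarith
  · have h2' : algebraMap K L (g 2) ≠ 0 := by
      rw [ne_eq, map_eq_zero]
      exact h2
    obtain ⟨d, hd⟩ : ∃ d : L, d = algebraMap K L (g 2) * x + algebraMap K L (g 3) := ⟨_, rfl⟩
    rw [← hd] at hne ht
    have he : t = algebraMap K L (g 0 / g 2) +
        algebraMap K L ((g 1 * g 2 - g 0 * g 3) / g 2) * d⁻¹ := by
      apply mul_right_cancel₀ hne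
      rw [ht, add_mul, mul_assoc, inv_mul_cancel₀ hne, mul_one, hd, map_div₀, map_div₀, map_sub,
        map_mul, map_mul]
      field_simp
      ring
    have hd' : d⁻¹ = (algebraMap K L (g 2) * x + algebraMap K L (g 3))⁻¹ := by rw [hd]
    rw [he, ← hn']
    have g1 := hadd (algebraMap K L (g 0 / g 2))
      (algebraMap K L ((g 1 * g 2 - g 0 * g 3) / g 2) * d⁻¹)
    have g2 := hmul (algebraMap K L ((g 1 * g 2 - g 0 * g 3) / g 2)) d⁻¹
    have g3 : logHeight₁ d⁻¹ = logHeight₁ d := logHeight₁_inv d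
    have g4 := hadd (algebraMap K L (g 2) * x) (algebraMap K L (g 3))
    rw [← hd] at g4
    have g5 := hmul (algebraMap K L (g 2)) x
    have g6 := hc _ e1
    have g7 := hc _ e2
    have g8 := hc _ (e5 2)
    have g9 := hc _ (e5 3)
    have : 0 ≤ n * H := by positivity
    have g10 : n * Real.log 2 + n * Real.log 2 ≤ n * H := by
      have : 2 * Real.log 2 ≤ H := by
        rw [hH]
        have : 0 ≤ ∑ i, logHeight₁ (g i) := Finset.sum_nonneg fun i _ => hn _
        have h1 := hn (g 0 / g 2)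
        have h2 := hn ((g 1 * g 2 - g 0 * g 3) / g 2)
        have h3 := hn (g 0 / g 3)
        have h4 := hn (g 1 / g 3)
        linarith
      nlinarith
    linarith

/-- a generator of a quadratic extension -/
theorem exists_gen {K L : Type} [Field K] [NumberField K] [Field L] [NumberField L] [Algebra K L]
    {σ : L ≃ₐ[K] L} (hσ : Cj σ) :
    ∃ (θ : L) (δ : K), θ ^ 2 = algebraMap K L δ ∧
      (∀ z : L, ∃ c d : K, z = algebraMap K L c + algebraMap K L d * θ) ∧
      ∀ (F : Type) [Field F] [Algebra K F] (s : F), s ^ 2 = algebraMap K F δ →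
        Nonempty (L →ₐ[K] F) := by
  have hfd : FiniteDimensional K L := Module.finite_of_finrank_pos (by rw [hσ.deg]; norm_num)
  have h2L : (2 : L) ≠ 0 := two_ne_zero
  -- a generator
  obtain ⟨z0, hz0⟩ : ∃ z0, σ z0 ≠ z0 := by
    by_contra hcon
    push Not at hcon
    have h1 : (⊤ : Submodule K L) = Submodule.span K {1} := by
      apply le_antisymm
      · intro z _
        obtain ⟨c, hc⟩ := (hσ.fix z).1 (hcon z)
        rw [Submodule.mem_span_singleton]
        exact ⟨c, by rw [Algebra.smul_def, mul_one, hc]⟩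
      · exact le_top
    have h2 := finrank_span_singleton (K := K) (v := (1 : L)) one_ne_zero
    rw [← h1, finrank_top, hσ.deg] at h2
    norm_num at h2
  obtain ⟨θ, hθ⟩ : ∃ θ, θ = z0 - σ z0 := ⟨_, rfl⟩
  have hσθ : σ θ = -θ := by rw [hθ, map_sub, hσ.inv]; ring
  have hθ0 : θ ≠ 0 := by
    rw [hθ]
    exact sub_ne_zero.2 fun h => hz0 h.symm
  obtain ⟨δ, hδ⟩ : θ ^ 2 ∈ Set.range (algebraMap K L) := by
    rw [← hσ.fix, map_pow, hσθ, neg_sq]
  have hθK : θ ∉ Set.range (algebraMap K L) := by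
    rw [← hσ.fix, hσθ]
    intro h
    apply hθ0
    have h3 : 2 * θ = 0 := by linear_combination -h
    exact (mul_eq_zero.1 h3).resolve_left h2L
  have hdec : ∀ z : L, ∃ c d : K, z = algebraMap K L c + algebraMap K L d * θ := by
    intro z
    obtain ⟨c, hc⟩ : (z + σ z) / 2 ∈ Set.range (algebraMap K L) := by
      rw [← hσ.fix, map_div₀, map_add, hσ.inv, map_ofNat, add_comm]
    obtain ⟨d, hd⟩ : (z - σ z) / (2 * θ) ∈ Set.range (algebraMap K L) := by
      rw [← hσ.fix, map_div₀, map_sub, hσ.inv, map_mul, map_ofNat, hσθ, ← neg_sub z, mul_neg,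
        neg_div_neg_eq]
    refine ⟨c, d, ?_⟩
    rw [hc, hd]
    field_simp
    ring
  -- the minimal polynomial
  have hpm : (X ^ 2 - C δ : K[X]).Monic := monic_X_pow_sub_C δ (by norm_num)
  have hpd : (X ^ 2 - C δ : K[X]).natDegree = 2 := natDegree_X_pow_sub_C
  have hpθ : aeval θ (X ^ 2 - C δ : K[X]) = 0 := by
    rw [map_sub, map_pow, aeval_X, aeval_C, hδ, sub_self]
  have hint : IsIntegral K θ := IsIntegral.of_finite K θ
  have hmin : minpoly K θ = X ^ 2 - C δ := by
    have h1 : 2 ≤ (minpoly K θ).natDegree := by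
      rw [minpoly.two_le_natDegree_iff hint]
      exact hθK
    have h2 : minpoly K θ ∣ X ^ 2 - C δ := minpoly.dvd K θ hpθ
    exact (eq_of_monic_of_dvd_of_natDegree_le (minpoly.monic hint) hpm h2
      (by rw [hpd]; exact h1)).symm
  have hdeg : (minpoly K θ).natDegree = Module.finrank K L := by rw [hmin, hpd, hσ.deg]
  have hirr : Irreducible (X ^ 2 - C δ : K[X]) := by
    rw [← hmin]
    exact minpoly.irreducible hint
  refine ⟨θ, δ, hδ.symm, hdec, fun F _ _ s hs => ?_⟩
  have h1 : minpoly K s = X ^ 2 - C δ := by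
    refine (minpoly.eq_of_irreducible_of_monic hirr ?_ hpm).symm
    rw [map_sub, map_pow, aeval_X, aeval_C, hs, sub_self]
  obtain ⟨φ, -⟩ := Pool.Agent.N572.DR.Inv.exists_hom θ s hdeg (by rw [hmin, h1])
  exact ⟨φ⟩

end Pool.Agent.U47.QF
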