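import Mathlib
import Pool.Agent.U47.QF.Hlp

/-!
# The discriminants of the points of curves above quadratic points of an elliptic curve
-/

set_option autoImplicit false
set_option linter.unusedSectionVars false

open WeierstrassCurve Height NumberField IsDedekindDomain Pool.Agent.TH942 Polynomial
open Pool.Agent.U47.QE
open Pool.Agent.Y729.RV (Nr cnt nr_fin cnt_eq nr_iff base_change)

namespace Pool.Agent.U47.QF

open scoped Classical

variable {K : Type} [Field K] [NumberField K]

/-- the ideal of the reduced fibre -/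
noncomputable def fib (k A : Type) [Field k] [CommRing A] [Algebra k A] [Algebra k[X] A]
    (c : k) : Ideal A :=
  (Ideal.span {algebraMap k[X] A X - algebraMap k A c}).radical

theorem fib_ne {k A : Type} [Field k] [CommRing A] [IsDomain A] [Algebra k A] [Algebra k[X] A]
    [IsScalarTower k k[X] A] [FaithfulSMul k[X] A] (c : k) : fib k A c ≠ ⊥ := by
  intro h
  have h1 : algebraMap k[X] A X - algebraMap k A c ∈ fib k A c :=
    Ideal.le_radical (Ideal.mem_span_singleton_self _)
  rw [h, Ideal.mem_bot, IsScalarTower.algebraMap_apply k k[X] A, ← map_sub,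
    map_eq_zero_iff _ (FaithfulSMul.algebraMap_injective k[X] A)] at h1
  exact X_sub_C_ne_zero c h1

/-- the fibres of a cover: the truncated counting function -/
theorem cover (k A : Type) [Field k] [NumberField k] [CommRing A] [IsDedekindDomain A]
    [Algebra k A] [Algebra k[X] A] [IsScalarTower k k[X] A] [Module.Finite k[X] A]
    [FaithfulSMul k[X] A] {q : ℕ} (hq : 1 ≤ q) (α : Fin q → k) (ε : ℝ) (hε : 0 < ε) :
    ∃ (T : Finset ℕ) (C : ℝ), (∀ p ∈ T, p ≠ 0) ∧ 0 ≤ C ∧
      ∀ (L : Type) [Field L] [NumberField L] [Algebra k L] (φ : A →ₐ[k] L),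
        logHeight₁ (φ (algebraMap k[X] A X)) ≤ Module.finrank ℚ L * C ∨
        ((∀ j, φ (algebraMap k[X] A X) ≠ algebraMap k L (α j)) ∧
        cnt T α (φ (algebraMap k[X] A X)) ≤
          ((∑ j, (Module.finrank k (A ⧸ fib k A (α j)) : ℝ)) / Module.finrank k[X] A + ε) *
            logHeight₁ (φ (algebraMap k[X] A X)) + Module.finrank ℚ L * C) := by
  obtain ⟨M, C, G, hM, hC, hG, hkey⟩ := Pool.Agent.Y729.RV.keyK Pool.Agent.Y728.MN.partNB
    Pool.Agent.W460.AC.t Pool.Agent.W989.AC.MULT.t Pool.Agent.W597.AC.t k A hq α (fun _ => 1)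
      (fun _ _ => (1 : A)) (fun j => fib k A (α j)) (fun j => fib_ne _) (fun j i e he => by
        rw [one_mul]
        exact he) ε hε
  obtain ⟨C3, hC3, hbdd⟩ := Pool.Agent.N753.DR.bdd (k := k) G hG
  have hαn : ∀ j, 0 ≤ logHeight₁ (α j) := fun j => zero_le_logHeight₁ _
  refine ⟨M.primeFactors, C + C3 + ∑ j, logHeight₁ (α j), ?_, ?_, ?_⟩
  · intro p hp
    exact (Nat.prime_of_mem_primeFactors hp).ne_zero
  · have : 0 ≤ ∑ j, logHeight₁ (α j) := Finset.sum_nonneg fun j _ => hαn j
    positivity
  intro L _ _ _ φ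
  have hs : 0 ≤ ∑ j, logHeight₁ (α j) := Finset.sum_nonneg fun j _ => hαn j
  have hnL : (0 : ℝ) ≤ Module.finrank ℚ L := Nat.cast_nonneg _
  obtain ⟨t, ht⟩ : ∃ t, t = φ (algebraMap k[X] A X) := ⟨_, rfl⟩
  by_cases hGt : aeval t G ≠ 0
  · by_cases hne : ∀ j, t ≠ algebraMap k L (α j)
    · right
      rw [← ht]
      refine ⟨hne, ?_⟩
      have h1 := hkey ∅ L φ (by rw [← ht]; exact hGt) (by rw [← ht]; exact hne)
      rw [← ht, Finset.empty_union] at h1
      have h2 : Pool.Agent.W223.CV.cc ∅ (fun v : HeightOneSpectrum (𝓞 L) =>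
          v.valuation L t ≤ 1 ∧ ∃ j, v.valuation L (t - algebraMap k L (α j)) < 1 ∧
            ∀ _i : Fin 1, v.valuation L (φ (1 : A)) < 1) = 0 := by
        unfold Pool.Agent.W223.CV.cc
        rw [finsum_eq_zero_of_forall_eq_zero]
        intro v
        unfold Pool.Agent.W223.CV.ct
        refine if_neg ?_
        rintro ⟨-, -, j, -, h⟩
        have h3 := h 0
        rw [map_one, map_one] at h3
        exact lt_irrefl _ h3
      rw [h2, zero_add] at h1
      refine h1.trans ?_
      have h3 : Real.log (Height.mulHeight₁ t) = logHeight₁ t := rfl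
      rw [h3]
      have h4 : (Module.finrank ℚ L : ℝ) * C ≤
          Module.finrank ℚ L * (C + C3 + ∑ j, logHeight₁ (α j)) :=
        mul_le_mul_of_nonneg_left (by linarith) hnL
      linarith
    · left
      push Not at hne
      obtain ⟨j, hj⟩ := hne
      rw [← ht, hj, Pool.Agent.N572.DR.Inv.ht_ext]
      have f1 : FiniteDimensional k L := FiniteDimensional.right ℚ k L
      have h1 := Module.finrank_mul_finrank ℚ k L
      have h2 : 0 < Module.finrank ℚ k := Module.finrank_pos
      have h3 : Module.finrank k L ≤ Module.finrank ℚ L := by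
        rw [← h1]
        exact Nat.le_mul_of_pos_left _ h2
      have h4 : (Module.finrank k L : ℝ) ≤ Module.finrank ℚ L := by exact_mod_cast h3
      have h5 : logHeight₁ (α j) ≤ C + C3 + ∑ j, logHeight₁ (α j) := by
        have := Finset.single_le_sum (f := fun j => logHeight₁ (α j)) (fun j _ => hαn j)
          (Finset.mem_univ j)
        beta_reduce at this
        linarith
      exact mul_le_mul h4 h5 (hαn j) hnL
  · left
    rw [not_not] at hGt
    rw [← ht]
    have f1 : FiniteDimensional k L := FiniteDimensional.right ℚ k L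
    have hfd' : FiniteDimensional k (IntermediateField.adjoin k {t}) :=
      FiniteDimensional.right ℚ k _
    have hg : aeval (IntermediateField.AdjoinSimple.gen k t) G = 0 := by
      apply (algebraMap (IntermediateField.adjoin k {t}) L).injective
      rw [map_zero, ← aeval_algebraMap_apply]
      exact hGt
    have hdeg : (minpoly k (IntermediateField.AdjoinSimple.gen k t)).natDegree =
        Module.finrank k (IntermediateField.adjoin k {t}) := by
      rw [IntermediateField.minpoly_gen,
        IntermediateField.adjoin.finrank (IsIntegral.of_finite k t)]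
    obtain ⟨h1, -⟩ := hbdd (IntermediateField.adjoin k {t})
      (IntermediateField.AdjoinSimple.gen k t) hdeg hg
    rw [Pool.Agent.N753.DR.gen_ht (k := k) t]
    have h2 := Module.finrank_mul_finrank ℚ (IntermediateField.adjoin k {t}) L
    have h3 : 0 < Module.finrank ℚ (IntermediateField.adjoin k {t}) := Module.finrank_pos
    have h4 : Module.finrank (IntermediateField.adjoin k {t}) L ≤ Module.finrank ℚ L := by
      rw [← h2]
      exact Nat.le_mul_of_pos_left _ h3
    have h5 : (Module.finrank (IntermediateField.adjoin k {t}) L : ℝ) ≤ Module.finrank ℚ L := by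
      exact_mod_cast h4
    exact mul_le_mul h5 (by linarith) (zero_le_logHeight₁ _) hnL

/-- the generic part: the fields `K(x, y)` and `k(x, y)` -/
theorem above {k : Type} [Field k] [NumberField k] [Algebra K k]
    {k' : Type} [Field k'] [NumberField k'] [Algebra K k'] [Algebra k k'] [IsScalarTower K k k']
    (g : Fin 4 → K) {q : ℕ} (α : Fin q → k) (D : Finset (Option (k' × k')))
    (T : Finset ℕ) (c : ℝ)
    (hcnt : ∀ (ε : ℝ) (L : Type) [Field L] [NumberField L] [Algebra K L] (x y : L),
      Gd3 (K := K) k' D ε L x y → IsEmpty (L →ₐ[K] k') → Module.finrank K L = 2 →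
      ∀ (M : Type) [Field M] [NumberField M] [Algebra k M] [Algebra K M] [Algebra L M]
        [IsScalarTower K k M] [IsScalarTower K L M], Module.finrank k M = 2 → ∀ t : M,
        algebraMap K M (g 2) * algebraMap L M x + algebraMap K M (g 3) ≠ 0 →
        t * (algebraMap K M (g 2) * algebraMap L M x + algebraMap K M (g 3)) =
          algebraMap K M (g 0) * algebraMap L M x + algebraMap K M (g 1) →
        ∃ V : Finset (Pr M), (∀ v ∈ V, (∀ p ∈ T, (p : 𝓞 M) ∉ v.asIdeal) ∧
          v.valuation M t ≤ 1 ∧ ∃ j, v.valuation M (t - algebraMap k M (α j)) < 1) ∧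
        ((D.card : ℝ) / 2 - ε) * logHeight₁ (algebraMap L M x) ≤
          ∑ v ∈ V, Real.log (Ideal.absNorm v.asIdeal : ℝ) + c)
    {ε : ℝ} {L0 : Type} [Field L0] [NumberField L0] [Algebra K L0] {x0 y0 : L0}
    (hd : Module.finrank K L0 = 2) (hGd : Gd (K := K) k' D ε L0 x0 y0)
    {L : Type} [Field L] [NumberField L] [Algebra K L] [Algebra k L] [IsScalarTower K k L]
    [Algebra L0 L] [IsScalarTower K L0 L] (t : L)
    (hne : ∀ j, t ≠ algebraMap k L (α j))
    (hden : algebraMap K L (g 2) * algebraMap L0 L x0 + algebraMap K L (g 3) ≠ 0)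
    (ht : t * (algebraMap K L (g 2) * algebraMap L0 L x0 + algebraMap K L (g 3)) =
          algebraMap K L (g 0) * algebraMap L0 L x0 + algebraMap K L (g 1)) :
    ((D.card : ℝ) / 2 - ε + (2 - ε)) * logHeight₁ (algebraMap L0 L x0) ≤
      Real.log |(discr L : ℝ)| + cnt T α t + Module.finrank ℚ L * |c| := by
  obtain ⟨hG1, hG2, hG3⟩ := hGd
  obtain ⟨σ, hσ⟩ := exists_conj hd
  obtain ⟨θ, δ, hθ, hdec, hemb⟩ := exists_gen hσ
  obtain ⟨θL, hθL⟩ : ∃ θL, θL = algebraMap L0 L θ := ⟨_, rfl⟩
  have hθL2 : θL ^ 2 = algebraMap k L (algebraMap K k δ) := by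
    rw [hθL, ← map_pow, hθ, ← IsScalarTower.algebraMap_apply K L0 L,
      IsScalarTower.algebraMap_apply K k L]
  have hnot : θL ∉ Set.range (algebraMap k L) := by
    rintro ⟨s, hs⟩
    have h1 : s ^ 2 = algebraMap K k δ := by
      apply (algebraMap k L).injective
      rw [map_pow, hs, hθL2]
    obtain ⟨e⟩ := hemb k s h1
    refine hG2.false ?_
    exact (IsScalarTower.toAlgHom K k k').comp e
  have hfkL : FiniteDimensional k L := FiniteDimensional.right ℚ k L
  have hint : IsIntegral k θL := IsIntegral.of_finite k θL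
  have hmin2 : (minpoly k θL).natDegree = 2 := by
    have h1 : 2 ≤ (minpoly k θL).natDegree := by
      rw [minpoly.two_le_natDegree_iff hint]
      exact hnot
    have h2 : minpoly k θL ∣ X ^ 2 - C (algebraMap K k δ) := minpoly.dvd k θL (by
      rw [map_sub, map_pow, aeval_X, aeval_C, hθL2, sub_self])
    have h3 : (X ^ 2 - C (algebraMap K k δ) : k[X]) ≠ 0 :=
      (monic_X_pow_sub_C (algebraMap K k δ) (by norm_num)).ne_zero
    have h4 := natDegree_le_of_dvd h2 h3
    have h5 : (X ^ 2 - C (algebraMap K k δ) : k[X]).natDegree = 2 := natDegree_X_pow_sub_C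
    omega
  let M : IntermediateField k L := IntermediateField.adjoin k {θL}
  have hMfr : Module.finrank k M = 2 := by
    rw [← hmin2]
    exact IntermediateField.adjoin.finrank hint
  have hθM : θL ∈ M := IntermediateField.mem_adjoin_simple_self k θL
  have hmem : ∀ z : L0, algebraMap L0 L z ∈ M := by
    intro z
    obtain ⟨c', d', hcd⟩ := hdec z
    rw [hcd, map_add, map_mul, ← hθL, ← IsScalarTower.algebraMap_apply K L0 L,
      ← IsScalarTower.algebraMap_apply K L0 L, IsScalarTower.algebraMap_apply K k L,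
      IsScalarTower.algebraMap_apply K k L]
    exact add_mem (M.algebraMap_mem _) (mul_mem (M.algebraMap_mem _) hθM)
  let f0 : L0 →+* M := (algebraMap L0 L).codRestrict M hmem
  let _ : Algebra L0 M := f0.toAlgebra
  have hf0 : ∀ z : L0, ((algebraMap L0 M z : M) : L) = algebraMap L0 L z := fun z => rfl
  let _ : Algebra K M := ((algebraMap k M).comp (algebraMap K k)).toAlgebra
  have hKM : ∀ z : K, algebraMap K M z = algebraMap k M (algebraMap K k z) := fun z => rfl
  have t1 : IsScalarTower K k M := IsScalarTower.of_algebraMap_eq fun z => rfl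
  have hkML : ∀ z : k, ((algebraMap k M z : M) : L) = algebraMap k L z := fun z => rfl
  have hKML : ∀ z : K, ((algebraMap K M z : M) : L) = algebraMap K L z := fun z => by
    rw [hKM, hkML, ← IsScalarTower.algebraMap_apply K k L]
  have t2 : IsScalarTower K L0 M := IsScalarTower.of_algebraMap_eq fun z => by
    apply Subtype.ext
    rw [hKML, hf0, ← IsScalarTower.algebraMap_apply K L0 L]
  have t3 : IsScalarTower L0 M L := IsScalarTower.of_algebraMap_eq fun z => rfl
  have hML : ∀ z : M, algebraMap M L z = (z : L) := fun z => rfl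
  obtain ⟨tM, htM⟩ : ∃ tM : M, (tM : L) = t := by
    refine ⟨(algebraMap K M (g 0) * algebraMap L0 M x0 + algebraMap K M (g 1)) /
      (algebraMap K M (g 2) * algebraMap L0 M x0 + algebraMap K M (g 3)), ?_⟩
    push_cast
    rw [hKML, hKML, hKML, hKML, hf0, ← ht, mul_div_assoc, div_self hden, mul_one]
  obtain ⟨V, hV1, hV2⟩ := hcnt ε L0 x0 y0 hG3 hG2 hd M hMfr tM (by
    intro h0
    apply hden
    have h1 := congrArg (fun z : M => (z : L)) h0
    beta_reduce at h1
    push_cast at h1
    rw [hKML, hKML, hf0] at h1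
    exact h1) (by
    apply Subtype.ext
    push_cast
    rw [hKML, hKML, hKML, hKML, hf0, htM]
    exact ht)
  have hb := base_change (k := M) (L := L) V (nr_fin T hne).toFinset (by
    intro v hv w hw
    rw [Set.Finite.mem_toFinset]
    have h1 : Nr T α tM v := hV1 v hv
    have h2 := (nr_iff (L := L) T α tM v w).2 h1
    rwa [hML, htM] at h2)
  rw [← cnt_eq T hne] at hb
  have hf1 : FiniteDimensional L0 M := FiniteDimensional.right ℚ L0 M
  have hf2 : FiniteDimensional M L := FiniteDimensional.right ℚ M L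
  have hdt := disc_tower (F := L0) (M := M)
  have hhM : logHeight₁ (algebraMap L0 M x0) = Module.finrank L0 M * logHeight₁ x0 :=
    Pool.Agent.N572.DR.Inv.ht_ext x0
  have hhL : logHeight₁ (algebraMap L0 L x0) =
      Module.finrank M L * logHeight₁ (algebraMap L0 M x0) := by
    rw [← Pool.Agent.N572.DR.Inv.ht_ext, ← IsScalarTower.algebraMap_apply L0 M L]
  have hnn : (0 : ℝ) ≤ Module.finrank L0 M := Nat.cast_nonneg _
  have hnm : (0 : ℝ) ≤ Module.finrank M L := Nat.cast_nonneg _
  have h1 : (2 - ε) * logHeight₁ (algebraMap L0 M x0) ≤ Real.log |(discr M : ℝ)| := by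
    rw [hhM]
    have := mul_le_mul_of_nonneg_left hG1 hnn
    nlinarith
  have h2 : ((D.card : ℝ) / 2 - ε + (2 - ε)) * logHeight₁ (algebraMap L0 M x0) - c ≤
      Real.log |(discr M : ℝ)| + ∑ v ∈ V, Real.log (Ideal.absNorm v.asIdeal : ℝ) := by
    nlinarith
  have h3 := (mul_le_mul_of_nonneg_left h2 hnm).trans hb
  rw [hhL]
  have h4 : (Module.finrank M L : ℝ) * c ≤ Module.finrank ℚ L * |c| := by
    have h5 : (Module.finrank M L : ℝ) ≤ Module.finrank ℚ L := by
      have h6 := Module.finrank_mul_finrank ℚ M L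
      have h7 : 0 < Module.finrank ℚ M := Module.finrank_pos
      have h8 : Module.finrank M L ≤ Module.finrank ℚ L := by
        rw [← h6]
        exact Nat.le_mul_of_pos_left _ h7
      exact_mod_cast h8
    exact (mul_le_mul_of_nonneg_left (le_abs_self c) hnm).trans
      (mul_le_mul_of_nonneg_right h5 (abs_nonneg c))
  nlinarith

/-- **the curves above the quadratic points of an elliptic curve** -/
theorem main (a b : 𝓞 K) (hab : 4 * (a : K) ^ 3 + 27 * (b : K) ^ 2 ≠ 0) :
    ∃ E : Set (EP (a : K) (b : K) (AlgebraicClosure K)), Ngl (QQ (a : K) (b : K)) E ∧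
      (∀ κ : ℝ, 0 < κ → ∃ c : ℝ, ∀ (L : Type) [Field L] [NumberField L] [Algebra K L]
          (ι : L →ₐ[K] AlgebraicClosure K) (x y : L)
          (h : (sw (algebraMap K L (a : K)) (algebraMap K L (b : K))).toAffine.Nonsingular x y),
          Module.finrank K L = 2 →
          ¬ (x ∈ Set.range (algebraMap K L) ∧ y ∈ Set.range (algebraMap K L)) →
          mp (a : K) (b : K) ι (Affine.Point.some x y h) ∉ E →
          (2 - κ) * logHeight₁ x ≤ Real.log |(discr L : ℝ)| + c) ∧
      ∀ (k : Type) [Field k] [NumberField k] [Algebra K k] (g : Fin 4 → K),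
        g 0 * g 3 - g 1 * g 2 ≠ 0 → ∀ (q : ℕ) (α : Fin q → k), 1 ≤ q → Function.Injective α →
        (∀ (ι : k →ₐ[K] AlgebraicClosure K) (j : Fin q), Sml a b g (ι (α j))) →
        ∀ (A : Type) [CommRing A] [IsDedekindDomain A]
        [Algebra k A] [Algebra k[X] A] [IsScalarTower k k[X] A] [Module.Finite k[X] A]
        [FaithfulSMul k[X] A] (κ : ℝ), 0 < κ →
        ∃ c : ℝ, ∀ (L : Type) [Field L] [NumberField L] [Algebra K L] [Algebra k L]
          [IsScalarTower K k L] (φ : A →ₐ[k] L) (ι : L →ₐ[K] AlgebraicClosure K) (x y : L)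
          (h : (sw (algebraMap K L (a : K)) (algebraMap K L (b : K))).toAffine.Nonsingular x y),
          Module.finrank K (IntermediateField.adjoin K {x, y}) = 2 →
          mp (a : K) (b : K) ι (Affine.Point.some x y h) ∉ E →
          algebraMap K L (g 2) * x + algebraMap K L (g 3) ≠ 0 →
          φ (algebraMap k[X] A X) * (algebraMap K L (g 2) * x + algebraMap K L (g 3)) =
            algebraMap K L (g 0) * x + algebraMap K L (g 1) →
          ((q : ℝ) - (∑ j, (Module.finrank k (A ⧸ fib k A (α j)) : ℝ)) /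
              Module.finrank k[X] A - κ) * logHeight₁ (φ (algebraMap k[X] A X)) ≤
            Real.log |(discr L : ℝ)| + Module.finrank ℚ L * c := by
  obtain ⟨E, hE1, hE2⟩ := final2 a b hab
  refine ⟨E, hE1, ?_, ?_⟩
  · intro κ hκ
    obtain ⟨X0, hX⟩ := hE2 K ∅ ⟨fun R hR => absurd hR (Finset.notMem_empty R),
      fun u t hut => absurd hut (Finset.notMem_empty _)⟩ κ hκ
    refine ⟨2 * |X0|, ?_⟩
    intro L _ _ _ ι x y h h1 h2 h3
    have h0 : 0 ≤ logHeight₁ x := zero_le_logHeight₁ x
    rcases le_or_gt (logHeight₁ x) X0 with hle | hgt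
    · have h4 := le_abs_self X0
      have h5 := Pool.Agent.N753.DR.ldiscr_nonneg L
      nlinarith
    · have h4 := (hX L ι x y h h1 h2 h3 hgt).1
      have h5 := abs_nonneg X0
      linarith
  intro k _ _ _ g hg q α hq hα hsml A _ _ _ _ _ _ _ κ hκ
  obtain ⟨ε, hεd⟩ : ∃ ε : ℝ, ε = min (1 / 2) (κ / 3) := ⟨_, rfl⟩
  have hε0 : 0 < ε := by rw [hεd]; exact lt_min (by norm_num) (by positivity)
  have hε1 : ε ≤ 1 / 2 := by rw [hεd]; exact min_le_left _ _
  have hε2 : 3 * ε ≤ κ := by
    have : ε ≤ κ / 3 := by rw [hεd]; exact min_le_right _ _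
    linarith
  obtain ⟨k', _, _, _, _, _, D, hDv, hDab, hDc⟩ := exists_div a b k g hg α hα hsml
  obtain ⟨T, C0, hT, hC0, hcov⟩ := cover k A hq α ε hε0
  obtain ⟨c1, hc1, hcnt⟩ := countM g α D hDab T hT
  obtain ⟨X0, hX⟩ := hE2 k' D hDv ε hε0
  obtain ⟨C, hC, hmob⟩ := mob_ht g hg
  obtain ⟨S, hS⟩ : ∃ S : ℝ, S = (∑ j, (Module.finrank k (A ⧸ fib k A (α j)) : ℝ)) /
    Module.finrank k[X] A := ⟨_, rfl⟩
  have hS0 : 0 ≤ S := by
    rw [hS]
    positivity
  rw [← hS] at hcov
  rw [← hS]
  have hq1 : (1 : ℝ) ≤ q := by exact_mod_cast hq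
  refine ⟨C0 + c1 + q * C + q * (|X0| + C) + q * C0, ?_⟩
  intro L _ _ _ _ _ φ ι x y h hdeg hexc hden ht
  obtain ⟨t, htd⟩ : ∃ t, t = φ (algebraMap k[X] A X) := ⟨_, rfl⟩
  have hcov' := hcov L φ
  rw [← htd] at hcov' ht ⊢
  have hnL : (0 : ℝ) ≤ Module.finrank ℚ L := Nat.cast_nonneg _
  have hdL := Pool.Agent.N753.DR.ldiscr_nonneg L
  have hht := hmob L x t hden ht
  have ht0 : 0 ≤ logHeight₁ t := zero_le_logHeight₁ t
  have hx0 : 0 ≤ logHeight₁ x := zero_le_logHeight₁ x
  have haX := abs_nonneg X0
  -- small heights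
  have hsmall : ∀ B : ℝ, 0 ≤ B → logHeight₁ t ≤ Module.finrank ℚ L * B →
      (q - S - κ) * logHeight₁ t ≤ Real.log |(discr L : ℝ)| + Module.finrank ℚ L * (q * B) := by
    intro B hB hle
    have h1 : (q - S - κ) * logHeight₁ t ≤ q * logHeight₁ t :=
      mul_le_mul_of_nonneg_right (by linarith) ht0
    have h2 : (q : ℝ) * logHeight₁ t ≤ q * (Module.finrank ℚ L * B) :=
      mul_le_mul_of_nonneg_left hle (by linarith)
    nlinarith
  have hmono : ∀ B B' : ℝ, B ≤ B' → (Module.finrank ℚ L : ℝ) * B ≤ Module.finrank ℚ L * B' :=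
    fun B B' hB => mul_le_mul_of_nonneg_left hB hnL
  rcases hcov' with hsm | ⟨hne, hcn⟩
  · refine (hsmall C0 hC0 hsm).trans ?_
    have h1 := hmono (q * C0) (C0 + c1 + q * C + q * (|X0| + C) + q * C0) (by
      have : 0 ≤ q * C := by positivity
      have : 0 ≤ q * (|X0| + C) := by positivity
      linarith)
    linarith
  · -- the field `K(x, y)`
    obtain ⟨L0, hL0⟩ : ∃ L0 : IntermediateField K L, L0 = IntermediateField.adjoin K {x, y} :=
      ⟨_, rfl⟩
    have hxm : x ∈ L0 := by
      rw [hL0]
      exact IntermediateField.subset_adjoin K _ (Set.mem_insert _ _)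
    have hym : y ∈ L0 := by
      rw [hL0]
      exact IntermediateField.subset_adjoin K _ (Set.mem_insert_of_mem _ rfl)
    rw [← hL0] at hdeg
    obtain ⟨x0, hx0d⟩ : ∃ x0 : L0, (x0 : L) = x := ⟨⟨x, hxm⟩, rfl⟩
    obtain ⟨y0, hy0d⟩ : ∃ y0 : L0, (y0 : L) = y := ⟨⟨y, hym⟩, rfl⟩
    have hxa : algebraMap L0 L x0 = x := hx0d
    have hfd : FiniteDimensional L0 L :=
      FiniteDimensional.right ℚ _ L
    have hhx : logHeight₁ x = Module.finrank L0 L *
        logHeight₁ x0 := by
      have h1 := Pool.Agent.N572.DR.Inv.ht_ext (L := L0) (M := L) x0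
      rwa [hxa] at h1
    rcases le_or_gt (logHeight₁ x0) X0 with hle | hgt
    · have h1 : logHeight₁ x ≤ Module.finrank ℚ L * |X0| := by
        rw [hhx]
        have h6 := Module.finrank_mul_finrank ℚ L0 L
        have h7 : 0 < Module.finrank ℚ L0 := Module.finrank_pos
        have h8 : Module.finrank L0 L ≤ Module.finrank ℚ L := by
          rw [← h6]
          exact Nat.le_mul_of_pos_left _ h7
        have h9 : (Module.finrank L0 L : ℝ) ≤
          Module.finrank ℚ L := by exact_mod_cast h8
        exact mul_le_mul h9 (hle.trans (le_abs_self X0)) (zero_le_logHeight₁ x0) hnL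
      have h2 : logHeight₁ t ≤ Module.finrank ℚ L * (|X0| + C) := by
        rw [mul_add]
        linarith
      refine (hsmall (|X0| + C) (by positivity) h2).trans ?_
      have h1 := hmono (q * (|X0| + C)) (C0 + c1 + q * C + q * (|X0| + C) + q * C0) (by
        have : 0 ≤ q * C := by positivity
        have : 0 ≤ q * C0 := by positivity
        linarith)
      linarith
    · have heq : y0 ^ 2 = x0 ^ 3 + algebraMap K _ (a : K) * x0 + algebraMap K _ (b : K) := by
        apply (algebraMap L0 L).injective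
        have h1 := eqL h
        simp only [map_add, map_mul, map_pow, ← IsScalarTower.algebraMap_apply]
        rw [hxa, show algebraMap L0 L y0 = y from hy0d]
        exact h1
      have hns : (sw (algebraMap K L0 (a : K))
          (algebraMap K L0 (b : K))).toAffine.Nonsingular x0 y0 :=
        sw_nonsing (disc_ne hab _) heq
      have hnr : ¬ (x0 ∈ Set.range (algebraMap K L0) ∧
          y0 ∈ Set.range (algebraMap K L0)) := by
        rintro ⟨⟨x1, hx1⟩, ⟨y1, hy1⟩⟩
        have h1 : L0 = ⊥ := by
          rw [hL0, IntermediateField.adjoin_eq_bot_iff]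
          rintro z hz
          rw [Set.mem_insert_iff, Set.mem_singleton_iff] at hz
          rw [SetLike.mem_coe, IntermediateField.mem_bot]
          rcases hz with rfl | rfl
          · exact ⟨x1, by rw [← hx0d, ← hx1]; rfl⟩
          · exact ⟨y1, by rw [← hy0d, ← hy1]; rfl⟩
        rw [h1, IntermediateField.finrank_bot] at hdeg
        norm_num at hdeg
      have hGd := hX L0
        (ι.comp (IntermediateField.val _)) x0 y0 hns hdeg hnr (by
          rw [mp_some] at hexc ⊢
          intro h1
          apply hexc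
          have h2 : (ι.comp (IntermediateField.val _)) x0 = ι x := by
            rw [← hx0d]
            rfl
          have h3 : (ι.comp (IntermediateField.val _)) y0 = ι y := by
            rw [← hy0d]
            rfl
          simp only [h2, h3] at h1
          exact h1) hgt
      have hmain := above g α D T c1 hcnt hdeg hGd t hne (by rw [hxa]; exact hden)
        (by rw [hxa]; exact ht)
      rw [hxa, abs_of_nonneg hc1] at hmain
      have h1 : (q - 2 * ε) * logHeight₁ x ≤ ((D.card : ℝ) / 2 - ε + (2 - ε)) * logHeight₁ x :=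
        mul_le_mul_of_nonneg_right (by linarith) hx0
      have h2 : (q - 2 * ε) * logHeight₁ t ≤
          (q - 2 * ε) * (logHeight₁ x + Module.finrank ℚ L * C) :=
        mul_le_mul_of_nonneg_left hht (by linarith)
      have h3 : (q - 2 * ε) * (Module.finrank ℚ L * C) ≤ q * (Module.finrank ℚ L * C) :=
        mul_le_mul_of_nonneg_right (by linarith) (by positivity)
      have h4 := mul_le_mul_of_nonneg_right hε2 ht0
      have h5 := hmono (C0 + c1 + q * C) (C0 + c1 + q * C + q * (|X0| + C) + q * C0) (by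
        have : 0 ≤ q * (|X0| + C) := by positivity
        have : 0 ≤ q * C0 := by positivity
        linarith)
      nlinarith

end Pool.Agent.U47.QF
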