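import Mathlib
import Pool.Agent.U47.QF.Main

/-!
# The truncated counting functions of the points of curves above quadratic points
-/

set_option autoImplicit false
set_option linter.unusedSectionVars false

open WeierstrassCurve Height NumberField IsDedekindDomain Pool.Agent.TH942 Polynomial
open Pool.Agent.U47.QE
open Pool.Agent.Y729.RV (Nr cnt nr_fin cnt_eq nr_iff base_change)

namespace Pool.Agent.U47.QF

open scoped Classical

variable {K : Type} [Field K] [NumberField K]

/-- the fibres of a cover: the truncated counting functions -/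
theorem coverT (k A : Type) [Field k] [NumberField k] [CommRing A] [IsDedekindDomain A]
    [Algebra k A] [Algebra k[X] A] [IsScalarTower k k[X] A] [Module.Finite k[X] A]
    [FaithfulSMul k[X] A] {q : ℕ} (hq : 1 ≤ q) (α : Fin q → k) (u : Fin q → ℕ)
    (y : ∀ j, Fin (u j) → A) (F : Fin q → Ideal A) (hF : ∀ j, F j ≠ ⊥)
    (hyF : ∀ j i, ∀ f ∈ F j, y j i * f ∈ fib k A (α j)) (S : Finset ℕ) (hS : ∀ p ∈ S, p ≠ 0)
    (ε : ℝ) (hε : 0 < ε) :
    ∃ (T : Finset ℕ) (C : ℝ), (∀ p ∈ T, p ≠ 0) ∧ 0 ≤ C ∧
      ∀ (L : Type) [Field L] [NumberField L] [Algebra k L] (φ : A →ₐ[k] L),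
        logHeight₁ (φ (algebraMap k[X] A X)) ≤ Module.finrank ℚ L * C ∨
        ((∀ j, φ (algebraMap k[X] A X) ≠ algebraMap k L (α j)) ∧
        cnt T α (φ (algebraMap k[X] A X)) ≤
          Pool.Agent.W223.CV.cc S (fun v : HeightOneSpectrum (𝓞 L) =>
            v.valuation L (φ (algebraMap k[X] A X)) ≤ 1 ∧
            ∃ j, v.valuation L (φ (algebraMap k[X] A X) - algebraMap k L (α j)) < 1 ∧
              ∀ i, v.valuation L (φ (y j i)) < 1) +
          ((∑ j, (Module.finrank k (A ⧸ F j) : ℝ)) / Module.finrank k[X] A + ε) *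
            logHeight₁ (φ (algebraMap k[X] A X)) + Module.finrank ℚ L * C) := by
  obtain ⟨M, C, G, hM, hC, hG, hkey⟩ := Pool.Agent.Y729.RV.keyK Pool.Agent.Y728.MN.partNB
    Pool.Agent.W460.AC.t Pool.Agent.W989.AC.MULT.t Pool.Agent.W597.AC.t k A hq α u y F hF
      (fun j i e he => hyF j i e he) ε hε
  obtain ⟨C3, hC3, hbdd⟩ := Pool.Agent.N753.DR.bdd (k := k) G hG
  have hαn : ∀ j, 0 ≤ logHeight₁ (α j) := fun j => zero_le_logHeight₁ _
  refine ⟨S ∪ M.primeFactors, C + C3 + ∑ j, logHeight₁ (α j), ?_, ?_, ?_⟩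
  · intro p hp
    rw [Finset.mem_union] at hp
    rcases hp with hp | hp
    · exact hS p hp
    · exact (Nat.prime_of_mem_primeFactors hp).ne_zero
  · have : 0 ≤ ∑ j, logHeight₁ (α j) := Finset.sum_nonneg fun j _ => hαn j
    positivity
  intro L _ _ _ φ
  have hs : 0 ≤ ∑ j, logHeight₁ (α j) := Finset.sum_nonneg fun j _ => hαn j
  have hnL : (0 : ℝ) ≤ Module.finrank ℚ L := Nat.cast_nonneg _
  obtain ⟨t, ht⟩ : ∃ t, t = φ (algebraMap k[X] A X) := ⟨_, rfl⟩
  by_cases hGt : aeval t G ≠ 0
  · by_cases hne : ∀ j, t ≠ algebraMap k L (α j)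
    · right
      rw [← ht]
      refine ⟨hne, ?_⟩
      have h1 := hkey S L φ (by rw [← ht]; exact hGt) (by rw [← ht]; exact hne)
      rw [← ht] at h1
      refine h1.trans ?_
      have h3 : Real.log (Height.mulHeight₁ t) = logHeight₁ t := rfl
      rw [h3]
      have h4 : (Module.finrank ℚ L : ℝ) * C ≤
          Module.finrank ℚ L * (C + C3 + ∑ j, logHeight₁ (α j)) :=
        mul_le_mul_of_nonneg_left (by linarith) hnL
      linarith
    · left
      push Not at hne
      obtain ⟨j, hj⟩ := hne
      rw [← ht, hj, Pool.Agent.N572.DR.Inv.ht_ext]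
      have f1 : FiniteDimensional k L := FiniteDimensional.right ℚ k L
      have h1 := Module.finrank_mul_finrank ℚ k L
      have h2 : 0 < Module.finrank ℚ k := Module.finrank_pos
      have h3 : Module.finrank k L ≤ Module.finrank ℚ L := by
        rw [← h1]
        exact Nat.le_mul_of_pos_left _ h2
      have h4 : (Module.finrank k L : ℝ) ≤ Module.finrank ℚ L := by exact_mod_cast h3
      have h5 : logHeight₁ (α j) ≤ C + C3 + ∑ j, logHeight₁ (α j) := by
        have := Finset.single_le_sum (f := fun j => logHeight₁ (α j)) (fun j _ => hαn j)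
          (Finset.mem_univ j)
        beta_reduce at this
        linarith
      exact mul_le_mul h4 h5 (hαn j) hnL
  · left
    rw [not_not] at hGt
    rw [← ht]
    have f1 : FiniteDimensional k L := FiniteDimensional.right ℚ k L
    have hfd' : FiniteDimensional k (IntermediateField.adjoin k {t}) :=
      FiniteDimensional.right ℚ k _
    have hg : aeval (IntermediateField.AdjoinSimple.gen k t) G = 0 := by
      apply (algebraMap (IntermediateField.adjoin k {t}) L).injective
      rw [map_zero, ← aeval_algebraMap_apply]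
      exact hGt
    have hdeg : (minpoly k (IntermediateField.AdjoinSimple.gen k t)).natDegree =
        Module.finrank k (IntermediateField.adjoin k {t}) := by
      rw [IntermediateField.minpoly_gen,
        IntermediateField.adjoin.finrank (IsIntegral.of_finite k t)]
    obtain ⟨h1, -⟩ := hbdd (IntermediateField.adjoin k {t})
      (IntermediateField.AdjoinSimple.gen k t) hdeg hg
    rw [Pool.Agent.N753.DR.gen_ht (k := k) t]
    have h2 := Module.finrank_mul_finrank ℚ (IntermediateField.adjoin k {t}) L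
    have h3 : 0 < Module.finrank ℚ (IntermediateField.adjoin k {t}) := Module.finrank_pos
    have h4 : Module.finrank (IntermediateField.adjoin k {t}) L ≤ Module.finrank ℚ L := by
      rw [← h2]
      exact Nat.le_mul_of_pos_left _ h3
    have h5 : (Module.finrank (IntermediateField.adjoin k {t}) L : ℝ) ≤ Module.finrank ℚ L := by
      exact_mod_cast h4
    exact mul_le_mul h5 (by linarith) (zero_le_logHeight₁ _) hnL

theorem cc_nonneg {L : Type} [Field L] [NumberField L] (S : Finset ℕ)
    (A : HeightOneSpectrum (𝓞 L) → Prop) : 0 ≤ Pool.Agent.W223.CV.cc S A := by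
  unfold Pool.Agent.W223.CV.cc
  refine finsum_nonneg fun v => ?_
  unfold Pool.Agent.W223.CV.ct
  split_ifs
  · exact Real.log_natCast_nonneg _
  · exact le_rfl

/-- **truncated counting functions on the curves above the quadratic points of an elliptic
curve** -/
theorem mainT (a b : 𝓞 K) (hab : 4 * (a : K) ^ 3 + 27 * (b : K) ^ 2 ≠ 0) :
    ∃ E : Set (EP (a : K) (b : K) (AlgebraicClosure K)), Ngl (QQ (a : K) (b : K)) E ∧
      ∀ (k : Type) [Field k] [NumberField k] [Algebra K k] (g : Fin 4 → K),
        g 0 * g 3 - g 1 * g 2 ≠ 0 → ∀ (q : ℕ) (α : Fin q → k), 1 ≤ q → Function.Injective α →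
        (∀ (ι : k →ₐ[K] AlgebraicClosure K) (j : Fin q), Sml a b g (ι (α j))) →
        ∀ (A : Type) [CommRing A] [IsDedekindDomain A]
        [Algebra k A] [Algebra k[X] A] [IsScalarTower k k[X] A] [Module.Finite k[X] A]
        [FaithfulSMul k[X] A] (u : Fin q → ℕ) (z : ∀ j, Fin (u j) → A) (F : Fin q → Ideal A),
        (∀ j, F j ≠ ⊥) → (∀ j i, ∀ f ∈ F j, z j i * f ∈ fib k A (α j)) →
        ∀ (S : Finset ℕ), (∀ p ∈ S, p ≠ 0) → ∀ (κ : ℝ), 0 < κ →
        ∃ c : ℝ, ∀ (L : Type) [Field L] [NumberField L] [Algebra K L] [Algebra k L]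
          [IsScalarTower K k L] (φ : A →ₐ[k] L) (ι : L →ₐ[K] AlgebraicClosure K) (x y : L)
          (h : (sw (algebraMap K L (a : K)) (algebraMap K L (b : K))).toAffine.Nonsingular x y),
          Module.finrank K (IntermediateField.adjoin K {x, y}) = 2 →
          mp (a : K) (b : K) ι (Affine.Point.some x y h) ∉ E →
          algebraMap K L (g 2) * x + algebraMap K L (g 3) ≠ 0 →
          φ (algebraMap k[X] A X) * (algebraMap K L (g 2) * x + algebraMap K L (g 3)) =
            algebraMap K L (g 0) * x + algebraMap K L (g 1) →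
          ((q : ℝ) - (∑ j, (Module.finrank k (A ⧸ F j) : ℝ)) /
              Module.finrank k[X] A - κ) * logHeight₁ (φ (algebraMap k[X] A X)) ≤
            Pool.Agent.W223.CV.cc S (fun v : HeightOneSpectrum (𝓞 L) =>
              v.valuation L (φ (algebraMap k[X] A X)) ≤ 1 ∧
              ∃ j, v.valuation L (φ (algebraMap k[X] A X) - algebraMap k L (α j)) < 1 ∧
                ∀ i, v.valuation L (φ (z j i)) < 1) +
            Real.log |(discr L : ℝ)| + Module.finrank ℚ L * c := by
  obtain ⟨E, hE1, hE2⟩ := final2 a b hab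
  refine ⟨E, hE1, ?_⟩
  intro k _ _ _ g hg q α hq hα hsml A _ _ _ _ _ _ _ u z F hF hzF S hS' κ hκ
  obtain ⟨ε, hεd⟩ : ∃ ε : ℝ, ε = min (1 / 2) (κ / 3) := ⟨_, rfl⟩
  have hε0 : 0 < ε := by rw [hεd]; exact lt_min (by norm_num) (by positivity)
  have hε1 : ε ≤ 1 / 2 := by rw [hεd]; exact min_le_left _ _
  have hε2 : 3 * ε ≤ κ := by
    have : ε ≤ κ / 3 := by rw [hεd]; exact min_le_right _ _
    linarith
  obtain ⟨k', _, _, _, _, _, D, hDv, hDab, hDc⟩ := exists_div a b k g hg α hα hsml
  obtain ⟨T, C0, hT, hC0, hcov⟩ := coverT k A hq α u z F hF hzF S hS' ε hε0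
  obtain ⟨c1, hc1, hcnt⟩ := countM g α D hDab T hT
  obtain ⟨X0, hX⟩ := hE2 k' D hDv ε hε0
  obtain ⟨C, hC, hmob⟩ := mob_ht g hg
  obtain ⟨Q, hQ⟩ : ∃ Q : ℝ, Q = (∑ j, (Module.finrank k (A ⧸ F j) : ℝ)) /
    Module.finrank k[X] A := ⟨_, rfl⟩
  have hQ0 : 0 ≤ Q := by
    rw [hQ]
    positivity
  rw [← hQ] at hcov
  rw [← hQ]
  have hq1 : (1 : ℝ) ≤ q := by exact_mod_cast hq
  refine ⟨C0 + c1 + q * C + q * (|X0| + C) + q * C0, ?_⟩
  intro L _ _ _ _ _ φ ι x y h hdeg hexc hden ht
  obtain ⟨t, htd⟩ : ∃ t, t = φ (algebraMap k[X] A X) := ⟨_, rfl⟩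
  obtain ⟨N, hN⟩ : ∃ N : ℝ, N = Pool.Agent.W223.CV.cc S (fun v : HeightOneSpectrum (𝓞 L) =>
              v.valuation L (φ (algebraMap k[X] A X)) ≤ 1 ∧
              ∃ j, v.valuation L (φ (algebraMap k[X] A X) - algebraMap k L (α j)) < 1 ∧
                ∀ i, v.valuation L (φ (z j i)) < 1) := ⟨_, rfl⟩
  have hN0 : 0 ≤ N := by rw [hN]; exact cc_nonneg _ _
  have hcov' := hcov L φ
  rw [← hN] at hcov' ⊢
  rw [← htd] at hcov' ht ⊢
  have hnL : (0 : ℝ) ≤ Module.finrank ℚ L := Nat.cast_nonneg _
  have hdL := Pool.Agent.N753.DR.ldiscr_nonneg L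
  have hht := hmob L x t hden ht
  have ht0 : 0 ≤ logHeight₁ t := zero_le_logHeight₁ t
  have hx0 : 0 ≤ logHeight₁ x := zero_le_logHeight₁ x
  have haX := abs_nonneg X0
  -- small heights
  have hsmall : ∀ B : ℝ, 0 ≤ B → logHeight₁ t ≤ Module.finrank ℚ L * B →
      (q - Q - κ) * logHeight₁ t ≤ N + Real.log |(discr L : ℝ)| +
        Module.finrank ℚ L * (q * B) := by
    intro B hB hle
    have h1 : (q - Q - κ) * logHeight₁ t ≤ q * logHeight₁ t :=
      mul_le_mul_of_nonneg_right (by linarith) ht0
    have h2 : (q : ℝ) * logHeight₁ t ≤ q * (Module.finrank ℚ L * B) :=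
      mul_le_mul_of_nonneg_left hle (by linarith)
    nlinarith
  have hmono : ∀ B B' : ℝ, B ≤ B' → (Module.finrank ℚ L : ℝ) * B ≤ Module.finrank ℚ L * B' :=
    fun B B' hB => mul_le_mul_of_nonneg_left hB hnL
  rcases hcov' with hsm | ⟨hne, hcn⟩
  · refine (hsmall C0 hC0 hsm).trans ?_
    have h1 := hmono (q * C0) (C0 + c1 + q * C + q * (|X0| + C) + q * C0) (by
      have : 0 ≤ q * C := by positivity
      have : 0 ≤ q * (|X0| + C) := by positivity
      linarith)
    linarith
  · -- the field `K(x, y)`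
    obtain ⟨L0, hL0⟩ : ∃ L0 : IntermediateField K L, L0 = IntermediateField.adjoin K {x, y} :=
      ⟨_, rfl⟩
    have hxm : x ∈ L0 := by
      rw [hL0]
      exact IntermediateField.subset_adjoin K _ (Set.mem_insert _ _)
    have hym : y ∈ L0 := by
      rw [hL0]
      exact IntermediateField.subset_adjoin K _ (Set.mem_insert_of_mem _ rfl)
    rw [← hL0] at hdeg
    obtain ⟨x0, hx0d⟩ : ∃ x0 : L0, (x0 : L) = x := ⟨⟨x, hxm⟩, rfl⟩
    obtain ⟨y0, hy0d⟩ : ∃ y0 : L0, (y0 : L) = y := ⟨⟨y, hym⟩, rfl⟩
    have hxa : algebraMap L0 L x0 = x := hx0d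
    have hfd : FiniteDimensional L0 L :=
      FiniteDimensional.right ℚ _ L
    have hhx : logHeight₁ x = Module.finrank L0 L *
        logHeight₁ x0 := by
      have h1 := Pool.Agent.N572.DR.Inv.ht_ext (L := L0) (M := L) x0
      rwa [hxa] at h1
    rcases le_or_gt (logHeight₁ x0) X0 with hle | hgt
    · have h1 : logHeight₁ x ≤ Module.finrank ℚ L * |X0| := by
        rw [hhx]
        have h6 := Module.finrank_mul_finrank ℚ L0 L
        have h7 : 0 < Module.finrank ℚ L0 := Module.finrank_pos
        have h8 : Module.finrank L0 L ≤ Module.finrank ℚ L := by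
          rw [← h6]
          exact Nat.le_mul_of_pos_left _ h7
        have h9 : (Module.finrank L0 L : ℝ) ≤
          Module.finrank ℚ L := by exact_mod_cast h8
        exact mul_le_mul h9 (hle.trans (le_abs_self X0)) (zero_le_logHeight₁ x0) hnL
      have h2 : logHeight₁ t ≤ Module.finrank ℚ L * (|X0| + C) := by
        rw [mul_add]
        linarith
      refine (hsmall (|X0| + C) (by positivity) h2).trans ?_
      have h1 := hmono (q * (|X0| + C)) (C0 + c1 + q * C + q * (|X0| + C) + q * C0) (by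
        have : 0 ≤ q * C := by positivity
        have : 0 ≤ q * C0 := by positivity
        linarith)
      linarith
    · have heq : y0 ^ 2 = x0 ^ 3 + algebraMap K _ (a : K) * x0 + algebraMap K _ (b : K) := by
        apply (algebraMap L0 L).injective
        have h1 := eqL h
        simp only [map_add, map_mul, map_pow, ← IsScalarTower.algebraMap_apply]
        rw [hxa, show algebraMap L0 L y0 = y from hy0d]
        exact h1
      have hns : (sw (algebraMap K L0 (a : K))
          (algebraMap K L0 (b : K))).toAffine.Nonsingular x0 y0 :=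
        sw_nonsing (disc_ne hab _) heq
      have hnr : ¬ (x0 ∈ Set.range (algebraMap K L0) ∧
          y0 ∈ Set.range (algebraMap K L0)) := by
        rintro ⟨⟨x1, hx1⟩, ⟨y1, hy1⟩⟩
        have h1 : L0 = ⊥ := by
          rw [hL0, IntermediateField.adjoin_eq_bot_iff]
          rintro z hz
          rw [Set.mem_insert_iff, Set.mem_singleton_iff] at hz
          rw [SetLike.mem_coe, IntermediateField.mem_bot]
          rcases hz with rfl | rfl
          · exact ⟨x1, by rw [← hx0d, ← hx1]; rfl⟩
          · exact ⟨y1, by rw [← hy0d, ← hy1]; rfl⟩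
        rw [h1, IntermediateField.finrank_bot] at hdeg
        norm_num at hdeg
      have hGd := hX L0
        (ι.comp (IntermediateField.val _)) x0 y0 hns hdeg hnr (by
          rw [mp_some] at hexc ⊢
          intro h1
          apply hexc
          have h2 : (ι.comp (IntermediateField.val _)) x0 = ι x := by
            rw [← hx0d]
            rfl
          have h3 : (ι.comp (IntermediateField.val _)) y0 = ι y := by
            rw [← hy0d]
            rfl
          simp only [h2, h3] at h1
          exact h1) hgt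
      have hmain := above g α D T c1 hcnt hdeg hGd t hne (by rw [hxa]; exact hden)
        (by rw [hxa]; exact ht)
      rw [hxa, abs_of_nonneg hc1] at hmain
      have h1 : (q - 2 * ε) * logHeight₁ x ≤ ((D.card : ℝ) / 2 - ε + (2 - ε)) * logHeight₁ x :=
        mul_le_mul_of_nonneg_right (by linarith) hx0
      have h2 : (q - 2 * ε) * logHeight₁ t ≤
          (q - 2 * ε) * (logHeight₁ x + Module.finrank ℚ L * C) :=
        mul_le_mul_of_nonneg_left hht (by linarith)
      have h3 : (q - 2 * ε) * (Module.finrank ℚ L * C) ≤ q * (Module.finrank ℚ L * C) :=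
        mul_le_mul_of_nonneg_right (by linarith) (by positivity)
      have h4 := mul_le_mul_of_nonneg_right hε2 ht0
      have h5 := hmono (C0 + c1 + q * C) (C0 + c1 + q * C + q * (|X0| + C) + q * C0) (by
        have : 0 ≤ q * (|X0| + C) := by positivity
        have : 0 ≤ q * C0 := by positivity
        linarith)
      nlinarith

end Pool.Agent.U47.QF
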