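import Mathlib
import Pool.Agent.U47.QF.Gen

/-!
# One exceptional set of quadratic points for countably many properties: negligible sets of lines
-/

set_option autoImplicit false
set_option linter.unusedSectionVars false

open WeierstrassCurve Height NumberField IsDedekindDomain Pool.Agent.TH942 Filter Topology
open Pool.Agent.U47.QE

namespace Pool.Agent.U47.QF

open scoped Classical

variable {K : Type} [Field K] [NumberField K]

/-- a set of density zero in `K` -/
def Nsv (E : Set K) : Prop := ∀ δ : ℝ, 0 < δ → ∃ H₀ : ℝ, ∀ H : ℝ, H₀ ≤ H →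
  ((E ∩ {x | logHeight₁ x ≤ H}).ncard : ℝ) ≤ δ * Real.exp (2 * H)

/-- the property `G` holds for the points of trace `s` with few exceptions -/
def OneTs (a b : K) (s : EP a b K) (G : Prd K) : Prop :=
  ∃ (E Z : Set K) (H : ℝ),
    Nsv E ∧ Z.Finite ∧ ∀ (L : Type) [Field L] [NumberField L] [Algebra K L] (σ : L ≃ₐ[K] L)
      (x y : L) (h : (sw (algebraMap K L a) (algebraMap K L b)).toAffine.Nonsingular x y) (l : K),
      Qw s σ (Affine.Point.some x y h : EP a b L) →
      Par s σ (Affine.Point.some x y h : EP a b L) l → l ∉ E → l ∉ Z →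
      H < logHeight₁ x → G L x y

theorem bad_few_gen2 (a b : 𝓞 K) (G : Prd K)
    (s : EP (a : K) (b : K) K) (hG : OneTs (a : K) (b : K) s G) {δ : ℝ}
    (hδ : 0 < δ) : ∃ X₀ : ℝ, ∀ X : ℝ, X₀ ≤ X →
      ((BadG (a : K) (b : K) G s X).ncard : ℝ) ≤ δ * Real.exp X := by
  obtain ⟨E, Z, H, hps, hZ, hgood⟩ := hG
  obtain ⟨CA, hCA, hA⟩ := wtA_card s
  have hWH := (hA H Set.univ).1
  obtain ⟨H₁, hH₁⟩ := hps (δ / 3 / 2 * Real.exp (-CA)) (by positivity)
  -- the sizes
  have hlim2 : Tendsto (fun X : ℝ => (2 * (Z.ncard : ℝ) + (WtA s H Set.univ).ncard) *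
      Real.exp (-X)) atTop (𝓝 ((2 * (Z.ncard : ℝ) + (WtA s H Set.univ).ncard) * 0)) :=
    Real.tendsto_exp_neg_atTop_nhds_zero.const_mul _
  rw [mul_zero] at hlim2
  obtain ⟨X₂, hX₂⟩ := eventually_atTop.1 (hlim2.eventually (gt_mem_nhds (show 0 < δ / 3 by
    positivity)))
  refine ⟨max (max (2 * H₁ - CA) X₂) 0, fun X hX => ?_⟩
  have hX1 : 2 * H₁ - CA ≤ X := (le_max_left _ _).trans ((le_max_left _ _).trans hX)
  have hX2 : X₂ ≤ X := (le_max_right _ _).trans ((le_max_left _ _).trans hX)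
  have hX0 : 0 ≤ X := (le_max_right _ _).trans hX
  have h6 := hX₂ X hX2
  have hexp : Real.exp (-X) * Real.exp X = 1 := by
    rw [← Real.exp_add, neg_add_cancel, Real.exp_zero]
  have hsub : BadG (a : K) (b : K) G s X ⊆
      (WtA s X (E ∪ Z) ∪ WtA s H Set.univ) := by
    rintro p ⟨L, _, _, _, ι, σ, x, y, h, hw, hx, hp, hbad⟩
    obtain ⟨l, hl⟩ := par_exists hw
    by_cases hlEZ : l ∈ E ∪ Z
    · left
      exact ⟨L, _, ‹_›, _, ι, σ, _, l, hw, hl, hlEZ, by rw [QE.sht_some]; exact hx, hp⟩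
    · right
      rw [Set.mem_union] at hlEZ
      push Not at hlEZ
      refine ⟨L, _, ‹_›, _, ι, σ, _, l, hw, hl, trivial, ?_, hp⟩
      by_contra hcon
      apply hbad
      rw [QE.sht_some] at hcon
      push Not at hcon
      exact hgood L σ x y h l hw hl hlEZ.1 hlEZ.2 hcon
  have hAf := hA X (E ∪ Z)
  have hfin := hAf.1.union hWH
  have g1 := (Set.ncard_le_ncard hsub hfin).trans (Set.ncard_union_le _ _)
  have g2 : ((BadG (a : K) (b : K) G s X).ncard : ℝ) ≤
      ((WtA s X (E ∪ Z)).ncard : ℝ) + (WtA s H Set.univ).ncard := by exact_mod_cast g1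
  have g3 : ((WtA s X (E ∪ Z)).ncard : ℝ) ≤ 2 * (((E ∩ {l | logHeight₁ l ≤ (X + CA) / 2}).ncard : ℝ)
      + Z.ncard) := by
    have g4 : ((E ∪ Z) ∩ {l | logHeight₁ l ≤ (X + CA) / 2}).ncard ≤
        (E ∩ {l | logHeight₁ l ≤ (X + CA) / 2}).ncard + Z.ncard := by
      rw [Set.union_inter_distrib_right]
      refine (Set.ncard_union_le _ _).trans (Nat.add_le_add_left ?_ _)
      exact Set.ncard_le_ncard Set.inter_subset_left hZ
    have g5 := hAf.2.trans (Nat.mul_le_mul_left 2 g4)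
    exact_mod_cast g5
  have g4 := hH₁ ((X + CA) / 2) (by linarith)
  have g5 : δ / 3 / 2 * Real.exp (-CA) * Real.exp (2 * ((X + CA) / 2)) =
      δ / 3 / 2 * Real.exp X := by
    rw [mul_assoc, ← Real.exp_add]
    congr 2
    ring
  rw [g5] at g4
  have g7 : (2 * (Z.ncard : ℝ) + (WtA s H Set.univ).ncard) * Real.exp (-X) * Real.exp X ≤
      δ / 3 * Real.exp X := mul_le_mul_of_nonneg_right h6.le (Real.exp_pos _).le
  rw [mul_assoc, hexp, mul_one] at g7
  have g8 := Real.exp_pos X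
  nlinarith

/-- **one exceptional set for countably many properties** -/
theorem final_gen2 (a b : 𝓞 K)
    (hab : 4 * (a : K) ^ 3 + 27 * (b : K) ^ 2 ≠ 0) (G : ℕ → Prd K)
    (hG : ∀ n s, OneTs (a : K) (b : K) s (G n)) :
    ∃ E : Set (EP (a : K) (b : K) (AlgebraicClosure K)), Ngl (QQ (a : K) (b : K)) E ∧
      ∀ n, ∃ X : ℝ, ∀ (L : Type) [Field L] [NumberField L] [Algebra K L]
          (ι : L →ₐ[K] AlgebraicClosure K) (x y : L)
          (h : (sw (algebraMap K L (a : K)) (algebraMap K L (b : K))).toAffine.Nonsingular x y),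
          Module.finrank K L = 2 →
          ¬ (x ∈ Set.range (algebraMap K L) ∧ y ∈ Set.range (algebraMap K L)) →
          mp (a : K) (b : K) ι (Affine.Point.some x y h) ∉ E → X < logHeight₁ x →
          G n L x y := by
  have hU := cntU K
  obtain ⟨C, hC, hfin⟩ := qq_fin a b hab hU
  let Ba : ℕ → Set (EP (a : K) (b : K) (AlgebraicClosure K)) := fun n =>
    {p | ∃ s X, p ∈ BadG (a : K) (b : K) (G n) s X}
  have hlink : ∀ (G : Prd K) (X : ℝ),
      {p | ∃ s X, p ∈ BadG (a : K) (b : K) G s X} ∩ QQ (a : K) (b : K) X ⊆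
        {p | ∃ s, p ∈ BadG (a : K) (b : K) G s X} := by
    rintro G X p ⟨⟨s, X1, L, _, _, _, ι, σ, x, y, h, hw, hx, hp, hbad⟩,
      s', L', _, _, _, ι', σ', P', hw', hX', hp'⟩
    refine ⟨s, L, _, ‹_›, _, ι, σ, x, y, h, hw, ?_, hp, hbad⟩
    have h1 : Module.finrank ℚ L = Module.finrank ℚ L' := by
      have f1 : FiniteDimensional K L := FiniteDimensional.right ℚ K L
      have f2 : FiniteDimensional K L' := FiniteDimensional.right ℚ K L'
      rw [← Module.finrank_mul_finrank ℚ K L, ← Module.finrank_mul_finrank ℚ K L', hw.cj.deg,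
        hw'.cj.deg]
    rw [← hp] at hp'
    match P', hX', hp' with
    | 0, _, hp' =>
      rw [map_zero, mp_some] at hp'
      exact absurd hp' (by intro h; cases h)
    | .some x' y' h', hX', hp' =>
      rw [mp_some, mp_some, Affine.Point.some.injEq] at hp'
      rw [QE.sht_some] at hX'
      have h2 := ht_uniq ι ι' (hp'.1).symm
      rw [h1] at h2
      have h3 : (0 : ℝ) < Module.finrank ℚ L' := by exact_mod_cast Module.finrank_pos
      have h4 := mul_left_cancel₀ h3.ne' h2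
      rw [h4]
      exact hX'
  have hB : ∀ n, Ngl (QQ (a : K) (b : K)) (Ba n) := by
    intro n
    refine ngl_of_traces' a b hab hU _ (fun s X => BadG (a : K) (b : K) (G n) s X) ?_ ?_ ?_
    · rintro s X p ⟨L, _, _, _, ι, σ, x, y, h, hw, hx, hp, hbad⟩
      exact ⟨L, _, ‹_›, _, ι, σ, _, hw, by rw [QE.sht_some]; exact hx, hp⟩
    · intro X
      exact hlink _ _
    · intro s δ hδ
      exact bad_few_gen2 a b (G n) s (hG n s) hδ
  obtain ⟨E, hE1, hE2⟩ := diag (fun X => (hfin X).1) (fun X Y h => qq_mono h) Ba hB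
  refine ⟨E, hE1, fun n => ?_⟩
  obtain ⟨X, hX⟩ := hE2 n
  refine ⟨X, ?_⟩
  intro L _ _ _ ι x y h hd hrat hpE hxX
  by_contra hbad
  obtain ⟨σ, hσ⟩ := exists_conj hd
  obtain ⟨s, hs⟩ := exists_trace hab hσ (Affine.Point.some x y h : EP (a : K) (b : K) L)
  have hw : Qw s σ (Affine.Point.some x y h : EP (a : K) (b : K) L) := by
    refine ⟨hσ, ?_, hs⟩
    rw [mp_some]
    intro h1
    rw [Affine.Point.some.injEq] at h1
    exact hrat ⟨(hσ.fix x).1 h1.1, (hσ.fix y).1 h1.2⟩
  have hmem : mp (a : K) (b : K) ι (Affine.Point.some x y h) ∈ Ba n :=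
    ⟨s, logHeight₁ x, L, _, ‹_›, _, ι, σ, x, y, h, hw, le_rfl, rfl, hbad⟩
  have h2 := hX ⟨hmem, hpE⟩
  obtain ⟨s', L', _, _, _, ι', σ', x', y', h', hw', hx', hp', -⟩ :=
    hlink (G n) X ⟨hmem, h2⟩
  rw [mp_some, mp_some, Affine.Point.some.injEq] at hp'
  have h3 := ht_uniq ι ι' (hp'.1).symm
  have h4 : Module.finrank ℚ L = Module.finrank ℚ L' := by
    have f1 : FiniteDimensional K L := FiniteDimensional.right ℚ K L
    have f2 : FiniteDimensional K L' := FiniteDimensional.right ℚ K L'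
    rw [← Module.finrank_mul_finrank ℚ K L, ← Module.finrank_mul_finrank ℚ K L', hd,
      hw'.cj.deg]
  rw [h4] at h3
  have h5 : (0 : ℝ) < Module.finrank ℚ L' := by exact_mod_cast Module.finrank_pos
  have h6 := mul_left_cancel₀ h5.ne' h3
  rw [h6] at hxX
  linarith

end Pool.Agent.U47.QF
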