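import Mathlib
import Pool.Agent.N753.DR.AllPC
import Pool.Agent.W125.CV.HT
import Pool.Agent.U47.QF.Hlp

/-!
# Sums over places
-/

set_option autoImplicit false
set_option linter.unusedSectionVars false

open Height NumberField IsDedekindDomain Polynomial

namespace Pool.Agent.U47.QF

section

variable {L : Type} [Field L] [NumberField L]

/-- the common property of the absolute values -/
def Gv (a : AbsoluteValue L ℝ) : Prop := ∀ x y, a (x + y) ≤ max 1 (a 2) * max (a x) (a y)

theorem gv_inf (w : InfinitePlace L) : Gv w.1 := by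
  intro x y
  have h1 : w.1 2 = 2 := by
    have := map_ofNat w.embedding 2
    have h2 : w.1 2 = ‖w.embedding 2‖ := (InfinitePlace.norm_embedding_eq w 2).symm
    rw [h2, this]
    simp
  rw [h1, max_eq_right (by norm_num : (1 : ℝ) ≤ 2)]
  have h3 := w.1.add_le x y
  have h4 := le_max_left (w.1 x) (w.1 y)
  have h5 := le_max_right (w.1 x) (w.1 y)
  linarith

theorem gv_fin (v : HeightOneSpectrum (𝓞 L)) : Gv (FinitePlace.mk v).1 := by
  intro x y
  have h1 : (FinitePlace.mk v).1 (x + y) ≤ max ((FinitePlace.mk v).1 x) ((FinitePlace.mk v).1 y) :=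
    FinitePlace.add_le (FinitePlace.mk v) x y
  refine h1.trans ?_
  have h2 : 0 ≤ max ((FinitePlace.mk v).1 x) ((FinitePlace.mk v).1 y) :=
    le_max_of_le_left ((FinitePlace.mk v).1.nonneg x)
  have h3 : 1 ≤ max 1 ((FinitePlace.mk v).1 2) := le_max_left _ _
  nlinarith

open Classical in
/-- the sum over the infinite places (with multiplicities) and the primes above `S` -/
noncomputable def PS (S : Finset ℕ) (f : AbsoluteValue L ℝ → ℝ) : ℝ :=
  ∑ w : InfinitePlace L, (w.mult : ℝ) * f w.1 +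
    ∑ᶠ v : HeightOneSpectrum (𝓞 L), if ∃ p ∈ S, (p : 𝓞 L) ∈ v.asIdeal then
      f (FinitePlace.mk v).1 else 0

theorem above_fin (S : Finset ℕ) (hS : ∀ p ∈ S, p.Prime) :
    {v : HeightOneSpectrum (𝓞 L) | ∃ p ∈ S, (p : 𝓞 L) ∈ v.asIdeal}.Finite := by
  have h : {v : HeightOneSpectrum (𝓞 L) | ∃ p ∈ S, (p : 𝓞 L) ∈ v.asIdeal} ⊆
      ⋃ p ∈ S, {v : HeightOneSpectrum (𝓞 L) | p ≠ 0 ∧ (p : 𝓞 L) ∈ v.asIdeal} := by
    rintro v ⟨p, hp, hv⟩
    rw [Set.mem_iUnion₂]
    exact ⟨p, hp, (hS p hp).ne_zero, hv⟩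
  refine (Set.Finite.biUnion S.finite_toSet fun p _ => ?_).subset h
  by_cases hp : p = 0
  · refine Set.finite_empty.subset ?_
    rintro v ⟨h1, -⟩
    exact absurd hp h1
  · have hp0 : (p : L) ≠ 0 := Nat.cast_ne_zero.2 hp
    refine (Pool.Agent.Y729.RV.val_fin hp0).subset ?_
    rintro v ⟨-, hv⟩
    have h3 : (((p : 𝓞 L) : L)) = (p : L) := by push_cast; rfl
    rw [Set.mem_ofPred_eq, ← h3]
    exact (v.valuation_lt_one_iff_mem (K := L) (p : 𝓞 L)).2 hv

theorem supp_fin (S : Finset ℕ) (hS : ∀ p ∈ S, p.Prime) (f : AbsoluteValue L ℝ → ℝ) :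
    (Function.support fun v : HeightOneSpectrum (𝓞 L) => open Classical in
      if ∃ p ∈ S, (p : 𝓞 L) ∈ v.asIdeal then f (FinitePlace.mk v).1 else 0).Finite := by
  classical
  refine (above_fin S hS).subset fun v hv => ?_
  rw [Function.mem_support] at hv
  by_contra h
  exact hv (if_neg h)

theorem PS_mono (S : Finset ℕ) (hS : ∀ p ∈ S, p.Prime) {f g : AbsoluteValue L ℝ → ℝ}
    (h : ∀ a : AbsoluteValue L ℝ, Gv a → f a ≤ g a) : PS S f ≤ PS S g := by
  classical
  unfold PS
  refine add_le_add ?_ ?_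
  · refine Finset.sum_le_sum fun w _ => ?_
    exact mul_le_mul_of_nonneg_left (h _ (gv_inf w)) (Nat.cast_nonneg _)
  · refine finsum_le_finsum' (supp_fin S hS f) (supp_fin S hS g) ?_
    intro v
    beta_reduce
    split_ifs
    · exact h _ (gv_fin v)
    · exact le_rfl

theorem PS_add (S : Finset ℕ) (hS : ∀ p ∈ S, p.Prime) (f g : AbsoluteValue L ℝ → ℝ) :
    PS S (fun a => f a + g a) = PS S f + PS S g := by
  classical
  unfold PS
  have h1 : ∀ v : HeightOneSpectrum (𝓞 L), (if ∃ p ∈ S, (p : 𝓞 L) ∈ v.asIdeal then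
      f (FinitePlace.mk v).1 + g (FinitePlace.mk v).1 else 0) =
      (if ∃ p ∈ S, (p : 𝓞 L) ∈ v.asIdeal then f (FinitePlace.mk v).1 else 0) +
      (if ∃ p ∈ S, (p : 𝓞 L) ∈ v.asIdeal then g (FinitePlace.mk v).1 else 0) := by
    intro v
    split_ifs <;> simp
  simp only [h1]
  rw [finsum_add_distrib (supp_fin S hS f) (supp_fin S hS g)]
  simp only [mul_add, Finset.sum_add_distrib]
  ring

theorem PS_zero (S : Finset ℕ) : PS S (fun _ : AbsoluteValue L ℝ => (0 : ℝ)) = 0 := by
  classical
  unfold PS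
  simp

theorem PS_smul (S : Finset ℕ) (hS : ∀ p ∈ S, p.Prime) (n : ℕ) (f : AbsoluteValue L ℝ → ℝ) :
    PS S (fun a => (n : ℝ) * f a) = n * PS S f := by
  induction n with
  | zero => simp [PS_zero]
  | succ n ih =>
    have h1 : (fun a : AbsoluteValue L ℝ => ((n + 1 : ℕ) : ℝ) * f a) =
        fun a => (n : ℝ) * f a + f a := by
      funext a
      push_cast
      ring
    rw [h1, PS_add S hS, ih]
    push_cast
    ring

theorem PS_sum {ι : Type} (S : Finset ℕ) (hS : ∀ p ∈ S, p.Prime) (I : Finset ι)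
    (f : ι → AbsoluteValue L ℝ → ℝ) :
    PS S (fun a => ∑ i ∈ I, f i a) = ∑ i ∈ I, PS S (f i) := by
  classical
  induction I using Finset.induction_on with
  | empty => simp [PS_zero]
  | insert i I hi ih =>
    rw [Finset.sum_insert hi, ← ih, ← PS_add S hS]
    congr 1
    funext a
    rw [Finset.sum_insert hi]

/-- the height bounds the sum of the `log max(1, |z|)` -/
theorem PS_ht (S : Finset ℕ) (hS : ∀ p ∈ S, p.Prime) (z : L) :
    PS S (fun a => Real.log (max 1 (a z))) ≤ logHeight₁ z := by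
  classical
  have hT := Pool.Agent.W125.CV.height_sum z
    (Pool.Agent.W125.CV.max_support_finite z).toFinset
    (fun v hv => (Set.Finite.mem_toFinset _).2 hv)
  have h0 : logHeight₁ z = Real.log (mulHeight₁ z) := rfl
  rw [h0, hT]
  unfold PS
  refine add_le_add (le_of_eq ?_) ?_
  · refine Finset.sum_congr rfl fun w _ => ?_
    rw [max_comm]
    rfl
  · rw [← finsum_eq_sum_of_support_subset (s := (Pool.Agent.W125.CV.max_support_finite z).toFinset)
      (f := fun v => Real.log (max (Pool.Agent.W125.CV.fv v z) 1))]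
    · refine finsum_le_finsum' (supp_fin S hS (fun a => Real.log (max 1 (a z)))) ?_ ?_
      · refine (Pool.Agent.W125.CV.max_support_finite z).subset fun v hv => ?_
        rw [Function.mem_support] at hv
        intro h
        apply hv
        rw [h, Real.log_one]
      · intro v
        beta_reduce
        split_ifs
        · rw [max_comm]
          rfl
        · exact Real.log_nonneg (le_max_right _ _)
    · intro v hv
      rw [Function.mem_support] at hv
      rw [Set.Finite.coe_toFinset]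
      intro h
      apply hv
      rw [h, Real.log_one]

theorem PS_nonneg (S : Finset ℕ) {f : AbsoluteValue L ℝ → ℝ} (h : ∀ a, 0 ≤ f a) : 0 ≤ PS S f := by
  classical
  unfold PS
  refine add_nonneg (Finset.sum_nonneg fun w _ => mul_nonneg (Nat.cast_nonneg _) (h _))
    (finsum_nonneg fun v => ?_)
  split_ifs
  · exact h _
  · exact le_rfl

end

end Pool.Agent.U47.QF
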