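import Mathlib
import Pool.Agent.U47.QF.Pla

/-!
# Local estimates
-/

set_option autoImplicit false
set_option linter.unusedSectionVars false

open Height NumberField IsDedekindDomain Polynomial

namespace Pool.Agent.U47.QF

section

variable {L : Type} [Field L] [NumberField L]

/-- `max 1 |z|` -/
noncomputable def mx (a : AbsoluteValue L ℝ) (z : L) : ℝ := max 1 (a z)

theorem one_le_mx (a : AbsoluteValue L ℝ) (z : L) : 1 ≤ mx a z := le_max_left _ _

theorem le_mx (a : AbsoluteValue L ℝ) (z : L) : a z ≤ mx a z := le_max_right _ _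

theorem mx_pos (a : AbsoluteValue L ℝ) (z : L) : 0 < mx a z := by linarith [one_le_mx a z]

theorem log_mx_nonneg (a : AbsoluteValue L ℝ) (z : L) : 0 ≤ Real.log (mx a z) :=
  Real.log_nonneg (one_le_mx a z)

theorem mx_add {a : AbsoluteValue L ℝ} (ha : Gv a) (x y : L) :
    mx a (x + y) ≤ mx a 2 * (mx a x * mx a y) := by
  have h1 := one_le_mx a x
  have h2 := one_le_mx a y
  have h3 := one_le_mx a 2
  have h4 : max (a x) (a y) ≤ mx a x * mx a y := by
    refine max_le ?_ ?_
    · calc a x ≤ mx a x := le_mx a x
        _ = mx a x * 1 := (mul_one _).symm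
        _ ≤ mx a x * mx a y := mul_le_mul_of_nonneg_left h2 (by linarith)
    · calc a y ≤ mx a y := le_mx a y
        _ = 1 * mx a y := (one_mul _).symm
        _ ≤ mx a x * mx a y := mul_le_mul_of_nonneg_right h1 (by linarith)
  refine max_le ?_ ?_
  · exact one_le_mul_of_one_le_of_one_le h3 (one_le_mul_of_one_le_of_one_le h1 h2)
  · refine (ha x y).trans ?_
    exact mul_le_mul_of_nonneg_left h4 (mx_pos a 2).le

theorem mx_mul (a : AbsoluteValue L ℝ) (x y : L) : mx a (x * y) ≤ mx a x * mx a y := by
  refine max_le (one_le_mul_of_one_le_of_one_le (one_le_mx a x) (one_le_mx a y)) ?_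
  rw [map_mul]
  exact mul_le_mul (le_mx a x) (le_mx a y) (a.nonneg y) (by linarith [one_le_mx a x])

theorem mx_pow (a : AbsoluteValue L ℝ) (x : L) (n : ℕ) : mx a (x ^ n) ≤ mx a x ^ n := by
  induction n with
  | zero => simp [mx]
  | succ n ih =>
    rw [pow_succ, pow_succ]
    refine (mx_mul a _ _).trans ?_
    exact mul_le_mul_of_nonneg_right ih (by linarith [one_le_mx a x])

/-- the logarithm of `mx` is at most `n log mx(l)` plus a constant which is summable -/
def Bd (k : Type) [Field k] [NumberField k] [Algebra k L] (a : AbsoluteValue L ℝ)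
    (T : Finset k) (m : ℕ) (l : L) (n : ℕ) (z : L) : Prop :=
  Real.log (mx a z) ≤ n * Real.log (mx a l) +
    m * ∑ c ∈ T, Real.log (mx a (algebraMap k L c))

end

/-- values of a polynomial -/
theorem eval_le {k : Type} [Field k] [NumberField k] (p : k[X]) : ∃ (m : ℕ) (T : Finset k),
    ∀ (L : Type) [Field L] [NumberField L] [Algebra k L] (a : AbsoluteValue L ℝ), Gv a →
      ∀ z : L, Real.log (mx a (aeval z p)) ≤ p.natDegree * Real.log (mx a z) +
        m * ∑ c ∈ T, Real.log (mx a (algebraMap k L c)) := by
  classical
  have key : ∀ (n : ℕ) (c : ℕ → k) (L : Type) [Field L] [NumberField L] [Algebra k L]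
      (a : AbsoluteValue L ℝ), Gv a → ∀ z : L,
      Real.log (mx a (∑ i ∈ Finset.range n, algebraMap k L (c i) * z ^ i)) ≤
        (n - 1 : ℕ) * Real.log (mx a z) + (∑ i ∈ Finset.range n,
          Real.log (mx a (algebraMap k L (c i))) + n * Real.log (mx a 2)) := by
    intro n c L _ _ _ a ha z
    induction n with
    | zero => simp [mx]
    | succ n ih =>
      rw [Finset.sum_range_succ, Finset.sum_range_succ]
      have h1 := mx_add ha (∑ i ∈ Finset.range n, algebraMap k L (c i) * z ^ i)
        (algebraMap k L (c n) * z ^ n)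
      have hn0 : 0 ≤ Real.log (mx a z) := log_mx_nonneg a z
      rcases Nat.eq_zero_or_pos n with hn | hn
      · subst hn
        simp only [Finset.range_zero, Finset.sum_empty, pow_zero, mul_one, zero_add]
        have h2 := log_mx_nonneg a 2
        simp only [Nat.sub_self, Nat.cast_zero, zero_mul, Nat.cast_one]
        linarith
      · -- a better estimate
        have h2 : mx a (∑ i ∈ Finset.range n, algebraMap k L (c i) * z ^ i +
            algebraMap k L (c n) * z ^ n) ≤ mx a 2 * (Real.exp (n * Real.log (mx a z) +
              (∑ i ∈ Finset.range n, Real.log (mx a (algebraMap k L (c i))) +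
                n * Real.log (mx a 2)) + Real.log (mx a (algebraMap k L (c n))))) := by
          have hs : 0 ≤ ∑ i ∈ Finset.range n, Real.log (mx a (algebraMap k L (c i))) :=
            Finset.sum_nonneg fun i _ => log_mx_nonneg a _
          have hc := log_mx_nonneg a (algebraMap k L (c n))
          have h2' := log_mx_nonneg a 2
          have hnn : (0 : ℝ) ≤ n := Nat.cast_nonneg n
          have e0 : 0 ≤ n * Real.log (mx a z) +
              (∑ i ∈ Finset.range n, Real.log (mx a (algebraMap k L (c i))) +
                n * Real.log (mx a 2)) + Real.log (mx a (algebraMap k L (c n))) := by positivity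
          have e1 : a (∑ i ∈ Finset.range n, algebraMap k L (c i) * z ^ i) ≤
              Real.exp (n * Real.log (mx a z) +
              (∑ i ∈ Finset.range n, Real.log (mx a (algebraMap k L (c i))) +
                n * Real.log (mx a 2)) + Real.log (mx a (algebraMap k L (c n)))) := by
            refine (le_mx a _).trans ?_
            rw [← Real.exp_log (mx_pos a (∑ i ∈ Finset.range n, algebraMap k L (c i) * z ^ i))]
            refine Real.exp_le_exp.2 (ih.trans ?_)
            have e2 : ((n - 1 : ℕ) : ℝ) * Real.log (mx a z) ≤ n * Real.log (mx a z) := by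
              refine mul_le_mul_of_nonneg_right ?_ hn0
              exact_mod_cast Nat.sub_le n 1
            linarith
          have e2 : a (algebraMap k L (c n) * z ^ n) ≤
              Real.exp (n * Real.log (mx a z) +
              (∑ i ∈ Finset.range n, Real.log (mx a (algebraMap k L (c i))) +
                n * Real.log (mx a 2)) + Real.log (mx a (algebraMap k L (c n)))) := by
            have e3 : a (algebraMap k L (c n) * z ^ n) ≤
                mx a (algebraMap k L (c n)) * mx a z ^ n := by
              rw [map_mul, map_pow]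
              exact mul_le_mul (le_mx a _) (pow_le_pow_left₀ (a.nonneg z) (le_mx a z) n)
                (pow_nonneg (a.nonneg z) n) (mx_pos a _).le
            refine e3.trans ?_
            rw [← Real.exp_log (mx_pos a (algebraMap k L (c n))), ← Real.exp_log (mx_pos a z),
              ← Real.exp_nat_mul, ← Real.exp_add, Real.log_exp, Real.log_exp]
            refine Real.exp_le_exp.2 ?_
            have : 0 ≤ n * Real.log (mx a 2) := by positivity
            linarith
          refine max_le ?_ ?_
          · exact one_le_mul_of_one_le_of_one_le (one_le_mx a 2) (Real.one_le_exp e0)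
          · refine (ha _ _).trans ?_
            exact mul_le_mul_of_nonneg_left (max_le e1 e2) (mx_pos a 2).le
        have h3 := Real.log_le_log (mx_pos a _) h2
        rw [Real.log_mul (mx_pos a 2).ne' (Real.exp_pos _).ne', Real.log_exp] at h3
        refine h3.trans (le_of_eq ?_)
        rw [Nat.add_sub_cancel]
        push_cast
        ring
  obtain ⟨n, hn⟩ : ∃ n, n = p.natDegree + 1 := ⟨_, rfl⟩
  refine ⟨2 * n, insert 2 ((Finset.range n).image fun i => p.coeff i), ?_⟩
  intro L _ _ _ a ha z
  have h1 : aeval z p = ∑ i ∈ Finset.range n, algebraMap k L (p.coeff i) * z ^ i := by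
    rw [aeval_eq_sum_range, hn]
    exact Finset.sum_congr rfl fun i _ => Algebra.smul_def _ _
  rw [h1]
  have h2 := key n (fun i => p.coeff i) L a ha z
  have h3 : (n - 1 : ℕ) = p.natDegree := by rw [hn]; rfl
  rw [h3] at h2
  refine h2.trans ?_
  obtain ⟨W, hW⟩ : ∃ W : ℝ, W = ∑ c ∈ insert (2 : k) ((Finset.range n).image fun i => p.coeff i),
    Real.log (mx a (algebraMap k L c)) := ⟨_, rfl⟩
  rw [← hW]
  have hge : ∀ c ∈ insert (2 : k) ((Finset.range n).image fun i => p.coeff i),
      Real.log (mx a (algebraMap k L c)) ≤ W := by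
    intro c hc
    rw [hW]
    exact Finset.single_le_sum (f := fun c => Real.log (mx a (algebraMap k L c)))
      (fun c _ => log_mx_nonneg a _) hc
  have h4 : Real.log (mx a 2) ≤ W := by
    have := hge 2 (Finset.mem_insert_self _ _)
    rwa [map_ofNat] at this
  have h5 : ∑ i ∈ Finset.range n, Real.log (mx a (algebraMap k L (p.coeff i))) ≤ n * W := by
    have h6 : ∑ i ∈ Finset.range n, Real.log (mx a (algebraMap k L (p.coeff i))) ≤
        ∑ _i ∈ Finset.range n, W := Finset.sum_le_sum fun i hi =>
      hge _ (Finset.mem_insert_of_mem (Finset.mem_image_of_mem _ hi))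
    rwa [Finset.sum_const, Finset.card_range, nsmul_eq_mul] at h6
  have h6 : (n : ℝ) * Real.log (mx a 2) ≤ n * W :=
    mul_le_mul_of_nonneg_left h4 (Nat.cast_nonneg n)
  push_cast
  linarith

/-- a root of a quadratic equation -/
theorem root_le {L : Type} [Field L] [NumberField L] {a : AbsoluteValue L ℝ} (ha : Gv a)
    {U A B : L} (h : U ^ 2 = B * U + A) : mx a U ≤ mx a 2 * (mx a B * mx a A) := by
  have h1 := one_le_mx a A
  have h2 := one_le_mx a B
  have h3 := one_le_mx a 2
  have h4 : 1 ≤ mx a 2 * (mx a B * mx a A) :=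
    one_le_mul_of_one_le_of_one_le h3 (one_le_mul_of_one_le_of_one_le h2 h1)
  refine max_le h4 ?_
  rcases le_or_gt (a U) 1 with hU | hU
  · linarith
  have h5 := ha (B * U) A
  rw [← h, map_pow, map_mul] at h5
  have h6 : max (a B * a U) (a A) ≤ mx a B * mx a A * a U := by
    refine max_le ?_ ?_
    · refine mul_le_mul_of_nonneg_right ?_ (a.nonneg U)
      calc a B ≤ mx a B := le_mx a B
        _ = mx a B * 1 := (mul_one _).symm
        _ ≤ _ := mul_le_mul_of_nonneg_left h1 (by linarith)
    · calc a A ≤ mx a A := le_mx a A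
        _ = 1 * mx a A := (one_mul _).symm
        _ ≤ mx a B * mx a A := mul_le_mul_of_nonneg_right h2 (by linarith)
        _ = mx a B * mx a A * 1 := (mul_one _).symm
        _ ≤ _ := mul_le_mul_of_nonneg_left hU.le (by positivity)
  have h7 : a U ^ 2 ≤ mx a 2 * (mx a B * mx a A * a U) :=
    h5.trans (mul_le_mul_of_nonneg_left h6 (mx_pos a 2).le)
  have h8 : a U * a U ≤ (mx a 2 * (mx a B * mx a A)) * a U := by nlinarith
  exact le_of_mul_le_mul_right h8 (by linarith)

end Pool.Agent.U47.QF
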