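import Mathlib
import Pool.Agent.U47.QF.Loc

/-!
# The product of the values at the two conjugates is a polynomial in the slope
-/

set_option autoImplicit false
set_option linter.unusedSectionVars false

open Height NumberField IsDedekindDomain Polynomial
open Pool.Agent.U47.QE

namespace Pool.Agent.U47.QF

theorem exists_st {K : Type} [Field K] (B A : K[X]) (c : K) (p : K[X]) : ∃ s t : K[X],
    ∀ (F : Type) [Field F] [Algebra K F] (l U : F), U ^ 2 = aeval l B * U + aeval l A →
      aeval (U + algebraMap K F c) p = aeval l s + aeval l t * U := by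
  induction p using Polynomial.induction_on with
  | C a =>
    refine ⟨C a, 0, fun F _ _ l U _ => ?_⟩
    rw [aeval_C, aeval_C, map_zero, zero_mul, add_zero]
  | add p q hp hq =>
    obtain ⟨s, t, h1⟩ := hp
    obtain ⟨s', t', h2⟩ := hq
    refine ⟨s + s', t + t', fun F _ _ l U h => ?_⟩
    rw [map_add, h1 F l U h, h2 F l U h, map_add, map_add]
    ring
  | monomial n a ih =>
    obtain ⟨s, t, h1⟩ := ih
    refine ⟨s * C c + t * A, s + t * B + t * C c, fun F _ _ l U h => ?_⟩
    have h2 := h1 F l U h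
    rw [pow_succ, ← mul_assoc, map_mul, h2, aeval_X]
    simp only [map_add, map_mul, aeval_C]
    linear_combination (aeval l t) * h

/-- the sum of the two roots -/
noncomputable def Bp {K : Type} [Field K] (xs : K) : K[X] := X ^ 2 - C (3 * xs)

/-- minus the product of the two roots -/
noncomputable def Ap {K : Type} [Field K] (a xs ys : K) : K[X] :=
  -(C (3 * xs ^ 2 + a) + C (2 * ys) * X)

theorem quad_eq_zero {F : Type} [Field F] (c0 c1 c2 : F)
    (h : C c0 + C c1 * X - C c2 * X ^ 2 = (0 : F[X])) : c0 = 0 ∧ c1 = 0 ∧ c2 = 0 := by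
  have h0 := congrArg (fun q : F[X] => q.coeff 0) h
  have h1 := congrArg (fun q : F[X] => q.coeff 1) h
  have h2 := congrArg (fun q : F[X] => q.coeff 2) h
  simp only [coeff_sub, coeff_add, coeff_C_mul, coeff_X_pow, coeff_zero] at h0 h1 h2
  simp [coeff_X, coeff_C] at h0 h1 h2
  exact ⟨h0, h1, h2⟩

theorem exists_R {K : Type} [Field K] [NumberField K] (a xs ys : K)
    (hns : ¬ (ys = 0 ∧ 3 * xs ^ 2 + a = 0)) (p : K[X]) (hp : p ≠ 0) : ∃ R : K[X], R ≠ 0 ∧
    ∀ (F : Type) [Field F] [Algebra K F] (l u u' : F), u + u' = aeval l (Bp xs) →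
      u * u' = -aeval l (Ap a xs ys) →
      aeval (u + algebraMap K F xs) p * aeval (u' + algebraMap K F xs) p = aeval l R := by
  classical
  obtain ⟨s, t, h⟩ := exists_st (Bp xs) (Ap a xs ys) xs p
  have hR : ∀ (F : Type) [Field F] [Algebra K F] (l u u' : F), u + u' = aeval l (Bp xs) →
      u * u' = -aeval l (Ap a xs ys) →
      aeval (u + algebraMap K F xs) p * aeval (u' + algebraMap K F xs) p =
        aeval l (s ^ 2 + s * t * Bp xs - t ^ 2 * Ap a xs ys) := by
    intro F _ _ l u u' h1 h2
    rw [h F l u (by rw [← h1]; linear_combination -h2), h F l u' (by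
      rw [← h1]; linear_combination -h2)]
    simp only [map_add, map_sub, map_mul, map_pow]
    rw [← h1]
    linear_combination (aeval l t) ^ 2 * h2
  refine ⟨_, ?_, hR⟩
  intro h0
  -- the bad slopes
  let Ω := AlgebraicClosure K
  let Q : Ω → Polynomial Ω := fun ρ =>
    C ((ρ - algebraMap K Ω xs) ^ 2 + 3 * algebraMap K Ω xs * (ρ - algebraMap K Ω xs) +
      algebraMap K Ω (3 * xs ^ 2 + a)) + C (algebraMap K Ω (2 * ys)) * X -
      C (ρ - algebraMap K Ω xs) * X ^ 2
  have hQ : ∀ ρ, Q ρ ≠ 0 := by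
    intro ρ hQ0
    obtain ⟨c0, c1, c2⟩ := quad_eq_zero _ _ _ hQ0
    have e2 : ys = 0 := by
      have e3 : 2 * ys = 0 := by
        apply (algebraMap K Ω).injective
        rw [map_zero]
        exact c1
      exact (mul_eq_zero.1 e3).resolve_left two_ne_zero
    have e3 : 3 * xs ^ 2 + a = 0 := by
      apply (algebraMap K Ω).injective
      rw [map_zero]
      rw [c2] at c0
      linear_combination c0
    exact hns ⟨e2, e3⟩
  have hpm : p.map (algebraMap K Ω) ≠ 0 := (Polynomial.map_ne_zero_iff (algebraMap K Ω).injective).2 hp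
  let Bad : Finset Ω := (p.map (algebraMap K Ω)).roots.toFinset.biUnion fun ρ =>
    (Q ρ).roots.toFinset
  have hcov : ∀ l : K, algebraMap K Ω l ∈ Bad := by
    intro l
    obtain ⟨r, hr⟩ : ∃ r : Ω, r ^ 2 = (aeval (algebraMap K Ω l) (Bp xs)) ^ 2 +
        4 * aeval (algebraMap K Ω l) (Ap a xs ys) := by
      obtain ⟨r, hr⟩ := IsAlgClosed.exists_pow_nat_eq ((aeval (algebraMap K Ω l) (Bp xs)) ^ 2 +
        4 * aeval (algebraMap K Ω l) (Ap a xs ys)) (n := 2) (by norm_num)
      exact ⟨r, hr⟩
    obtain ⟨u, hu⟩ : ∃ u : Ω, u = (aeval (algebraMap K Ω l) (Bp xs) + r) / 2 := ⟨_, rfl⟩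
    obtain ⟨u', hu'⟩ : ∃ u' : Ω, u' = (aeval (algebraMap K Ω l) (Bp xs) - r) / 2 := ⟨_, rfl⟩
    have g1 : u + u' = aeval (algebraMap K Ω l) (Bp xs) := by
      rw [hu, hu']
      ring
    have g2 : u * u' = -aeval (algebraMap K Ω l) (Ap a xs ys) := by
      rw [hu, hu']
      linear_combination -hr / 4
    have g3 := hR Ω (algebraMap K Ω l) u u' g1 g2
    rw [h0, map_zero] at g3
    have g4 : ∀ v v' : Ω, v + v' = aeval (algebraMap K Ω l) (Bp xs) →
        v * v' = -aeval (algebraMap K Ω l) (Ap a xs ys) →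
        aeval (v + algebraMap K Ω xs) p = 0 → algebraMap K Ω l ∈ Bad := by
      intro v v' k1 k2 k3
      simp only [Bad]
      rw [Finset.mem_biUnion]
      refine ⟨v + algebraMap K Ω xs, ?_, ?_⟩
      · rw [Multiset.mem_toFinset, mem_roots hpm, IsRoot.def, eval_map_algebraMap]
        exact k3
      · rw [Multiset.mem_toFinset, mem_roots (hQ _), IsRoot.def]
        simp only [Q]
        have k4 : v ^ 2 = (v + v') * v - v * v' := by ring
        rw [k1, k2] at k4
        simp only [Bp, Ap, map_sub, map_neg, map_add, map_mul, map_pow, aeval_X, aeval_C] at k4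
        simp only [eval_sub, eval_add, eval_mul, eval_pow, eval_C, eval_X, add_sub_cancel_right, eval_ofNat,
          map_mul, map_add, map_pow, map_ofNat] at k4 ⊢
        linear_combination k4
    rcases mul_eq_zero.1 g3 with g5 | g5
    · exact g4 u u' g1 g2 g5
    · exact g4 u' u (by rw [add_comm]; exact g1) (by rw [mul_comm]; exact g2) g5
  have hinf : (Set.range (algebraMap K Ω)).Infinite :=
    Set.infinite_range_of_injective (algebraMap K Ω).injective
  apply hinf
  refine Bad.finite_toSet.subset ?_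
  rintro _ ⟨l, rfl⟩
  exact hcov l

end Pool.Agent.U47.QF
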