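import Mathlib
import Pool.Agent.U47.QF.Nrm
import Pool.Agent.U47.QF.Gen2

/-!
# Proximity for the quadratic points with given trace
-/

set_option autoImplicit false
set_option linter.unusedSectionVars false

open Height NumberField IsDedekindDomain Polynomial WeierstrassCurve
open Pool.Agent.U47.QE

namespace Pool.Agent.U47.QF

open Pool.Agent.N753.DR in
theorem exists_EK (K : Type) [Field K] [NumberField K] : ∃ E : Set K, Nsv E ∧
    ∀ (R : K[X]), R ≠ 0 → ∀ (q : ℕ) (S : Finset ℕ), (∀ p ∈ S, p.Prime) → ∀ κ : ℝ, 0 < κ →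
      ∃ U : ℝ, 0 ≤ U ∧ ∀ l : K, l ∉ E → U < logHeight₁ l → R.eval l ≠ 0 →
        ∀ (M : Type) [Field M] [NumberField M] [Algebra K M],
          PS S (fun a : AbsoluteValue M ℝ => q * Real.log (mx a (algebraMap K M l)) -
            Real.log (a (algebraMap K M (R.eval l)))) ≤
            κ * (logHeight₁ l * Module.finrank ℚ M) := by
  classical
  obtain ⟨E₀, hE1, hE2⟩ := univProx (K := K) (m := 1) pcCnt pcProx (by norm_num)
    (fun _ => 1) (fun _ => le_rfl)
  have hdim : dimT (fun _ : Fin 1 => 1) = 2 := by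
    unfold dimT
    simp
    norm_num
  have hHT : ∀ l : K, HT (fun _ : Fin 1 => 1) (logHeight₁ l) (fun _ => minpoly K l) := by
    intro l i
    have h1 : (minpoly K l).natDegree = 1 := by
      rw [minpoly.eq_X_sub_C', natDegree_X_sub_C]
    have h2 := at_of (K := K) (L := K) l h1
    rw [Module.finrank_self, Nat.cast_one, div_one] at h2
    simpa using h2
  refine ⟨{l | (fun _ : Fin 1 => minpoly K l) ∈ E₀}, ?_, ?_⟩
  · intro δ hδ
    -- `exp (-√H) ≤ δ` for large `H`
    obtain ⟨H₁, hH₁⟩ : ∃ H₁ : ℝ, H₁ = (max 0 (-Real.log δ)) ^ 2 := ⟨_, rfl⟩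
    refine ⟨max 0 H₁, fun H hH => ?_⟩
    have hH0 : 0 ≤ H := (le_max_left _ _).trans hH
    obtain ⟨hf, hc⟩ := hE1 H hH0
    have hinj : (({l : K | (fun _ : Fin 1 => minpoly K l) ∈ E₀} ∩ {x | logHeight₁ x ≤ H}).ncard) ≤
        {P | P ∈ E₀ ∧ HT (fun _ : Fin 1 => 1) H P}.ncard := by
      refine Set.ncard_le_ncard_of_injOn (fun l : K => fun _ : Fin 1 => minpoly K l) ?_ ?_ hf
      · rintro l ⟨h1, h2⟩
        exact ⟨h1, ht_mono _ h2 (hHT l)⟩
      · intro l _ l' _ h
        have h1 := congrFun h 0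
        simp only [minpoly.eq_X_sub_C'] at h1
        have h2 := congrArg (fun q : K[X] => q.coeff 0) h1
        simpa using h2
    have h3 : (({l : K | (fun _ : Fin 1 => minpoly K l) ∈ E₀} ∩ {x | logHeight₁ x ≤ H}).ncard : ℝ) ≤
        Real.exp (2 * H - √H) := by
      rw [← hdim]
      exact le_trans (by exact_mod_cast hinj) hc
    refine h3.trans ?_
    rw [sub_eq_add_neg, Real.exp_add, mul_comm]
    refine mul_le_mul_of_nonneg_right ?_ (Real.exp_pos _).le
    rw [← Real.exp_log hδ]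
    refine Real.exp_le_exp.2 ?_
    have h4 : max 0 (-Real.log δ) ≤ √H := by
      rw [← Real.sqrt_sq (le_max_left 0 (-Real.log δ))]
      refine Real.sqrt_le_sqrt ?_
      rw [← hH₁]
      exact (le_max_right _ _).trans hH
    have h5 := (le_max_right 0 (-Real.log δ)).trans h4
    linarith
  · intro R hR q S hS κ hκ
    obtain ⟨G, hG⟩ : ∃ G : MvPolynomial (Fin 1) K, G = aeval (MvPolynomial.X 0) R := ⟨_, rfl⟩
    have hGe : ∀ (M : Type) [Field M] [Algebra K M] (x : Fin 1 → M),
        MvPolynomial.aeval x G = aeval (x 0) R := by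
      intro M _ _ x
      rw [hG, ← Polynomial.aeval_algHom_apply, MvPolynomial.aeval_X]
    have hG0 : G ≠ 0 := by
      intro h0
      have h1 : (MvPolynomial.aeval (fun _ : Fin 1 => (X : K[X]))) G = aeval (X : K[X]) R := by
        rw [hG, ← Polynomial.aeval_algHom_apply, MvPolynomial.aeval_X]
      rw [h0, map_zero, aeval_X_left_apply] at h1
      exact hR h1.symm
    obtain ⟨U, hU0, hU⟩ := hE2 (fun _ => max q (G.degreeOf 0)) G hG0 (by
      intro i
      have : i = 0 := Subsingleton.elim _ _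
      rw [this]
      exact le_max_right _ _) S hS κ hκ
    refine ⟨U, hU0, ?_⟩
    intro l hl hUl hRl M _ _ _
    have hT := zero_le_logHeight₁ l
    have hx0 : ∀ i : Fin 1, minpoly K ((fun _ : Fin 1 => algebraMap K M l) i) = minpoly K l := by
      intro i
      exact minpoly.algebraMap_eq (algebraMap K M).injective l
    have hev : MvPolynomial.aeval (fun _ : Fin 1 => algebraMap K M l) G =
        algebraMap K M (R.eval l) := by
      rw [hGe, aeval_algebraMap_apply, coe_aeval_eq_eval]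
    have hne : MvPolynomial.aeval (fun _ : Fin 1 => algebraMap K M l) G ≠ 0 := by
      rw [hev]
      exact (_root_.map_ne_zero _).2 hRl
    rcases hU (fun _ => minpoly K l) hl (logHeight₁ l) hT (hHT l) with h | h
    · exfalso
      have h1 := h 0
      have h2 := le_of_at (K := K) (L := K) l h1
      rw [Module.finrank_self] at h2
      simp only [Nat.cast_one, one_mul] at h2
      linarith
    · have h1 := h M (fun _ => algebraMap K M l) hx0 hne
      rw [mul_assoc] at h1
      refine le_trans ?_ h1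
      have h2 : proxM S (fun _ => max q (G.degreeOf 0)) G (fun _ => algebraMap K M l) =
          PS S (fun a : AbsoluteValue M ℝ => Real.log ((∏ _i : Fin 1, max (a (algebraMap K M l)) 1 ^
            (max q (G.degreeOf 0))) /
            a (MvPolynomial.aeval (fun _ : Fin 1 => algebraMap K M l) G))) := rfl
      rw [h2]
      refine PS_mono S hS fun a _ => ?_
      rw [hev, Finset.prod_const, Finset.card_univ, Fintype.card_fin, pow_one, Real.log_div
        (pow_ne_zero _ (ne_of_gt (lt_of_lt_of_le one_pos (le_max_right _ _))))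
        (a.ne_zero ((_root_.map_ne_zero _).2 hRl)), Real.log_pow, max_comm (a _) 1]
      refine sub_le_sub_right ?_ _
      refine mul_le_mul_of_nonneg_right ?_ (log_mx_nonneg a _)
      exact_mod_cast le_max_left _ _

/-- a constant -/
noncomputable def Kc {K : Type} [Field K] (m : ℕ) (T : Finset K) {M : Type} [Field M] [Algebra K M]
    (v : AbsoluteValue M ℝ) : ℝ := m * ∑ c ∈ T, Real.log (mx v (algebraMap K M c))

theorem Kc_nonneg {K : Type} [Field K] (m : ℕ) (T : Finset K) {M : Type} [Field M]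
    [NumberField M] [Algebra K M] (v : AbsoluteValue M ℝ) : 0 ≤ Kc m T v :=
  mul_nonneg (Nat.cast_nonneg _) (Finset.sum_nonneg fun c _ => log_mx_nonneg v _)

theorem Kc_mono {K : Type} [Field K] {m m' : ℕ} {T T' : Finset K} (hm : m ≤ m') (hT : T ⊆ T')
    {M : Type} [Field M] [NumberField M] [Algebra K M] (v : AbsoluteValue M ℝ) :
    Kc m T v ≤ Kc m' T' v := by
  unfold Kc
  have h1 : ∑ c ∈ T, Real.log (mx v (algebraMap K M c)) ≤
      ∑ c ∈ T', Real.log (mx v (algebraMap K M c)) :=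
    Finset.sum_le_sum_of_subset_of_nonneg hT fun _ _ _ => log_mx_nonneg v _
  have h2 : (m : ℝ) ≤ m' := by exact_mod_cast hm
  exact mul_le_mul h2 h1 (Finset.sum_nonneg fun c _ => log_mx_nonneg v _) (Nat.cast_nonneg _)

theorem Kc_add {K : Type} [Field K] [DecidableEq K] (m m' : ℕ) (T T' : Finset K)
    {M : Type} [Field M] [NumberField M] [Algebra K M] (v : AbsoluteValue M ℝ) :
    Kc m T v + Kc m' T' v ≤ Kc (m + m') (T ∪ T') v := by
  have h1 : Kc m T v ≤ Kc m (T ∪ T') v := Kc_mono le_rfl Finset.subset_union_left v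
  have h2 : Kc m' T' v ≤ Kc m' (T ∪ T') v := Kc_mono le_rfl Finset.subset_union_right v
  have h3 : Kc (m + m') (T ∪ T') v = Kc m (T ∪ T') v + Kc m' (T ∪ T') v := by
    unfold Kc
    push_cast
    ring
  rw [h3]
  exact add_le_add h1 h2

theorem Kc_mul {K : Type} [Field K] (n m : ℕ) (T : Finset K)
    {M : Type} [Field M] [NumberField M] [Algebra K M] (v : AbsoluteValue M ℝ) :
    (n : ℝ) * Kc m T v = Kc (n * m) T v := by
  unfold Kc
  push_cast
  ring

theorem Kc_one {K : Type} [Field K] (c : K) {M : Type} [Field M] [NumberField M] [Algebra K M]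
    (v : AbsoluteValue M ℝ) : Real.log (mx v (algebraMap K M c)) = Kc 1 {c} v := by
  unfold Kc
  simp

theorem Kc_two {K : Type} [Field K] {M : Type} [Field M] [NumberField M] [Algebra K M]
    (v : AbsoluteValue M ℝ) : Real.log (mx v 2) = Kc (K := K) 1 {2} v := by
  rw [← Kc_one, map_ofNat]

theorem Kc_PS {K : Type} [Field K] [NumberField K] (S : Finset ℕ) (hS : ∀ p ∈ S, p.Prime)
    (m : ℕ) (T : Finset K) :
    ∃ C : ℝ, 0 ≤ C ∧ ∀ (M : Type) [Field M] [NumberField M] [Algebra K M],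
      PS S (fun v : AbsoluteValue M ℝ => Kc m T v) ≤ C * Module.finrank K M := by
  refine ⟨m * ∑ c ∈ T, logHeight₁ c, ?_, ?_⟩
  · exact mul_nonneg (Nat.cast_nonneg _) (Finset.sum_nonneg fun c _ => zero_le_logHeight₁ c)
  · intro M _ _ _
    unfold Kc
    rw [PS_smul S hS, PS_sum S hS, mul_assoc, Finset.sum_mul]
    refine mul_le_mul_of_nonneg_left ?_ (Nat.cast_nonneg _)
    refine Finset.sum_le_sum fun c _ => ?_
    have h1 := PS_ht S hS (algebraMap K M c)
    rw [Pool.Agent.N572.DR.Inv.ht_ext, mul_comm] at h1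
    exact h1

/-- the size of the two conjugates -/
theorem mx_root {K : Type} [Field K] [NumberField K] (a xs ys : K) : ∃ (m : ℕ) (T : Finset K),
    ∀ (M : Type) [Field M] [NumberField M] [Algebra K M] (v : AbsoluteValue M ℝ), Gv v →
      ∀ l x x' : M, (x - algebraMap K M xs) + (x' - algebraMap K M xs) = aeval l (Bp xs) →
        (x - algebraMap K M xs) * (x' - algebraMap K M xs) = -aeval l (Ap a xs ys) →
        Real.log (mx v x) ≤ 3 * Real.log (mx v l) + Kc m T v := by
  classical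
  obtain ⟨m1, T1, h1⟩ := eval_le (Bp xs)
  obtain ⟨m2, T2, h2⟩ := eval_le (Ap a xs ys)
  have d1 : (Bp xs).natDegree ≤ 2 := by
    unfold Bp
    compute_degree
  have d2 : (Ap a xs ys).natDegree ≤ 1 := by
    unfold Ap
    compute_degree
  refine ⟨m1 + m2 + 1 + 2, T1 ∪ T2 ∪ {xs} ∪ {2}, ?_⟩
  intro M _ _ _ v hv l x x' hs hp
  obtain ⟨u, hu⟩ : ∃ u, u = x - algebraMap K M xs := ⟨_, rfl⟩
  obtain ⟨u', hu'⟩ : ∃ u', u' = x' - algebraMap K M xs := ⟨_, rfl⟩
  rw [← hu, ← hu'] at hs hp
  have e1 : u ^ 2 = aeval l (Bp xs) * u + aeval l (Ap a xs ys) := by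
    rw [← hs]
    linear_combination -hp
  have e2 := root_le hv e1
  have e3 : x = u + algebraMap K M xs := by rw [hu]; ring
  have e4 := mx_add hv u (algebraMap K M xs)
  rw [← e3] at e4
  have g1 := h1 M v hv l
  have g2 := h2 M v hv l
  have hl := log_mx_nonneg v l
  have f1 : Real.log (mx v u) ≤ Real.log (mx v 2) + (Real.log (mx v (aeval l (Bp xs))) +
      Real.log (mx v (aeval l (Ap a xs ys)))) := by
    have := Real.log_le_log (mx_pos v u) e2
    rwa [Real.log_mul (mx_pos v _).ne' (mul_pos (mx_pos v _) (mx_pos v _)).ne',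
      Real.log_mul (mx_pos v _).ne' (mx_pos v _).ne'] at this
  have f2 : Real.log (mx v x) ≤ Real.log (mx v 2) + (Real.log (mx v u) +
      Real.log (mx v (algebraMap K M xs))) := by
    have := Real.log_le_log (mx_pos v x) e4
    rwa [Real.log_mul (mx_pos v _).ne' (mul_pos (mx_pos v _) (mx_pos v _)).ne',
      Real.log_mul (mx_pos v _).ne' (mx_pos v _).ne'] at this
  have c1 : ((Bp xs).natDegree : ℝ) * Real.log (mx v l) ≤ 2 * Real.log (mx v l) :=
    mul_le_mul_of_nonneg_right (by exact_mod_cast d1) hl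
  have c2 : ((Ap a xs ys).natDegree : ℝ) * Real.log (mx v l) ≤ 1 * Real.log (mx v l) :=
    mul_le_mul_of_nonneg_right (by exact_mod_cast d2) hl
  have k1 := Kc_add m1 m2 T1 T2 v
  have k2 := Kc_add (m1 + m2) 1 (T1 ∪ T2) {xs} v
  have k3 := Kc_add (m1 + m2 + 1) 2 (T1 ∪ T2 ∪ {xs}) {2} v
  have k4 : Real.log (mx v (algebraMap K M xs)) = Kc 1 {xs} v := Kc_one xs v
  have k5 : 2 * Real.log (mx v 2) = Kc (K := K) 2 {2} v := by
    rw [Kc_two (K := K), show (2 : ℝ) = ((2 : ℕ) : ℝ) by norm_num, Kc_mul]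
  have k6 : Kc m1 T1 v = m1 * ∑ c ∈ T1, Real.log (mx v (algebraMap K M c)) := rfl
  have k7 : Kc m2 T2 v = m2 * ∑ c ∈ T2, Real.log (mx v (algebraMap K M c)) := rfl
  rw [← k6] at g1
  rw [← k7] at g2
  linarith

/-- the value at a point is bounded from below by the value of the norm form at the slope -/
theorem conj_le {K : Type} [Field K] [NumberField K] (a xs ys : K)
    (hns : ¬ (ys = 0 ∧ 3 * xs ^ 2 + a = 0)) (p : K[X]) (hp : p ≠ 0) (q : ℕ) :
    ∃ (R : K[X]) (m : ℕ) (T : Finset K), R ≠ 0 ∧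
    ∀ (M : Type) [Field M] [NumberField M] [Algebra K M] (l x x' : M),
      (x - algebraMap K M xs) + (x' - algebraMap K M xs) = aeval l (Bp xs) →
      (x - algebraMap K M xs) * (x' - algebraMap K M xs) = -aeval l (Ap a xs ys) →
      aeval l R ≠ 0 → aeval x p ≠ 0 ∧ ∀ v : AbsoluteValue M ℝ, Gv v →
        q * Real.log (mx v x) - Real.log (v (aeval x p)) ≤
          ((3 * (q + p.natDegree) : ℕ) : ℝ) * Real.log (mx v l) - Real.log (v (aeval l R)) +
            Kc m T v := by
  classical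
  obtain ⟨R, hR, hRe⟩ := exists_R a xs ys hns p hp
  obtain ⟨m1, T1, h1⟩ := mx_root a xs ys
  obtain ⟨m2, T2, h2⟩ := eval_le p
  refine ⟨R, q * m1 + (m2 + p.natDegree * m1), T1 ∪ (T2 ∪ T1), hR, ?_⟩
  intro M _ _ _ l x x' hs hpr hne
  have e0 := hRe M l (x - algebraMap K M xs) (x' - algebraMap K M xs) hs hpr
  rw [sub_add_cancel, sub_add_cancel] at e0
  rw [← e0] at hne
  have hx := left_ne_zero_of_mul hne
  have hx' := right_ne_zero_of_mul hne
  refine ⟨hx, fun v hv => ?_⟩
  have f1 := h1 M v hv l x x' hs hpr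
  have f2 := h1 M v hv l x' x (by rw [add_comm]; exact hs) (by rw [mul_comm]; exact hpr)
  have f3 := h2 M v hv x'
  have f4 : Real.log (v (aeval l R)) = Real.log (v (aeval x p)) + Real.log (v (aeval x' p)) := by
    rw [← e0, map_mul, Real.log_mul (v.ne_zero hx) (v.ne_zero hx')]
  have f5 : Real.log (v (aeval x' p)) ≤ Real.log (mx v (aeval x' p)) :=
    Real.log_le_log (v.pos hx') (le_mx v _)
  have hd : (0 : ℝ) ≤ p.natDegree := Nat.cast_nonneg _
  have hq : (0 : ℝ) ≤ q := Nat.cast_nonneg _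
  have k0 : (q : ℝ) * Kc m1 T1 v = Kc (q * m1) T1 v := Kc_mul _ _ _ v
  have k1 : (p.natDegree : ℝ) * Kc m1 T1 v = Kc (p.natDegree * m1) T1 v := Kc_mul _ _ _ v
  have k2 := Kc_add m2 (p.natDegree * m1) T2 T1 v
  have k3 := Kc_add (q * m1) (m2 + p.natDegree * m1) T1 (T2 ∪ T1) v
  have k6 : Kc m2 T2 v = m2 * ∑ c ∈ T2, Real.log (mx v (algebraMap K M c)) := rfl
  rw [← k6] at f3
  have g1 := mul_le_mul_of_nonneg_left f1 hq
  have g2 := mul_le_mul_of_nonneg_left f2 hd
  rw [mul_add, k0] at g1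
  rw [mul_add, k1] at g2
  push_cast
  linarith

end Pool.Agent.U47.QF
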