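import Mathlib
import Pool.Agent.U47.QF.Prx

/-!
# Proximity for the quadratic points with given trace: the property of the points
-/

set_option autoImplicit false
set_option linter.unusedSectionVars false

open Height NumberField IsDedekindDomain Polynomial WeierstrassCurve Pool.Agent.TH942
open Pool.Agent.U47.QE

namespace Pool.Agent.U47.QF

/-- the property of the points: the value of `p` at `x` is not small at the places in `S` and at the
infinite places -/
def Px {K : Type} [Field K] [NumberField K] (p : K[X]) (q : ℕ) (S : Finset ℕ) (κ : ℝ) : Prd K :=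
  fun L _ _ _ x _ => aeval x p ≠ 0 ∧ ∀ (M : Type) [Field M] [NumberField M] [Algebra K M]
    [Algebra L M] [IsScalarTower K L M], PS S (fun v : AbsoluteValue M ℝ =>
      q * Real.log (mx v (algebraMap L M x)) -
        Real.log (v (algebraMap L M (aeval x p)))) ≤ κ * (logHeight₁ x * Module.finrank L M)

theorem oneTs_px {K : Type} [Field K] [NumberField K] (a b : 𝓞 K)
    (hab : 4 * (a : K) ^ 3 + 27 * (b : K) ^ 2 ≠ 0) (s : EP (a : K) (b : K) K) (p : K[X])
    (hp : p ≠ 0) (q : ℕ) (S : Finset ℕ) (hS : ∀ p ∈ S, p.Prime) (κ : ℝ) (hκ : 0 < κ) :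
    OneTs (a : K) (b : K) s (Px p q S κ) := by
  classical
  obtain ⟨E, hE, hEP⟩ := exists_EK K
  obtain ⟨Cs, hCs, hht⟩ := par_height s
  obtain ⟨nK, hnK⟩ : ∃ nK : ℝ, nK = Module.finrank ℚ K := ⟨_, rfl⟩
  have hnK0 : 0 < nK := by
    rw [hnK]
    exact_mod_cast Module.finrank_pos
  -- a common form
  obtain ⟨R, m, T, hR, hcore⟩ : ∃ (R : K[X]) (m : ℕ) (T : Finset K), R ≠ 0 ∧
      ∀ (L : Type) [Field L] [NumberField L] [Algebra K L] (σ : L ≃ₐ[K] L) (x y : L)
        (h : (sw (algebraMap K L (a : K)) (algebraMap K L (b : K))).toAffine.Nonsingular x y)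
        (l : K), Par s σ (Affine.Point.some x y h : EP (a : K) (b : K) L) l → R.eval l ≠ 0 →
        aeval x p ≠ 0 ∧ ∀ (M : Type) [Field M] [NumberField M] [Algebra K M]
          [Algebra L M] [IsScalarTower K L M] (v : AbsoluteValue M ℝ), Gv v →
          q * Real.log (mx v (algebraMap L M x)) -
            Real.log (v (algebraMap L M (aeval x p))) ≤
            ((3 * (q + p.natDegree) : ℕ) : ℝ) * Real.log (mx v (algebraMap K M l)) -
              Real.log (v (algebraMap K M (R.eval l))) + Kc m T v := by
    match s with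
    | 0 =>
      refine ⟨p, 0, ∅, hp, ?_⟩
      intro L _ _ _ σ x y h l hpar hne
      rcases hpar with ⟨-, y', h', he, -⟩ | ⟨xs, ys, hs, he, -⟩
      · rw [Affine.Point.some.injEq] at he
        have hx : x = algebraMap K L l := he.1
        have hxe : aeval x p = algebraMap K L (p.eval l) := by
          rw [hx, aeval_algebraMap_apply, coe_aeval_eq_eval]
        refine ⟨by rw [hxe]; exact (_root_.map_ne_zero _).2 hne, ?_⟩
        intro M _ _ _ _ _ v hv
        rw [hxe, hx, ← IsScalarTower.algebraMap_apply, ← IsScalarTower.algebraMap_apply]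
        have h1 := Kc_nonneg (K := K) 0 ∅ v
        have h2 := log_mx_nonneg v (algebraMap K M l)
        have h3 : (q : ℝ) * Real.log (mx v (algebraMap K M l)) ≤
            ((3 * (q + p.natDegree) : ℕ) : ℝ) * Real.log (mx v (algebraMap K M l)) := by
          refine mul_le_mul_of_nonneg_right ?_ h2
          exact_mod_cast (by omega : q ≤ 3 * (q + p.natDegree))
        linarith
      · exact absurd he (by intro h; cases h)
    | .some x0 y0 hs0 =>
      have heq : y0 ^ 2 = x0 ^ 3 + (a : K) * x0 + (b : K) := eqL hs0
      have hns : ¬ (y0 = 0 ∧ 3 * x0 ^ 2 + (a : K) = 0) := by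
        rintro ⟨h1, h2⟩
        apply hab
        rw [h1] at heq
        have h3 : (a : K) = -3 * x0 ^ 2 := by linear_combination h2
        have h4 : (b : K) = 2 * x0 ^ 3 := by
          rw [h3] at heq
          linear_combination -heq
        rw [h3, h4]
        ring
      obtain ⟨R, m, T, hR, h⟩ := conj_le (a : K) x0 y0 hns p hp q
      refine ⟨R, m, T, hR, ?_⟩
      intro L _ _ _ σ x y hxy l hpar hne
      rcases hpar with ⟨h0, -⟩ | ⟨xs, ys, hs, he, x', y', h', he', hsx, hy, hsum, hprod⟩
      · exact absurd h0 (by intro h; cases h)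
      rw [Affine.Point.some.injEq] at he he'
      obtain ⟨rfl, rfl⟩ := he
      obtain ⟨rfl, rfl⟩ := he'
      have hM : ∀ (M : Type) [Field M] [NumberField M] [Algebra K M]
          [Algebra L M] [IsScalarTower K L M],
          (algebraMap L M x - algebraMap K M x0) + (algebraMap L M (σ x) - algebraMap K M x0) =
            aeval (algebraMap K M l) (Bp x0) ∧
          (algebraMap L M x - algebraMap K M x0) * (algebraMap L M (σ x) - algebraMap K M x0) =
            -aeval (algebraMap K M l) (Ap (a : K) x0 y0) ∧
          aeval (algebraMap K M l) R = algebraMap K M (R.eval l) := by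
        intro M _ _ _ _ _
        refine ⟨?_, ?_, ?_⟩
        · have e1 := congrArg (algebraMap L M) hsum
          simp only [map_add, map_sub, map_mul, map_pow, map_ofNat,
            ← IsScalarTower.algebraMap_apply K L M] at e1
          simp only [Bp, map_sub, map_mul, map_pow, aeval_X, aeval_C, map_ofNat]
          linear_combination e1
        · have e1 := congrArg (algebraMap L M) hprod
          simp only [map_add, map_sub, map_mul, map_pow, map_ofNat,
            ← IsScalarTower.algebraMap_apply K L M] at e1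
          simp only [Ap, map_neg, map_add, map_mul, map_pow, aeval_X, aeval_C, map_ofNat]
          linear_combination e1
        · rw [aeval_algebraMap_apply, coe_aeval_eq_eval]
      have hL := hM L
      obtain ⟨l1, l2, l3⟩ := hL
      have hne' : aeval (algebraMap K L l) R ≠ 0 := by
        rw [l3]
        exact (_root_.map_ne_zero _).2 hne
      refine ⟨(h L (algebraMap K L l) x (σ x) l1 l2 hne').1, ?_⟩
      intro M _ _ _ _ _ v hv
      obtain ⟨m1, m2, m3⟩ := hM M
      have hne2 : aeval (algebraMap K M l) R ≠ 0 := by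
        rw [m3]
        exact (_root_.map_ne_zero _).2 hne
      have h5 := (h M (algebraMap K M l) _ _ m1 m2 hne2).2 v hv
      rw [m3] at h5
      have h6 : algebraMap L M (aeval x p) = aeval (algebraMap L M x) p :=
        (aeval_algebraMap_apply M x p).symm
      rw [h6]
      exact h5
  obtain ⟨C, hC, hPS⟩ := Kc_PS S hS m T
  obtain ⟨U, hU0, hU⟩ := hEP R hR (3 * (q + p.natDegree)) S hS (κ / (4 * nK)) (by positivity)
  refine ⟨E, {l | R.IsRoot l}, max (max Cs (4 * C / κ)) (2 * U + Cs), hE, ?_, ?_⟩
  · refine (R.roots.toFinset.finite_toSet).subset fun l hl => ?_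
    rw [Finset.mem_coe, Multiset.mem_toFinset, mem_roots hR]
    exact hl
  intro L _ _ _ σ x y h l hQ hpar hlE hlZ hH
  have hH1 : Cs < logHeight₁ x := ((le_max_left _ _).trans (le_max_left _ _)).trans_lt hH
  have hH2 : 4 * C / κ < logHeight₁ x := ((le_max_right _ _).trans (le_max_left _ _)).trans_lt hH
  have hH3 : 2 * U + Cs < logHeight₁ x := (le_max_right _ _).trans_lt hH
  have hRl : R.eval l ≠ 0 := hlZ
  have hd := hQ.cj.deg
  have hh := hht L σ _ l hd hpar
  rw [QE.sht_some, abs_le] at hh
  have hUl : U < logHeight₁ l := by linarith [hh.2]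
  have hlx : logHeight₁ l ≤ logHeight₁ x := by linarith [hh.1]
  obtain ⟨hx, hv⟩ := hcore L σ x y h l hpar hRl
  refine ⟨hx, ?_⟩
  intro M _ _ _ _ _
  have g1 := PS_mono S hS (fun v hg => hv M v hg)
  rw [PS_add S hS] at g1
  have g2 := hU l hlE hUl hRl M
  have g3 := hPS M
  have n1 : (Module.finrank K M : ℝ) = 2 * Module.finrank L M := by
    rw [← Module.finrank_mul_finrank K L M, hd]
    push_cast
    ring
  have n2 : (Module.finrank ℚ M : ℝ) = nK * (2 * Module.finrank L M) := by
    rw [← n1, hnK, ← Module.finrank_mul_finrank ℚ K M]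
    push_cast
    ring
  rw [n2] at g2
  rw [n1] at g3
  have hf : (0 : ℝ) < Module.finrank L M := by
    have : FiniteDimensional L M := FiniteDimensional.right ℚ L M
    exact_mod_cast Module.finrank_pos
  have g4 : κ / (4 * nK) * (logHeight₁ l * (nK * (2 * Module.finrank L M))) =
      κ / 2 * (logHeight₁ l * Module.finrank L M) := by
    field_simp
    ring
  rw [g4] at g2
  have g5 : κ / 2 * (logHeight₁ l * Module.finrank L M) ≤
      κ / 2 * (logHeight₁ x * Module.finrank L M) :=
    mul_le_mul_of_nonneg_left (mul_le_mul_of_nonneg_right hlx hf.le) (by positivity)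
  have g6 : C * (2 * Module.finrank L M) ≤ κ / 2 * (logHeight₁ x * Module.finrank L M) := by
    rw [div_lt_iff₀ hκ] at hH2
    nlinarith
  linarith

end Pool.Agent.U47.QF
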