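import Mathlib
import Pool.Agent.U47.QF.PrxB
import Pool.Agent.U47.QF.MainT

/-!
# One exceptional set for all proximity functions
-/

set_option autoImplicit false
set_option linter.unusedSectionVars false

open Height NumberField IsDedekindDomain Polynomial WeierstrassCurve Pool.Agent.TH942
open Pool.Agent.U47.QE

namespace Pool.Agent.U47.QF

theorem px_mono {K : Type} [Field K] [NumberField K] {p : K[X]} {q : ℕ} {S : Finset ℕ}
    {κ κ' : ℝ} (h : κ ≤ κ') {L : Type} [Field L] [NumberField L] [Algebra K L] {x y : L}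
    (hp : Px p q S κ L x y) : Px p q S κ' L x y := by
  refine ⟨hp.1, ?_⟩
  intro M _ _ _ _ _
  refine (hp.2 M).trans ?_
  refine mul_le_mul_of_nonneg_right h ?_
  exact mul_nonneg (zero_le_logHeight₁ x) (Nat.cast_nonneg _)

theorem proxAll {K : Type} [Field K] [NumberField K] (a b : 𝓞 K)
    (hab : 4 * (a : K) ^ 3 + 27 * (b : K) ^ 2 ≠ 0) :
    ∃ E : Set (EP (a : K) (b : K) (AlgebraicClosure K)), Ngl (QQ (a : K) (b : K)) E ∧
      ∀ p : K[X], p ≠ 0 → ∀ (q : ℕ) (S : Finset ℕ), (∀ r ∈ S, r.Prime) → ∀ κ : ℝ, 0 < κ →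
        ∃ X : ℝ, ∀ (L : Type) [Field L] [NumberField L] [Algebra K L]
          (ι : L →ₐ[K] AlgebraicClosure K) (x y : L)
          (h : (sw (algebraMap K L (a : K)) (algebraMap K L (b : K))).toAffine.Nonsingular x y),
          Module.finrank K L = 2 →
          ¬ (x ∈ Set.range (algebraMap K L) ∧ y ∈ Set.range (algebraMap K L)) →
          mp (a : K) (b : K) ι (Affine.Point.some x y h) ∉ E → X < logHeight₁ x →
          Px p q S κ L x y := by
  classical
  have hc : Countable K := Pool.Agent.N572.DR.KE.countable_nf K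
  have hcp : Countable K[X] := by
    rw [← Cardinal.mk_le_aleph0_iff]
    refine Polynomial.cardinalMk_le_max.trans ?_
    exact max_le (Cardinal.mk_le_aleph0_iff.2 hc) le_rfl
  have hcd : Countable (K[X] × ℕ × Finset ℕ × ℕ) := inferInstance
  obtain ⟨f, hf⟩ := exists_surjective_nat (K[X] × ℕ × Finset ℕ × ℕ)
  let G : ℕ → Prd K := fun n L _ _ _ x y => (f n).1 ≠ 0 → (∀ r ∈ (f n).2.2.1, r.Prime) →
    Px (f n).1 (f n).2.1 (f n).2.2.1 (1 / ((f n).2.2.2 + 1)) L x y
  obtain ⟨E, hE, hEG⟩ := final_gen2 a b hab G (by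
    intro n s
    by_cases h1 : (f n).1 ≠ 0 ∧ ∀ r ∈ (f n).2.2.1, r.Prime
    · obtain ⟨E, Z, H, e1, e2, e3⟩ := oneTs_px a b hab s (f n).1 h1.1 (f n).2.1 (f n).2.2.1 h1.2
        (1 / ((f n).2.2.2 + 1)) (by positivity)
      refine ⟨E, Z, H, e1, e2, ?_⟩
      intro L _ _ _ σ x y h l hQ hpar hlE hlZ hH _ _
      exact e3 L σ x y h l hQ hpar hlE hlZ hH
    · refine ⟨∅, ∅, 0, ?_, Set.finite_empty, ?_⟩
      · intro δ hδ
        refine ⟨0, fun H _ => ?_⟩
        rw [Set.empty_inter, Set.ncard_empty, Nat.cast_zero]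
        positivity
      · intro L _ _ _ σ x y h l hQ hpar hlE hlZ hH g1 g2
        exact absurd ⟨g1, g2⟩ h1)
  refine ⟨E, hE, ?_⟩
  intro p hp q S hS κ hκ
  obtain ⟨N, hN⟩ := exists_nat_one_div_lt hκ
  obtain ⟨n, hn⟩ := hf (p, q, S, N)
  obtain ⟨X, hX⟩ := hEG n
  refine ⟨X, ?_⟩
  intro L _ _ _ ι x y h h1 h2 h3 h4
  have h5 := hX L ι x y h h1 h2 h3 h4
  simp only [G, hn] at h5
  exact px_mono hN.le (h5 hp hS)

/-- a linear polynomial over `k` divides a polynomial over `K` -/
theorem exists_mult {K k : Type} [Field K] [Field k] [NumberField K] [NumberField k] [Algebra K k]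
    (u w : k) (h : u ≠ 0 ∨ w ≠ 0) :
    ∃ (p : K[X]) (r : k[X]), p ≠ 0 ∧ p.map (algebraMap K k) = (C u * X + C w) * r ∧
      r.natDegree ≤ p.natDegree := by
  have hfd : FiniteDimensional K k := FiniteDimensional.right ℚ K k
  rcases eq_or_ne u 0 with hu | hu
  · have hw : w ≠ 0 := by
      rcases h with h | h
      · exact absurd hu h
      · exact h
    refine ⟨1, C w⁻¹, one_ne_zero, ?_, ?_⟩
    · rw [hu, C_0, zero_mul, zero_add, ← C_mul, mul_inv_cancel₀ hw, C_1, Polynomial.map_one]
    · simp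
  · have hint : IsIntegral K (-w / u) := IsIntegral.of_finite K _
    have h1 : ((minpoly K (-w / u)).map (algebraMap K k)).IsRoot (-w / u) := by
      rw [IsRoot.def, eval_map_algebraMap, minpoly.aeval]
    obtain ⟨r, hr⟩ := dvd_iff_isRoot.2 h1
    have hp0 := minpoly.ne_zero hint
    refine ⟨minpoly K (-w / u), C u⁻¹ * r, hp0, ?_, ?_⟩
    · rw [hr]
      have h2 : C u * X + C w = C u * (X - C (-w / u)) := by
        rw [mul_sub, ← C_mul, mul_div_cancel₀ _ hu, C_neg]
        ring
      rw [h2]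
      have h3 : (C u * C u⁻¹ : k[X]) = 1 := by rw [← C_mul, mul_inv_cancel₀ hu, C_1]
      linear_combination (-(X - C (-w / u)) * r) * h3
    · have h2 : r.natDegree ≤ (minpoly K (-w / u)).natDegree := by
        rw [← natDegree_map (algebraMap K k), hr]
        have hr0 : r ≠ 0 := by
          intro h0
          rw [h0, mul_zero] at hr
          exact hp0 ((Polynomial.map_eq_zero_iff (algebraMap K k).injective).1 hr)
        rw [natDegree_mul (X_sub_C_ne_zero _) hr0]
        omega
      exact (natDegree_C_mul_le _ _).trans h2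

/-- the local estimate -/
theorem loc_lin {K k : Type} [Field K] [Field k] [NumberField K] [NumberField k] [Algebra K k]
    (g : Fin 4 → K) (hg : g 0 * g 3 - g 1 * g 2 ≠ 0) (β : k) :
    ∃ (p : K[X]) (m : ℕ) (T : Finset k), p ≠ 0 ∧
      ∀ (L : Type) [Field L] [NumberField L] [Algebra K L] [Algebra k L] [IsScalarTower K k L]
        (x t : L), algebraMap K L (g 2) * x + algebraMap K L (g 3) ≠ 0 →
        t * (algebraMap K L (g 2) * x + algebraMap K L (g 3)) =
          algebraMap K L (g 0) * x + algebraMap K L (g 1) →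
        aeval x p ≠ 0 → ∀ v : AbsoluteValue L ℝ, Gv v →
          max 0 (-Real.log (v (t - algebraMap k L β))) ≤
            ((p.natDegree + 1 : ℕ) * Real.log (mx v x) - Real.log (v (aeval x p))) +
              Kc m T v := by
  classical
  have hne : algebraMap K k (g 0) - β * algebraMap K k (g 2) ≠ 0 ∨
      algebraMap K k (g 1) - β * algebraMap K k (g 3) ≠ 0 := by
    by_contra hcon
    push Not at hcon
    obtain ⟨h1, h2⟩ := hcon
    apply hg
    apply (algebraMap K k).injective
    rw [map_sub, map_mul, map_mul, map_zero]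
    linear_combination (algebraMap K k (g 3)) * h1 - (algebraMap K k (g 2)) * h2
  obtain ⟨p, r, hp, hpr, hrd⟩ := exists_mult (K := K) _ _ hne
  obtain ⟨m1, T1, h1⟩ := eval_le (k := k) (C (algebraMap K k (g 2)) * X + C (algebraMap K k (g 3)))
  obtain ⟨m2, T2, h2⟩ := eval_le (k := k) r
  obtain ⟨m3, T3, h3⟩ := eval_le (k := k) (p.map (algebraMap K k))
  refine ⟨p, (m1 + m2) + m3, (T1 ∪ T2) ∪ T3, hp, ?_⟩
  intro L _ _ _ _ _ x t hden ht hpx v hv
  have e1 := h1 L v hv x
  have e2 := h2 L v hv x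
  have e3 := h3 L v hv x
  have hden' : aeval x (C (algebraMap K k (g 2)) * X + C (algebraMap K k (g 3))) =
      algebraMap K L (g 2) * x + algebraMap K L (g 3) := by
    rw [map_add, map_mul, aeval_X, aeval_C, aeval_C, ← IsScalarTower.algebraMap_apply,
      ← IsScalarTower.algebraMap_apply]
  rw [hden'] at e1
  rw [aeval_map_algebraMap, natDegree_map] at e3
  have hfac : aeval x p = (algebraMap k L (algebraMap K k (g 0) - β * algebraMap K k (g 2)) * x +
      algebraMap k L (algebraMap K k (g 1) - β * algebraMap K k (g 3))) * aeval x r := by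
    rw [← aeval_map_algebraMap k x p, hpr, map_mul, map_add, map_mul, aeval_X, aeval_C, aeval_C]
  have hlin : (t - algebraMap k L β) * (algebraMap K L (g 2) * x + algebraMap K L (g 3)) =
      algebraMap k L (algebraMap K k (g 0) - β * algebraMap K k (g 2)) * x +
      algebraMap k L (algebraMap K k (g 1) - β * algebraMap K k (g 3)) := by
    rw [sub_mul, ht]
    simp only [map_sub, map_mul, ← IsScalarTower.algebraMap_apply K k L]
    ring
  rw [← hlin] at hfac
  have hr0 : aeval x r ≠ 0 := by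
    intro h0
    rw [h0, mul_zero] at hfac
    exact hpx hfac
  have ht0 : t - algebraMap k L β ≠ 0 := by
    intro h0
    rw [h0, zero_mul, zero_mul] at hfac
    exact hpx hfac
  have hl : Real.log (v (aeval x p)) = Real.log (v (t - algebraMap k L β)) +
      Real.log (v (algebraMap K L (g 2) * x + algebraMap K L (g 3))) +
      Real.log (v (aeval x r)) := by
    rw [hfac, map_mul, map_mul, Real.log_mul (mul_ne_zero (v.ne_zero ht0) (v.ne_zero hden))
      (v.ne_zero hr0), Real.log_mul (v.ne_zero ht0) (v.ne_zero hden)]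
  have f1 : Real.log (v (algebraMap K L (g 2) * x + algebraMap K L (g 3))) ≤
      Real.log (mx v (algebraMap K L (g 2) * x + algebraMap K L (g 3))) :=
    Real.log_le_log (v.pos hden) (le_mx v _)
  have f2 : Real.log (v (aeval x r)) ≤ Real.log (mx v (aeval x r)) :=
    Real.log_le_log (v.pos hr0) (le_mx v _)
  have f3 : Real.log (v (aeval x p)) ≤ Real.log (mx v (aeval x p)) :=
    Real.log_le_log (v.pos hpx) (le_mx v _)
  have hx0 := log_mx_nonneg v x
  have d1 : ((C (algebraMap K k (g 2)) * X + C (algebraMap K k (g 3))).natDegree : ℝ) *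
      Real.log (mx v x) ≤ 1 * Real.log (mx v x) := by
    refine mul_le_mul_of_nonneg_right ?_ hx0
    exact_mod_cast natDegree_linear_le
  have d2 : (r.natDegree : ℝ) * Real.log (mx v x) ≤ p.natDegree * Real.log (mx v x) :=
    mul_le_mul_of_nonneg_right (by exact_mod_cast hrd) hx0
  have k1 := Kc_add m1 m2 T1 T2 v
  have k2 := Kc_add (m1 + m2) m3 (T1 ∪ T2) T3 v
  have k3 : Kc m1 T1 v = m1 * ∑ c ∈ T1, Real.log (mx v (algebraMap k L c)) := rfl
  have k4 : Kc m2 T2 v = m2 * ∑ c ∈ T2, Real.log (mx v (algebraMap k L c)) := rfl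
  have k5 : Kc m3 T3 v = m3 * ∑ c ∈ T3, Real.log (mx v (algebraMap k L c)) := rfl
  rw [← k3] at e1
  rw [← k4] at e2
  rw [← k5] at e3
  have n1 := Kc_nonneg m1 T1 v
  have n2 := Kc_nonneg m2 T2 v
  have n3 := Kc_nonneg m3 T3 v
  push_cast
  refine max_le ?_ ?_
  · nlinarith
  · linarith

end Pool.Agent.U47.QF
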