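import Mathlib
import Pool.Agent.U47.QF.PrxC

/-!
# The proximity to algebraic points of the line
-/

set_option autoImplicit false
set_option linter.unusedSectionVars false

open Height NumberField IsDedekindDomain Polynomial WeierstrassCurve Pool.Agent.TH942
open Pool.Agent.U47.QE

namespace Pool.Agent.U47.QF

/-- a quadratic point over a large field comes from a quadratic point over a quadratic field -/
theorem descend {K : Type} [Field K] [NumberField K] {a b : 𝓞 K}
    (hab : 4 * (a : K) ^ 3 + 27 * (b : K) ^ 2 ≠ 0) {L : Type} [Field L] [NumberField L]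
    [Algebra K L] (ι : L →ₐ[K] AlgebraicClosure K) {x y : L}
    (h : (sw (algebraMap K L (a : K)) (algebraMap K L (b : K))).toAffine.Nonsingular x y)
    (hdeg : Module.finrank K (IntermediateField.adjoin K {x, y}) = 2)
    {E : Set (EP (a : K) (b : K) (AlgebraicClosure K))}
    (hexc : mp (a : K) (b : K) ι (Affine.Point.some x y h) ∉ E) :
    ∃ (L0 : IntermediateField K L) (x0 y0 : L0)
      (hns : (sw (algebraMap K L0 (a : K)) (algebraMap K L0 (b : K))).toAffine.Nonsingular x0 y0),
      algebraMap L0 L x0 = x ∧ Module.finrank K L0 = 2 ∧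
      ¬ (x0 ∈ Set.range (algebraMap K L0) ∧ y0 ∈ Set.range (algebraMap K L0)) ∧
      mp (a : K) (b : K) (ι.comp (IntermediateField.val L0)) (Affine.Point.some x0 y0 hns) ∉ E := by
  obtain ⟨L0, hL0⟩ : ∃ L0 : IntermediateField K L, L0 = IntermediateField.adjoin K {x, y} :=
    ⟨_, rfl⟩
  have hxm : x ∈ L0 := by
    rw [hL0]
    exact IntermediateField.subset_adjoin K _ (Set.mem_insert _ _)
  have hym : y ∈ L0 := by
    rw [hL0]
    exact IntermediateField.subset_adjoin K _ (Set.mem_insert_of_mem _ rfl)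
  rw [← hL0] at hdeg
  obtain ⟨x0, hx0d⟩ : ∃ x0 : L0, (x0 : L) = x := ⟨⟨x, hxm⟩, rfl⟩
  obtain ⟨y0, hy0d⟩ : ∃ y0 : L0, (y0 : L) = y := ⟨⟨y, hym⟩, rfl⟩
  have hxa : algebraMap L0 L x0 = x := hx0d
  have heq : y0 ^ 2 = x0 ^ 3 + algebraMap K _ (a : K) * x0 + algebraMap K _ (b : K) := by
    apply (algebraMap L0 L).injective
    have h1 := eqL h
    simp only [map_add, map_mul, map_pow, ← IsScalarTower.algebraMap_apply]
    rw [hxa, show algebraMap L0 L y0 = y from hy0d]
    exact h1
  have hns : (sw (algebraMap K L0 (a : K))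
      (algebraMap K L0 (b : K))).toAffine.Nonsingular x0 y0 :=
    sw_nonsing (disc_ne hab _) heq
  have hnr : ¬ (x0 ∈ Set.range (algebraMap K L0) ∧
      y0 ∈ Set.range (algebraMap K L0)) := by
    rintro ⟨⟨x1, hx1⟩, ⟨y1, hy1⟩⟩
    have h1 : L0 = ⊥ := by
      rw [hL0, IntermediateField.adjoin_eq_bot_iff]
      rintro z hz
      rw [Set.mem_insert_iff, Set.mem_singleton_iff] at hz
      rw [SetLike.mem_coe, IntermediateField.mem_bot]
      rcases hz with rfl | rfl
      · exact ⟨x1, by rw [← hx0d, ← hx1]; rfl⟩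
      · exact ⟨y1, by rw [← hy0d, ← hy1]; rfl⟩
    rw [h1, IntermediateField.finrank_bot] at hdeg
    norm_num at hdeg
  refine ⟨L0, x0, y0, hns, hxa, hdeg, hnr, ?_⟩
  rw [mp_some] at hexc ⊢
  intro h1
  apply hexc
  have h2 : (ι.comp (IntermediateField.val _)) x0 = ι x := by
    rw [← hx0d]
    rfl
  have h3 : (ι.comp (IntermediateField.val _)) y0 = ι y := by
    rw [← hy0d]
    rfl
  simp only [h2, h3] at h1
  exact h1

theorem mainP {K : Type} [Field K] [NumberField K] (a b : 𝓞 K)
    (hab : 4 * (a : K) ^ 3 + 27 * (b : K) ^ 2 ≠ 0) :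
    ∃ E : Set (EP (a : K) (b : K) (AlgebraicClosure K)), Ngl (QQ (a : K) (b : K)) E ∧
      ∀ (k : Type) [Field k] [NumberField k] [Algebra K k] (g : Fin 4 → K),
        g 0 * g 3 - g 1 * g 2 ≠ 0 → ∀ (β : k) (S : Finset ℕ), (∀ r ∈ S, r.Prime) →
        ∀ κ : ℝ, 0 < κ → ∃ c : ℝ, 0 ≤ c ∧
        ∀ (L : Type) [Field L] [NumberField L] [Algebra K L] [Algebra k L]
          [IsScalarTower K k L] (t : L) (ι : L →ₐ[K] AlgebraicClosure K) (x y : L)
          (h : (sw (algebraMap K L (a : K)) (algebraMap K L (b : K))).toAffine.Nonsingular x y),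
          Module.finrank K (IntermediateField.adjoin K {x, y}) = 2 →
          mp (a : K) (b : K) ι (Affine.Point.some x y h) ∉ E →
          algebraMap K L (g 2) * x + algebraMap K L (g 3) ≠ 0 →
          t * (algebraMap K L (g 2) * x + algebraMap K L (g 3)) =
            algebraMap K L (g 0) * x + algebraMap K L (g 1) →
          t ≠ algebraMap k L β →
          PS S (fun v : AbsoluteValue L ℝ => max 0 (-Real.log (v (t - algebraMap k L β)))) ≤
            κ * logHeight₁ t + Module.finrank ℚ L * c := by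
  obtain ⟨E, hE1, hE2⟩ := proxAll a b hab
  refine ⟨E, hE1, ?_⟩
  intro k _ _ _ g hg β S hS κ hκ
  obtain ⟨p, m, T, hp, hloc⟩ := loc_lin g hg β
  obtain ⟨X0, hX⟩ := hE2 p hp (p.natDegree + 1) S hS κ hκ
  obtain ⟨C1, hC1, hPS⟩ := Kc_PS S hS m T
  obtain ⟨C2, hC2, hinv⟩ := mob_ht (K := K) ![g 3, -g 1, -g 2, g 0] (by
    simp only [Matrix.cons_val]
    intro h0
    apply hg
    linear_combination h0)
  obtain ⟨C3, hC3, hz⟩ := mob_ht (K := k) ![0, 1, 1, -β] (by
    simp only [Matrix.cons_val]
    norm_num)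
  obtain ⟨C4, hC4, hmob⟩ := mob_ht g hg
  refine ⟨κ * C2 + C1 + |X0| + C3 + C4, by positivity, ?_⟩
  intro L _ _ _ _ _ t ι x y h hdeg hexc hden ht htβ
  have hfdk : FiniteDimensional k L := FiniteDimensional.right ℚ k L
  have hnL : (0 : ℝ) ≤ Module.finrank ℚ L := Nat.cast_nonneg _
  have haX := abs_nonneg X0
  have ht0 : 0 ≤ logHeight₁ t := zero_le_logHeight₁ t
  obtain ⟨L0, x0, y0, hns, hxa, hd2, hnr, hex0⟩ := descend hab ι h hdeg hexc
  have hfd : FiniteDimensional L0 L := FiniteDimensional.right ℚ _ L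
  have hhx : logHeight₁ x = Module.finrank L0 L * logHeight₁ x0 := by
    have h1 := Pool.Agent.N572.DR.Inv.ht_ext (L := L0) (M := L) x0
    rwa [hxa] at h1
  have hht := hmob L x t hden ht
  have hκt : 0 ≤ κ * logHeight₁ t := by positivity
  rcases le_or_gt (logHeight₁ x0) X0 with hle | hgt
  · have h1 : logHeight₁ x ≤ Module.finrank ℚ L * |X0| := by
      rw [hhx]
      have h6 := Module.finrank_mul_finrank ℚ L0 L
      have h7 : 0 < Module.finrank ℚ L0 := Module.finrank_pos
      have h8 : Module.finrank L0 L ≤ Module.finrank ℚ L := by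
        rw [← h6]
        exact Nat.le_mul_of_pos_left _ h7
      have h9 : (Module.finrank L0 L : ℝ) ≤ Module.finrank ℚ L := by exact_mod_cast h8
      exact mul_le_mul h9 (hle.trans (le_abs_self X0)) (zero_le_logHeight₁ x0) hnL
    have hz1 := hz L t (t - algebraMap k L β)⁻¹ (by
      simp only [Matrix.cons_val, map_one, one_mul, map_neg]
      rw [← sub_eq_add_neg]
      exact sub_ne_zero.2 htβ) (by
      simp only [Matrix.cons_val, map_one, one_mul, map_neg, map_zero, zero_mul, zero_add]
      rw [← sub_eq_add_neg]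
      exact inv_mul_cancel₀ (sub_ne_zero.2 htβ))
    have h2 := PS_ht S hS (t - algebraMap k L β)⁻¹
    have h3 : PS S (fun v : AbsoluteValue L ℝ => max 0 (-Real.log (v (t - algebraMap k L β)))) ≤
        PS S (fun v : AbsoluteValue L ℝ => Real.log (max 1 (v (t - algebraMap k L β)⁻¹))) := by
      refine PS_mono S hS fun v _ => ?_
      refine max_le (Real.log_nonneg (le_max_left _ _)) ?_
      rw [← Real.log_inv, ← map_inv₀]
      exact Real.log_le_log (v.pos (inv_ne_zero (sub_ne_zero.2 htβ))) (le_max_right _ _)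
    have h4 : 0 ≤ κ * C2 := by positivity
    nlinarith
  · obtain ⟨hpx, hPx⟩ := hX L0 (ι.comp (IntermediateField.val L0)) x0 y0 hns hd2 hnr hex0 hgt
    have h1 := hPx L
    have hpa : algebraMap L0 L (aeval x0 p) = aeval x p := by
      rw [← hxa]
      exact (aeval_algebraMap_apply L x0 p).symm
    rw [hxa, hpa] at h1
    have hpx' : aeval x p ≠ 0 := by
      rw [← hpa]
      exact (_root_.map_ne_zero _).2 hpx
    have h2 := PS_mono S hS (fun v hv => hloc L x t hden ht hpx' v hv)
    rw [PS_add S hS] at h2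
    have h3 := hPS L
    have h4 : κ * (logHeight₁ x0 * Module.finrank L0 L) = κ * logHeight₁ x := by
      rw [hhx]
      ring
    rw [h4] at h1
    have h5 : algebraMap K L (g 0) * 1 ≠ 0 ∨ True := Or.inr trivial
    have hdet : (algebraMap K L (g 0)) * algebraMap K L (g 3) -
        algebraMap K L (g 1) * algebraMap K L (g 2) ≠ 0 := by
      rw [← map_mul, ← map_mul, ← map_sub]
      exact (_root_.map_ne_zero _).2 hg
    have hden2 : (-algebraMap K L (g 2) * t + algebraMap K L (g 0)) *
        (algebraMap K L (g 2) * x + algebraMap K L (g 3)) =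
        (algebraMap K L (g 0)) * algebraMap K L (g 3) -
        algebraMap K L (g 1) * algebraMap K L (g 2) := by
      linear_combination (-algebraMap K L (g 2)) * ht
    have h6 := hinv L t x (by
      simp only [Matrix.cons_val, map_neg]
      intro h0
      rw [h0, zero_mul] at hden2
      exact hdet hden2.symm) (by
      simp only [Matrix.cons_val, map_neg]
      linear_combination (-1 : L) * ht)
    have h7 : (Module.finrank k L : ℝ) ≤ Module.finrank ℚ L := by
      have h8 := Module.finrank_mul_finrank ℚ k L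
      have h9 : 0 < Module.finrank ℚ k := Module.finrank_pos
      have h10 : Module.finrank k L ≤ Module.finrank ℚ L := by
        rw [← h8]
        exact Nat.le_mul_of_pos_left _ h9
      exact_mod_cast h10
    have h8 : C1 * Module.finrank k L ≤ Module.finrank ℚ L * C1 := by
      rw [mul_comm]
      exact mul_le_mul_of_nonneg_right h7 hC1
    have h9 : κ * logHeight₁ x ≤ κ * (logHeight₁ t + Module.finrank ℚ L * C2) :=
      mul_le_mul_of_nonneg_left h6 hκ.le
    have h10 : 0 ≤ (Module.finrank ℚ L : ℝ) * (|X0| + C3 + C4) := by positivity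
    linarith

end Pool.Agent.U47.QF
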